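import Mathlib

/-!
# The linear algebra of Penner products

A product of transvections `ξ ↦ ξ + lA i ξ • eA i` and `ξ ↦ ξ - lB j ξ • eB j`, where the pairing
`lA i (eB j) = X i j = - lB j (eA i)` is real and the `A`-`A` and `B`-`B` pairings vanish,
has no eigenvalue of modulus one other than `1`.
-/

namespace Pool.Agent.Hhelper31.Penner

open Finset

section

variable {E : Type*} [AddCommGroup E] [Module ℂ E] {m n : ℕ}

/-- formal coefficient space -/
abbrev Coef (m n : ℕ) : Type := (Fin m → ℂ) × (Fin n → ℂ)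

/-- the formal action of the positive twists -/
noncomputable def MA (X : Fin m → Fin n → ℝ) (i : Fin m) : Coef m n →ₗ[ℂ] Coef m n where
  toFun v := (v.1 + Pi.single i (∑ j, (X i j : ℂ) * v.2 j), v.2)
  map_add' u v := by
    ext k
    · by_cases hk : k = i
      · subst hk; simp [mul_add, Finset.sum_add_distrib]; ring
      · simp [Pi.single_eq_of_ne hk]
    · simp
  map_smul' c v := by
    ext k
    · by_cases hk : k = i
      · subst hk; simp [Finset.mul_sum, mul_add]
        apply Finset.sum_congr rfl; intro j _; ring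
      · simp [Pi.single_eq_of_ne hk]
    · simp

/-- the formal action of the negative twists -/
noncomputable def MB (X : Fin m → Fin n → ℝ) (j : Fin n) : Coef m n →ₗ[ℂ] Coef m n where
  toFun v := (v.1, v.2 + Pi.single j (∑ i, (X i j : ℂ) * v.1 i))
  map_add' u v := by
    ext k
    · simp
    · by_cases hk : k = j
      · subst hk; simp [mul_add, Finset.sum_add_distrib]; ring
      · simp [Pi.single_eq_of_ne hk]
  map_smul' c v := by
    ext k
    · simp
    · by_cases hk : k = j
      · subst hk; simp [Finset.mul_sum, mul_add]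
        apply Finset.sum_congr rfl; intro j _; ring
      · simp [Pi.single_eq_of_ne hk]

/-- the Hermitian height -/
noncomputable def height (X : Fin m → Fin n → ℝ) (v : Coef m n) : ℝ :=
  (∑ i, ∑ j, (X i j : ℂ) * (starRingEnd ℂ (v.1 i) * v.2 j)).re

theorem height_smul (X : Fin m → Fin n → ℝ) (c : ℂ) (v : Coef m n) :
    height X (c • v) = ‖c‖ ^ 2 * height X v := by
  unfold height
  have : (∑ i, ∑ j, (X i j : ℂ) * (starRingEnd ℂ ((c • v).1 i) * (c • v).2 j))
      = ((‖c‖ ^ 2 : ℝ) : ℂ) * ∑ i, ∑ j, (X i j : ℂ) * (starRingEnd ℂ (v.1 i) * v.2 j) := by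
    rw [Finset.mul_sum]
    refine Finset.sum_congr rfl fun i _ => ?_
    rw [Finset.mul_sum]
    refine Finset.sum_congr rfl fun j _ => ?_
    have hc : ((‖c‖ ^ 2 : ℝ) : ℂ) = starRingEnd ℂ c * c := by
      rw [← Complex.normSq_eq_conj_mul_self, Complex.normSq_eq_norm_sq]
    rw [hc]
    simp only [Prod.smul_fst, Prod.smul_snd, Pi.smul_apply, smul_eq_mul, map_mul]
    ring
  rw [this, Complex.re_ofReal_mul]

theorem height_MA (X : Fin m → Fin n → ℝ) (i : Fin m) (v : Coef m n) :
    height X (MA X i v) = height X v + ‖∑ j, (X i j : ℂ) * v.2 j‖ ^ 2 := by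
  unfold height
  set s := ∑ j, (X i j : ℂ) * v.2 j with hs
  have h1 : ∀ k, ∑ j, (X k j : ℂ) * (starRingEnd ℂ ((MA X i v).1 k) * (MA X i v).2 j)
      = ∑ j, (X k j : ℂ) * (starRingEnd ℂ (v.1 k) * v.2 j)
        + if k = i then starRingEnd ℂ s * s else 0 := by
    intro k
    have e : (MA X i v).1 k = v.1 k + (Pi.single i s : Fin m → ℂ) k := rfl
    have e2 : (MA X i v).2 = v.2 := rfl
    rw [e, e2]
    by_cases hk : k = i
    · subst hk
      rw [Pi.single_eq_same, if_pos rfl]
      have : starRingEnd ℂ s * s = ∑ j, (X k j : ℂ) * (starRingEnd ℂ s * v.2 j) := by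
        conv_lhs => rw [hs]
        rw [← hs, Finset.mul_sum]
        refine Finset.sum_congr rfl fun j _ => by ring
      rw [this, ← Finset.sum_add_distrib]
      refine Finset.sum_congr rfl fun j _ => ?_
      rw [map_add]; ring
    · rw [Pi.single_eq_of_ne hk, if_neg hk]
      simp
  simp_rw [h1]
  rw [Finset.sum_add_distrib, Complex.add_re]
  congr 1
  rw [Finset.sum_ite_eq' Finset.univ i, if_pos (Finset.mem_univ i),
    ← Complex.normSq_eq_conj_mul_self, Complex.normSq_eq_norm_sq]
  norm_cast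

theorem height_MB (X : Fin m → Fin n → ℝ) (j : Fin n) (v : Coef m n) :
    height X (MB X j v) = height X v + ‖∑ i, (X i j : ℂ) * v.1 i‖ ^ 2 := by
  unfold height
  set s := ∑ i, (X i j : ℂ) * v.1 i with hs
  have h1 : ∀ i, ∑ k, (X i k : ℂ) * (starRingEnd ℂ ((MB X j v).1 i) * (MB X j v).2 k)
      = ∑ k, (X i k : ℂ) * (starRingEnd ℂ (v.1 i) * v.2 k)
        + (X i j : ℂ) * starRingEnd ℂ (v.1 i) * s := by
    intro i
    have e2 : ∀ k, (MB X j v).2 k = v.2 k + (Pi.single j s : Fin n → ℂ) k := fun _ => rfl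
    have e : (MB X j v).1 = v.1 := rfl
    simp_rw [e2, e]
    have : ∀ k, (X i k : ℂ) * (starRingEnd ℂ (v.1 i) * (v.2 k + (Pi.single j s : Fin n → ℂ) k))
        = (X i k : ℂ) * (starRingEnd ℂ (v.1 i) * v.2 k)
          + if k = j then (X i j : ℂ) * starRingEnd ℂ (v.1 i) * s else 0 := by
      intro k
      by_cases hk : k = j
      · subst hk; rw [Pi.single_eq_same, if_pos rfl]; ring
      · rw [Pi.single_eq_of_ne hk, if_neg hk]; ring
    simp_rw [this]
    rw [Finset.sum_add_distrib, Finset.sum_ite_eq' Finset.univ j, if_pos (Finset.mem_univ j)]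
  simp_rw [h1]
  rw [Finset.sum_add_distrib, Complex.add_re]
  congr 1
  rw [← Finset.sum_mul]
  have : ∑ i, (X i j : ℂ) * starRingEnd ℂ (v.1 i) = starRingEnd ℂ s := by
    rw [hs, map_sum]
    refine Finset.sum_congr rfl fun i _ => by rw [map_mul, Complex.conj_ofReal]
  rw [this, ← Complex.normSq_eq_conj_mul_self, Complex.normSq_eq_norm_sq]
  norm_cast

/-- formal action of a letter -/
noncomputable def ML (X : Fin m → Fin n → ℝ) : Fin m ⊕ Fin n → (Coef m n →ₗ[ℂ] Coef m n)
  | Sum.inl i => MA X i
  | Sum.inr j => MB X j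

/-- formal action of a word -/
noncomputable def MW (X : Fin m → Fin n → ℝ) (w : List (Fin m ⊕ Fin n)) :
    Coef m n →ₗ[ℂ] Coef m n :=
  (w.map (ML X)).prod

theorem height_ML (X : Fin m → Fin n → ℝ) (l : Fin m ⊕ Fin n) (v : Coef m n) :
    height X v ≤ height X (ML X l v) ∧ (height X (ML X l v) = height X v → ML X l v = v) := by
  rcases l with i | j
  · change height X v ≤ height X (MA X i v) ∧ (height X (MA X i v) = height X v → MA X i v = v)
    rw [height_MA]
    refine ⟨by nlinarith [sq_nonneg ‖∑ j, (X i j : ℂ) * v.2 j‖], fun h => ?_⟩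
    have h0 : ‖∑ j, (X i j : ℂ) * v.2 j‖ ^ 2 = 0 := by linarith
    have h1 : ∑ j, (X i j : ℂ) * v.2 j = 0 := by simpa using h0
    change (v.1 + Pi.single i (∑ j, (X i j : ℂ) * v.2 j), v.2) = v
    rw [h1]; simp
  · change height X v ≤ height X (MB X j v) ∧ (height X (MB X j v) = height X v → MB X j v = v)
    rw [height_MB]
    refine ⟨by nlinarith [sq_nonneg ‖∑ i, (X i j : ℂ) * v.1 i‖], fun h => ?_⟩
    have h0 : ‖∑ i, (X i j : ℂ) * v.1 i‖ ^ 2 = 0 := by linarith
    have h1 : ∑ i, (X i j : ℂ) * v.1 i = 0 := by simpa using h0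
    change (v.1, v.2 + Pi.single j (∑ i, (X i j : ℂ) * v.1 i)) = v
    rw [h1]; simp

theorem height_MW (X : Fin m → Fin n → ℝ) (w : List (Fin m ⊕ Fin n)) (v : Coef m n) :
    height X v ≤ height X (MW X w v) ∧ (height X (MW X w v) = height X v → MW X w v = v) := by
  induction w with
  | nil => exact ⟨le_refl _, fun _ => rfl⟩
  | cons l w ih =>
    have e : MW X (l :: w) v = ML X l (MW X w v) := by
      unfold MW; rw [List.map_cons, List.prod_cons]; rfl
    rw [e]
    obtain ⟨h1, h2⟩ := height_ML X l (MW X w v)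
    refine ⟨ih.1.trans h1, fun h => ?_⟩
    have h3 : height X (MW X w v) = height X v := le_antisymm (by rw [← h]; exact h1) ih.1
    have h4 := ih.2 h3
    rw [h2 (by rw [h, h3]), h4]

theorem MW_eigen (X : Fin m → Fin n → ℝ) (w : List (Fin m ⊕ Fin n)) (v : Coef m n) (hv : v ≠ 0)
    (ν : ℂ) (hν : ‖ν‖ = 1) (h : MW X w v = ν • v) : ν = 1 := by
  have h1 : height X (MW X w v) = height X v := by
    rw [h, height_smul, hν]; ring
  have h2 := (height_MW X w v).2 h1
  rw [h] at h2
  have h3 : (ν - 1) • v = 0 := by rw [sub_smul, h2, one_smul, sub_self]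
  rcases smul_eq_zero.1 h3 with h4 | h4
  · exact sub_eq_zero.1 h4
  · exact absurd h4 hv

variable (eA : Fin m → E) (eB : Fin n → E) (lA : Fin m → E →ₗ[ℂ] ℂ) (lB : Fin n → E →ₗ[ℂ] ℂ)

/-- action of a letter on `E` -/
noncomputable def opL : Fin m ⊕ Fin n → (E →ₗ[ℂ] E)
  | Sum.inl i => LinearMap.id + (lA i).smulRight (eA i)
  | Sum.inr j => LinearMap.id - (lB j).smulRight (eB j)

/-- the map from formal coefficients to `E` -/
noncomputable def real : Coef m n →ₗ[ℂ] E where
  toFun v := ∑ i, v.1 i • eA i + ∑ j, v.2 j • eB j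
  map_add' u v := by
    simp only [Prod.fst_add, Prod.snd_add, Pi.add_apply, add_smul, Finset.sum_add_distrib]
    abel
  map_smul' c v := by
    simp only [Prod.smul_fst, Prod.smul_snd, Pi.smul_apply, smul_eq_mul, mul_smul,
      RingHom.id_apply, smul_add, Finset.smul_sum]

theorem real_single_left (i : Fin m) (c : ℂ) :
    real eA eB (Pi.single i c, 0) = c • eA i := by
  change ∑ k, (Pi.single i c : Fin m → ℂ) k • eA k + ∑ j, (0 : Fin n → ℂ) j • eB j = _
  rw [Finset.sum_eq_single i]
  · simp
  · intro b _ hb; rw [Pi.single_eq_of_ne hb, zero_smul]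
  · intro h; exact absurd (Finset.mem_univ i) h

theorem real_single_right (j : Fin n) (c : ℂ) :
    real eA eB (0, Pi.single j c) = c • eB j := by
  change ∑ i, (0 : Fin m → ℂ) i • eA i + ∑ k, (Pi.single j c : Fin n → ℂ) k • eB k = _
  rw [Finset.sum_eq_single j (s := Finset.univ) (f := fun k => (Pi.single j c : Fin n → ℂ) k • eB k)]
  · simp
  · intro b _ hb; rw [Pi.single_eq_of_ne hb, zero_smul]
  · intro h; exact absurd (Finset.mem_univ j) h

variable {eA eB lA lB}
variable {X : Fin m → Fin n → ℝ}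

theorem opL_real (hAA : ∀ i i', lA i (eA i') = 0) (hBB : ∀ j j', lB j (eB j') = 0)
    (hAB : ∀ i j, lA i (eB j) = X i j) (hBA : ∀ i j, lB j (eA i) = -(X i j : ℂ))
    (l : Fin m ⊕ Fin n) (v : Coef m n) :
    opL eA eB lA lB l (real eA eB v) = real eA eB (ML X l v) := by
  rcases l with i | j
  · have h1 : lA i (real eA eB v) = ∑ j, (X i j : ℂ) * v.2 j := by
      change lA i (∑ i, v.1 i • eA i + ∑ j, v.2 j • eB j) = _
      rw [map_add, map_sum, map_sum]
      simp only [map_smul, hAA, hAB, smul_eq_mul, mul_zero, Finset.sum_const_zero, zero_add]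
      refine Finset.sum_congr rfl fun j _ => by ring
    have h2 : ML X (Sum.inl i) v = v + (Pi.single i (∑ j, (X i j : ℂ) * v.2 j), 0) := by
      change (v.1 + Pi.single i (∑ j, (X i j : ℂ) * v.2 j), v.2) = _
      ext k <;> simp
    rw [h2, map_add, real_single_left]
    change real eA eB v + lA i (real eA eB v) • eA i = _
    rw [h1]
  · have h1 : lB j (real eA eB v) = -∑ i, (X i j : ℂ) * v.1 i := by
      change lB j (∑ i, v.1 i • eA i + ∑ j, v.2 j • eB j) = _
      rw [map_add, map_sum, map_sum]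
      simp only [map_smul, hBB, hBA, smul_eq_mul, mul_zero, Finset.sum_const_zero, add_zero]
      rw [← Finset.sum_neg_distrib]
      refine Finset.sum_congr rfl fun j _ => by ring
    have h2 : ML X (Sum.inr j) v = v + (0, Pi.single j (∑ i, (X i j : ℂ) * v.1 i)) := by
      change (v.1, v.2 + Pi.single j (∑ i, (X i j : ℂ) * v.1 i)) = _
      ext k <;> simp
    rw [h2, map_add, real_single_right]
    change real eA eB v - lB j (real eA eB v) • eB j = _
    rw [h1, neg_smul, sub_neg_eq_add]

/-- The algebraic form of the obstruction. -/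
theorem eigenvalue_eq_one (hAA : ∀ i i', lA i (eA i') = 0) (hBB : ∀ j j', lB j (eB j') = 0)
    (hAB : ∀ i j, lA i (eB j) = X i j) (hBA : ∀ i j, lB j (eA i) = -(X i j : ℂ))
    (w : List (Fin m ⊕ Fin n)) (ξ : E) (hξ : ξ ≠ 0) (ν : ℂ) (hν : ‖ν‖ = 1)
    (h : (w.map (opL eA eB lA lB)).prod ξ = ν • ξ) : ν = 1 := by
  by_contra hne
  set R := real eA eB with hR
  -- equivariance
  have heq : ∀ (w : List (Fin m ⊕ Fin n)) (v : Coef m n),
      (w.map (opL eA eB lA lB)).prod (R v) = R (MW X w v) := by
    intro w v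
    induction w with
    | nil => rfl
    | cons l w ih =>
      have e : MW X (l :: w) v = ML X l (MW X w v) := by
        unfold MW; rw [List.map_cons, List.prod_cons]; rfl
      rw [e, List.map_cons, List.prod_cons]
      change opL eA eB lA lB l ((w.map (opL eA eB lA lB)).prod (R v)) = _
      rw [ih, opL_real hAA hBB hAB hBA]
  -- differences are in the range
  have hdiff : ∀ (w : List (Fin m ⊕ Fin n)) (x : E),
      (w.map (opL eA eB lA lB)).prod x - x ∈ LinearMap.range R := by
    intro w x
    induction w with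
    | nil => rw [List.map_nil, List.prod_nil]; change x - x ∈ _; rw [sub_self]; exact zero_mem _
    | cons l w ih =>
      rw [List.map_cons, List.prod_cons]
      change opL eA eB lA lB l ((w.map (opL eA eB lA lB)).prod x) - x ∈ _
      set y := (w.map (opL eA eB lA lB)).prod x
      have : opL eA eB lA lB l y - x = (opL eA eB lA lB l y - y) + (y - x) := by abel
      rw [this]
      refine add_mem ?_ ih
      rcases l with i | j
      · refine ⟨(Pi.single i (lA i y), 0), ?_⟩
        rw [hR, real_single_left]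
        change lA i y • eA i = (y + lA i y • eA i) - y
        abel
      · refine ⟨(0, Pi.single j (-lB j y)), ?_⟩
        rw [hR, real_single_right]
        change (-lB j y) • eB j = (y - lB j y • eB j) - y
        rw [neg_smul]; abel
  have hξR : ξ ∈ LinearMap.range R := by
    have h1 := hdiff w ξ
    rw [h] at h1
    have h2 : ν • ξ - ξ = (ν - 1) • ξ := by rw [sub_smul, one_smul]
    rw [h2] at h1
    have h3 : ξ = (ν - 1)⁻¹ • ((ν - 1) • ξ) := by
      rw [smul_smul, inv_mul_cancel₀ (sub_ne_zero.2 hne), one_smul]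
    rw [h3]
    exact Submodule.smul_mem _ _ h1
  obtain ⟨v₀, hv₀⟩ := hξR
  set N : Coef m n →ₗ[ℂ] Coef m n := MW X w - ν • LinearMap.id with hN
  have hinj : Function.Injective N := by
    rw [← LinearMap.ker_eq_bot, LinearMap.ker_eq_bot']
    intro v hv
    by_contra hv0
    refine hne (MW_eigen X w v hv0 ν hν ?_)
    have : MW X w v - ν • v = 0 := hv
    exact sub_eq_zero.1 this
  -- kernel of R is invariant
  have hK : ∀ v ∈ LinearMap.ker R, N v ∈ LinearMap.ker R := by
    intro v hv
    rw [LinearMap.mem_ker] at hv ⊢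
    change R (MW X w v - ν • v) = 0
    rw [map_sub, ← heq, map_smul, hv, map_zero, smul_zero, sub_zero]
  set N' := N.restrict hK
  have hinj' : Function.Injective N' := by
    intro a b hab
    apply Subtype.ext
    apply hinj
    exact congrArg Subtype.val hab
  have hsurj' : Function.Surjective N' := (LinearMap.injective_iff_surjective).1 hinj'
  have hv₀K : N v₀ ∈ LinearMap.ker R := by
    rw [LinearMap.mem_ker]
    change R (MW X w v₀ - ν • v₀) = 0
    rw [map_sub, ← heq, map_smul, hv₀, h, sub_self]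
  obtain ⟨⟨u, hu⟩, huN⟩ := hsurj' ⟨N v₀, hv₀K⟩
  have : N u = N v₀ := congrArg Subtype.val huN
  have huv := hinj this
  subst huv
  rw [LinearMap.mem_ker] at hu
  exact hξ (by rw [← hv₀, hu])

end

end Pool.Agent.Hhelper31.Penner
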