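import Pool.Agent.Hhelper31.Penner.Surf

/-!
# Flat charts and the oriented atlas of the surface
-/

namespace Pool.Agent.Hhelper31.Penner

open Set Filter Topology Complex

/-- reduction modulo `1` of a point of the plane -/
noncomputable def tor (p : ℝ × ℝ) : 𝕋 × 𝕋 := ((p.1 : 𝕋), (p.2 : 𝕋))

theorem continuous_tor : Continuous tor :=
  ((AddCircle.continuous_mk' (1 : ℝ)).comp continuous_fst).prodMk
    ((AddCircle.continuous_mk' (1 : ℝ)).comp continuous_snd)

theorem tor_surj (x : 𝕋 × 𝕋) : ∃ p, tor p = x := by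
  obtain ⟨a, ha⟩ := QuotientAddGroup.mk_surjective x.1
  obtain ⟨b, hb⟩ := QuotientAddGroup.mk_surjective x.2
  exact ⟨(a, b), Prod.ext ha hb⟩

theorem tor_eq_iff (p q : ℝ × ℝ) :
    tor p = tor q ↔ (∃ m : ℤ, p.1 = q.1 + m) ∧ ∃ n : ℤ, p.2 = q.2 + n := by
  unfold tor
  rw [Prod.ext_iff]
  simp only [coe_eq_coe_iff]

theorem pow_four_eq_one {t : ℂ} (h : t ^ 4 = 1) : t = 1 ∨ t = -1 ∨ t = I ∨ t = -I := by
  have : (t - 1) * ((t + 1) * ((t - I) * (t + I))) = 0 := by
    have e : (t - 1) * ((t + 1) * ((t - I) * (t + I))) = t ^ 4 - 1 - (t ^ 2 - 1) * (I ^ 2 + 1) := by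
      ring
    rw [e, h, I_sq]; ring
  rcases mul_eq_zero.1 this with h | h
  · exact Or.inl (sub_eq_zero.1 h)
  rcases mul_eq_zero.1 h with h | h
  · exact Or.inr (Or.inl (eq_neg_of_add_eq_zero_left h))
  rcases mul_eq_zero.1 h with h | h
  · exact Or.inr (Or.inr (Or.inl (sub_eq_zero.1 h)))
  · exact Or.inr (Or.inr (Or.inr (eq_neg_of_add_eq_zero_left h)))

theorem eq_one_of_pow_four {t : ℂ} (h : t ^ 4 = 1) (h1 : ‖t - 1‖ < 1) : t = 1 := by
  rcases pow_four_eq_one h with h | h | h | h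
  · exact h
  all_goals
    exfalso
    rw [h] at h1
    have h2 := pow_lt_one₀ (norm_nonneg _) h1 two_ne_zero
    rw [Complex.sq_norm, Complex.normSq_apply] at h2
    simp at h2
    try linarith

theorem root_eq_of_near {z w : ℂ} (hw : w ≠ 0) (h : z ^ 4 = w ^ 4) (h1 : ‖z / w - 1‖ < 1) :
    z = w := by
  have : z / w = 1 := eq_one_of_pow_four (by rw [div_pow, h, div_self (pow_ne_zero 4 hw)]) h1
  rwa [div_eq_one_iff_eq hw] at this

/-- the projection of an open unit square of the plane to the torus -/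
noncomputable def sqHomeo (a b : ℝ) : OpenPartialHomeomorph (ℝ × ℝ) (𝕋 × 𝕋) :=
  (AddCircle.openPartialHomeomorphCoe (1 : ℝ) a).prod (AddCircle.openPartialHomeomorphCoe (1 : ℝ) b)

theorem sqHomeo_apply (a b : ℝ) (p : ℝ × ℝ) : sqHomeo a b p = tor p := rfl

theorem sqHomeo_source (a b : ℝ) : (sqHomeo a b).source = Ioo a (a + 1) ×ˢ Ioo b (b + 1) := rfl

theorem tor_sqHomeo_symm (a b : ℝ) (x : 𝕋 × 𝕋) (hx : x ∈ (sqHomeo a b).target) :
    tor ((sqHomeo a b).symm x) = x := (sqHomeo a b).right_inv hx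

/-- The section of the surface given by a branch `w` of the fourth root of `F` over an
open set contained in a unit square, as a partial homeomorphism. -/
theorem exists_section (a b : ℝ) (K : Set (ℝ × ℝ)) (hK : IsOpen K)
    (hKs : K ⊆ Ioo a (a + 1) ×ˢ Ioo b (b + 1)) (w : ℝ × ℝ → ℂ) (hw : ContinuousOn w K)
    (hw0 : ∀ p ∈ K, w p ≠ 0) (hw4 : ∀ p ∈ K, w p ^ 4 = FF (tor p)) (q₀ : Surf) :
    ∃ s : OpenPartialHomeomorph (ℝ × ℝ) Surf, s.source = K ∧
      (∀ p ∈ K, (s p).base = tor p ∧ (s p).root = w p) := by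
  classical
  set E := sqHomeo a b with hE
  have hsub : K ⊆ E.source := hKs
  let sec : ℝ × ℝ → Surf := fun p =>
    if h : w p ≠ 0 ∧ w p ^ 4 = FF (tor p) then Surf.mk (tor p) (w p) h.1 h.2 else q₀
  have hsec : ∀ p ∈ K, (sec p).base = tor p ∧ (sec p).root = w p := by
    intro p hp
    have h : w p ≠ 0 ∧ w p ^ 4 = FF (tor p) := ⟨hw0 p hp, hw4 p hp⟩
    simp only [sec, dif_pos h]
    exact ⟨rfl, rfl⟩
  let T : Set Surf := {q | q.base ∈ E.target ∧ E.symm q.base ∈ K ∧ q.root = w (E.symm q.base)}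
  let V : Set Surf := {q | q.base ∈ E.target ∧ E.symm q.base ∈ K}
  have hV : IsOpen V := by
    have h1 : IsOpen (E.target ∩ E.symm ⁻¹' K) := E.symm.isOpen_inter_preimage hK
    exact h1.preimage Surf.continuous_base
  have hVc : ContinuousOn (fun q : Surf => E.symm q.base) V := by
    have h1 : ContinuousOn E.symm E.target := E.continuousOn_symm
    exact h1.comp Surf.continuous_base.continuousOn (fun q hq => hq.1)
  have hWc : ContinuousOn (fun q : Surf => w (E.symm q.base)) V :=
    hw.comp hVc (fun q hq => hq.2)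
  have hT : IsOpen T := by
    have : T = V ∩ (fun q : Surf => q.root / w (E.symm q.base) - 1) ⁻¹' {z | ‖z‖ < 1} := by
      ext q
      constructor
      · rintro ⟨h1, h2, h3⟩
        refine ⟨⟨h1, h2⟩, ?_⟩
        change ‖q.root / w (E.symm q.base) - 1‖ < 1
        rw [h3, div_self (hw0 _ h2)]; simp
      · rintro ⟨⟨h1, h2⟩, h3⟩
        refine ⟨h1, h2, root_eq_of_near (hw0 _ h2) ?_ h3⟩
        rw [q.root_pow, hw4 _ h2, tor_sqHomeo_symm a b _ h1]
    rw [this]
    refine ContinuousOn.isOpen_inter_preimage ?_ hV ?_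
    · refine ContinuousOn.sub (ContinuousOn.div Surf.continuous_root.continuousOn hWc ?_)
        continuousOn_const
      intro q hq
      exact hw0 _ hq.2
    · exact isOpen_lt continuous_norm continuous_const
  refine ⟨{ toFun := sec, invFun := fun q => E.symm q.base, source := K, target := T,
            map_source' := ?_, map_target' := ?_, left_inv' := ?_, right_inv' := ?_,
            open_source := hK, open_target := hT, continuousOn_toFun := ?_,
            continuousOn_invFun := ?_ }, rfl, hsec⟩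
  · intro p hp
    have hp' := hsub hp
    have e1 : E.symm (sec p).base = p := by
      rw [(hsec p hp).1]; exact E.left_inv hp'
    refine ⟨?_, ?_, ?_⟩
    · rw [(hsec p hp).1]; exact E.map_source hp'
    · rw [e1]; exact hp
    · rw [e1]; exact (hsec p hp).2
  · intro q hq; exact hq.2.1
  · intro p hp
    change E.symm (sec p).base = p
    rw [(hsec p hp).1]; exact E.left_inv (hsub hp)
  · intro q hq
    apply Surf.ext
    · rw [(hsec _ hq.2.1).1]; exact tor_sqHomeo_symm a b _ hq.1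
    · rw [(hsec _ hq.2.1).2]; exact hq.2.2.symm
  · have hval : ContinuousOn (fun p => ((sec p).1 : (𝕋 × 𝕋) × ℂ)) K := by
      have h1 : ContinuousOn (fun p => ((tor p, w p) : (𝕋 × 𝕋) × ℂ)) K :=
        continuous_tor.continuousOn.prodMk hw
      refine h1.congr fun p hp => ?_
      exact Prod.ext (hsec p hp).1 (hsec p hp).2
    exact Topology.IsEmbedding.subtypeVal.continuousOn_iff.2 hval
  · exact hVc.mono fun q hq => ⟨hq.1, hq.2.1⟩

theorem mem_slitPlane_of_near_one {z : ℂ} (h : ‖z - 1‖ < 1) : z ∈ slitPlane := by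
  have := Complex.mem_slitPlane_of_norm_lt_one h
  simpa using this

/-- every point of the surface lies in a flat chart -/
theorem exists_flat (q : Surf) : ∃ e : OpenPartialHomeomorph Surf (ℝ × ℝ), IsFlat e ∧ q ∈ e.source := by
  obtain ⟨p₀, hp₀⟩ := tor_surj q.base
  set g : ℝ × ℝ → ℂ := fun p => FF (tor p) / FF (tor p₀) with hg
  have hF0 : FF (tor p₀) ≠ 0 := by rw [hp₀]; exact q.FF_ne
  have hgc : Continuous g := (continuous_FF.comp continuous_tor).div_const _
  set K : Set (ℝ × ℝ) := (Ioo (p₀.1 - 1 / 2) (p₀.1 - 1 / 2 + 1) ×ˢ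
    Ioo (p₀.2 - 1 / 2) (p₀.2 - 1 / 2 + 1)) ∩ {p | ‖g p - 1‖ < 1} with hK
  have hKo : IsOpen K :=
    (isOpen_Ioo.prod isOpen_Ioo).inter (isOpen_lt (hgc.sub continuous_const).norm continuous_const)
  have hp₀K : p₀ ∈ K := by
    refine ⟨⟨⟨by linarith, by linarith⟩, ⟨by linarith, by linarith⟩⟩, ?_⟩
    change ‖g p₀ - 1‖ < 1
    rw [hg]; simp only; rw [div_self hF0]; simp
  set w : ℝ × ℝ → ℂ := fun p => q.root * g p ^ ((4 : ℕ) : ℂ)⁻¹ with hw
  have hgK : ∀ p ∈ K, g p ∈ slitPlane := fun p hp => mem_slitPlane_of_near_one hp.2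
  have hwc : ContinuousOn w K := by
    refine continuousOn_const.mul ?_
    intro p hp
    exact (hgc.continuousAt.cpow continuousAt_const (hgK p hp)).continuousWithinAt
  have hw4 : ∀ p ∈ K, w p ^ 4 = FF (tor p) := by
    intro p hp
    simp only [hw]
    rw [mul_pow, Complex.cpow_nat_inv_pow _ (by norm_num), q.root_pow, hg, ← hp₀]
    simp only
    rw [mul_div_cancel₀ _ hF0]
  have hw0 : ∀ p ∈ K, w p ≠ 0 := by
    intro p hp h0
    have := hw4 p hp
    rw [h0] at this
    have h1 : g p = 0 := by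
      simp only [hg]; rw [← this]; simp
    exact slitPlane_ne_zero (hgK p hp) h1
  obtain ⟨s, hs, hsK⟩ := exists_section _ _ K hKo inter_subset_left w hwc hw0 hw4 q
  have hwp : w p₀ = q.root := by
    simp only [hw, hg]; rw [div_self hF0, one_cpow, mul_one]
  have hsp : s p₀ = q := by
    apply Surf.ext
    · rw [(hsK p₀ hp₀K).1, hp₀]
    · rw [(hsK p₀ hp₀K).2, hwp]
  refine ⟨s.symm, ?_, ?_⟩
  · intro x hx
    have hx' : x ∈ s.target := hx
    have h1 : s.symm x ∈ K := by rw [← hs]; exact s.map_target hx'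
    have h2 := (hsK _ h1).1
    rw [s.right_inv hx'] at h2
    exact h2.symm
  · change q ∈ s.target
    rw [← hsp]
    exact s.map_source (by rw [hs]; exact hp₀K)

/-- Two functions to the plane which are continuous at `x` and agree modulo `ℤ × ℤ` near `x`
differ by a constant near `x`. -/
theorem eventually_const_of_tor {Y : Type} [TopologicalSpace Y] {u v : Y → ℝ × ℝ} {x : Y}
    (hu : ContinuousAt u x) (hv : ContinuousAt v x) (h : ∀ᶠ y in 𝓝 x, tor (u y) = tor (v y)) :
    ∀ᶠ y in 𝓝 x, u y = v y + (u x - v x) := by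
  have hc : ContinuousAt (fun y => (u y - v y) - (u x - v x)) x :=
    (hu.sub hv).sub continuousAt_const
  have h0 : ∀ᶠ y in 𝓝 x, ‖(u y - v y) - (u x - v x)‖ < 1 := by
    have : Tendsto (fun y => ‖(u y - v y) - (u x - v x)‖) (𝓝 x) (𝓝 0) := by
      have := hc.norm.tendsto
      simpa using this
    exact this.eventually (gt_mem_nhds one_pos)
  have hx := h.self_of_nhds
  obtain ⟨⟨m₀, hm₀⟩, ⟨n₀, hn₀⟩⟩ := (tor_eq_iff _ _).1 hx
  filter_upwards [h0, h] with y hy hy2
  obtain ⟨⟨m, hm⟩, ⟨n, hn⟩⟩ := (tor_eq_iff _ _).1 hy2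
  have h1 : |((u y - v y) - (u x - v x)).1| < 1 :=
    lt_of_le_of_lt (by rw [← Real.norm_eq_abs]; exact norm_fst_le _) hy
  have h2 : |((u y - v y) - (u x - v x)).2| < 1 :=
    lt_of_le_of_lt (by rw [← Real.norm_eq_abs]; exact norm_snd_le _) hy
  simp only [Prod.fst_sub, Prod.snd_sub] at h1 h2
  rw [hm, hm₀] at h1
  rw [hn, hn₀] at h2
  have e1 : (m : ℝ) = m₀ := by
    have : |((m - m₀ : ℤ) : ℝ)| < 1 := by
      push_cast; convert h1 using 2; ring
    have : |m - m₀| < 1 := by exact_mod_cast this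
    have : m - m₀ = 0 := Int.abs_lt_one_iff.1 this
    exact_mod_cast (by linarith : m = m₀)
  have e2 : (n : ℝ) = n₀ := by
    have : |((n - n₀ : ℤ) : ℝ)| < 1 := by
      push_cast; convert h2 using 2; ring
    have : |n - n₀| < 1 := by exact_mod_cast this
    have : n - n₀ = 0 := Int.abs_lt_one_iff.1 this
    exact_mod_cast (by linarith : n = n₀)
  apply Prod.ext
  · simp only [Prod.fst_add, Prod.fst_sub]; rw [hm, hm₀, e1]; ring
  · simp only [Prod.snd_add, Prod.snd_sub]; rw [hn, hn₀, e2]; ring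

theorem IsFlat.eventually {e : OpenPartialHomeomorph Surf (ℝ × ℝ)} (he : IsFlat e) {x : Surf}
    (hx : x ∈ e.source) : ∀ᶠ y in 𝓝 x, tor (e y) = y.base := by
  filter_upwards [e.open_source.mem_nhds hx] with y hy
  exact he y hy

theorem flat_transition {e e' : OpenPartialHomeomorph Surf (ℝ × ℝ)} (he : IsFlat e)
    (he' : IsFlat e') {x : Surf} (hx : x ∈ e.source) (hx' : x ∈ e'.source) :
    ∀ᶠ y in 𝓝 x, e' y = e y + (e' x - e x) := by
  apply eventually_const_of_tor (e'.continuousAt hx') (e.continuousAt hx)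
  filter_upwards [he.eventually hx, he'.eventually hx'] with y h1 h2
  rw [h1, h2]

theorem flat_transition' {e e' : OpenPartialHomeomorph Surf (ℝ × ℝ)} (he : IsFlat e)
    (he' : IsFlat e') {z : ℝ × ℝ} (hz : z ∈ (e.symm.trans e').source) :
    ∃ c : ℝ × ℝ, (fun z => (e.symm.trans e') z) =ᶠ[𝓝 z] fun z => z + c := by
  rw [OpenPartialHomeomorph.trans_source, OpenPartialHomeomorph.symm_source] at hz
  obtain ⟨h1, h2⟩ := hz
  have h3 : e.symm z ∈ e.source := e.map_target h1
  have h4 := flat_transition he he' h3 h2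
  refine ⟨e' (e.symm z) - e (e.symm z), ?_⟩
  have h5 := (e.symm.continuousAt (x := z) h1).eventually h4
  filter_upwards [h5, e.open_target.mem_nhds h1] with y hy hy'
  rw [OpenPartialHomeomorph.coe_trans]
  change e' (e.symm y) = _
  rw [hy, e.right_inv hy']

/-- The oriented atlas of flat charts. -/
noncomputable def atlas : OrientedAtlas Surf where
  charts := {e | IsFlat e}
  covers x := exists_flat x
  smooth e he e' he' z hz := by
    obtain ⟨c, hc⟩ := flat_transition' he he' hz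
    exact (contDiffAt_id.add contDiffAt_const).congr_of_eventuallyEq hc
  oriented e he e' he' z hz := by
    obtain ⟨c, hc⟩ := flat_transition' he he' hz
    have : fderiv ℝ (fun z => (e.symm.trans e') z) z = ContinuousLinearMap.id ℝ (ℝ × ℝ) := by
      rw [hc.fderiv_eq]
      exact ((hasFDerivAt_id z).add_const c).fderiv
    change 0 < (fderiv ℝ (fun z => (e.symm.trans e') z) z).det
    rw [this]
    simp [ContinuousLinearMap.det]

end Pool.Agent.Hhelper31.Penner
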