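import Pool.Agent.Hhelper94.PennerEdges

/-!
# The surface is connected
-/

namespace Pool.Agent.Hhelper31.Penner

open Set Filter Topology Complex

/-- lifting of paths avoiding the zeros of `F` -/
theorem exists_path_lift (p : C(ℝ, ℝ × ℝ)) (hp : ∀ t, FF (tor (p t)) ≠ 0) (q : Surf) (t₀ : ℝ)
    (hq : q.base = tor (p t₀)) : ∃ γ : C(ℝ, Surf), γ t₀ = q ∧ ∀ t, (γ t).base = tor (p t) := by
  have hsc : IsSimplyConnected (Set.univ : Set ℝ) := by
    have : ContractibleSpace (Set.univ : Set ℝ) := convex_univ.contractibleSpace ⟨0, trivial⟩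
    change SimplyConnectedSpace (Set.univ : Set ℝ)
    infer_instance
  obtain ⟨f, hf, hf4⟩ := Complex.exists_continuousOn_pow_eq (X := ℝ) (U := Set.univ)
    hsc isOpen_univ (g := fun t => FF (tor (p t)))
    ((continuous_FF.comp (continuous_tor.comp p.continuous)).continuousOn) (by
      rintro ⟨t, -, ht⟩; exact hp t ht) (n := 4) (by norm_num)
  have hfc : Continuous f := continuousOn_univ.1 hf
  have hf0 : ∀ t, f t ≠ 0 := by
    intro t h0
    have := hf4 t
    rw [h0] at this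
    exact hp t (by rw [← this]; norm_num)
  set c : ℂ := q.root / f t₀ with hc
  have hc4 : c ^ 4 = 1 := by
    rw [hc, div_pow, q.root_pow, hf4, hq, div_self (hp t₀)]
  have hc0 : c ≠ 0 := div_ne_zero q.root_ne (hf0 t₀)
  refine ⟨⟨fun t => Surf.mk (tor (p t)) (c * f t) (mul_ne_zero hc0 (hf0 t)) (by
    rw [mul_pow, hc4, hf4, one_mul]), ?_⟩, ?_, ?_⟩
  · exact Surf.continuous_mk (continuous_tor.comp p.continuous) (continuous_const.mul hfc) _ _
  · apply Surf.ext
    · exact hq.symm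
    · change c * f t₀ = q.root
      rw [hc, div_mul_cancel₀ _ (hf0 t₀)]
  · intro t; rfl

theorem lift_root (ℓ : Line) (k : ℤ) (t : ℝ) :
    (ℓ.lift k t).root = (ℓ.lift 0 t).root * exp ((Real.pi / 2 * k : ℝ) * I) := by
  rw [Line.lift_apply, Line.lift_apply, pt_root, pt_root]
  rw [mul_assoc (((‖FF (tor (ℓ.path t))‖ ^ ((4 : ℕ) : ℝ)⁻¹ : ℝ) : ℂ)), ← Complex.exp_add]
  congr 2
  push_cast; ring

/-- every point over a line lies on one of its lifts -/
theorem exists_lift_eq (ℓ : Line) (t : ℝ) (q : Surf) (hq : q.base = tor (ℓ.path t)) :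
    ∃ k : ℤ, q = ℓ.lift k t := by
  have h4 : (q.root / (ℓ.lift 0 t).root) ^ 4 = 1 := by
    rw [div_pow, q.root_pow, (ℓ.lift 0 t).root_pow, hq, Line.base_lift,
      div_self (ℓ.ne t)]
  have hr := (ℓ.lift 0 t).root_ne
  have e0 : exp ((Real.pi / 2 * ((0 : ℤ) : ℝ) : ℝ) * I) = 1 := by simp
  have e1 : exp ((Real.pi / 2 * ((1 : ℤ) : ℝ) : ℝ) * I) = I := by
    rw [Int.cast_one, mul_one]; exact exp_I_half
  have e2 : exp ((Real.pi / 2 * ((2 : ℤ) : ℝ) : ℝ) * I) = -1 := by
    have : ((Real.pi / 2 * ((2 : ℤ) : ℝ) : ℝ) : ℂ) * I = Real.pi * I := by push_cast; ring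
    rw [this, exp_pi_mul_I]
  have e3 : exp ((Real.pi / 2 * ((3 : ℤ) : ℝ) : ℝ) * I) = -I := by
    have : ((Real.pi / 2 * ((3 : ℤ) : ℝ) : ℝ) : ℂ) * I
        = Real.pi * I + ((Real.pi / 2 : ℝ) : ℂ) * I := by push_cast; ring
    rw [this, Complex.exp_add, exp_pi_mul_I, exp_I_half]; ring
  rcases pow_four_eq_one h4 with h | h | h | h
  · refine ⟨0, Surf.ext hq ?_⟩
    rw [lift_root, e0]
    field_simp at h
    rw [h, mul_one]
  · refine ⟨2, Surf.ext hq ?_⟩
    rw [lift_root, e2, ← h]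
    field_simp
  · refine ⟨1, Surf.ext hq ?_⟩
    rw [lift_root, e1, ← h]
    field_simp
  · refine ⟨3, Surf.ext hq ?_⟩
    rw [lift_root, e3, ← h]
    field_simp

theorem mem_component_of_path {γ : C(ℝ, Surf)} {s t : ℝ} {x : Surf}
    (h : γ s ∈ connectedComponent x) : γ t ∈ connectedComponent x := by
  have h1 : IsPreconnected (range γ) := isPreconnected_range γ.continuous
  have h2 : range γ ⊆ connectedComponent (γ s) := h1.subset_connectedComponent (mem_range_self s)
  have h3 := connectedComponent_eq h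
  rw [h3]
  exact h2 (mem_range_self t)

theorem H0_mem (k : ℤ) (t : ℝ) : H0.lift k t ∈ connectedComponent (H0.lift 0 0) := by
  have hnat : ∀ (n : ℕ) (t : ℝ), H0.lift (-(n : ℤ)) t ∈ connectedComponent (H0.lift 0 0) := by
    intro n
    induction n with
    | zero =>
      intro t
      rw [show (-((0 : ℕ) : ℤ)) = 0 by simp]
      exact mem_component_of_path (γ := H0.lift 0) (s := 0) mem_connectedComponent
    | succ n ih =>
      intro t
      have h := H0_shift (-(n : ℤ)) t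
      rw [show (-(n : ℤ)) - 1 = -((n + 1 : ℕ) : ℤ) by push_cast; ring] at h
      rw [← h]
      exact ih (t + 1)
  have hmod : H0.lift k t = H0.lift (-(((-k) % 4).toNat : ℤ)) t := by
    have h0 : 0 ≤ (-k) % 4 := Int.emod_nonneg _ (by norm_num)
    rw [Int.toNat_of_nonneg h0]
    refine Line.lift_eq_lift rfl (-((-k) / 4)) ?_
    have := Int.emod_add_mul_ediv (-k) 4
    have h5 : ((k : ℤ) : ℝ) = -(((-k) % 4 : ℤ) : ℝ) + 4 * (-(((-k) / 4 : ℤ) : ℝ)) := by
      have h6 : (((-k) % 4 + 4 * ((-k) / 4) : ℤ) : ℝ) = ((-k : ℤ) : ℝ) := by rw [this]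
      push_cast at h6 ⊢
      linarith
    rw [h5]
    push_cast
    ring
  rw [hmod]
  exact hnat _ t

theorem sn_ne_of (x : ℝ) (h : sn (x : 𝕋) = 0) : sn ((x + 1 / 4 : ℝ) : 𝕋) ≠ 0 := by
  rw [sn_coe] at h ⊢
  rw [sin_add_quarter]
  intro h2
  have := Real.sin_sq_add_cos_sq (2 * Real.pi * x)
  rw [h, h2] at this
  norm_num at this

theorem mem_component_of_sn (q : Surf) (p : ℝ × ℝ) (hq : q.base = tor p)
    (hs : sn (p.1 : 𝕋) ≠ 0) : q ∈ connectedComponent (H0.lift 0 0) := by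
  obtain ⟨γ, h1, h2⟩ := exists_path_lift ⟨fun t => (p.1, t), by fun_prop⟩ (by
    intro t h
    rw [FF_eq_zero_iff] at h
    exact hs h.1) q p.2 hq
  obtain ⟨k, hk⟩ := exists_lift_eq H0 p.1 (γ (1 / 4)) (by rw [h2]; rfl)
  have h3 : γ (1 / 4) ∈ connectedComponent (H0.lift 0 0) := by rw [hk]; exact H0_mem k _
  have h4 := mem_component_of_path (t := p.2) h3
  rwa [h1] at h4

theorem mem_component (q : Surf) : q ∈ connectedComponent (H0.lift 0 0) := by
  obtain ⟨p, hp⟩ := tor_surj q.base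
  by_cases hs : sn (p.1 : 𝕋) = 0
  · have hs2 : sn (p.2 : 𝕋) ≠ 0 := by
      intro h
      apply q.FF_ne
      rw [← hp, FF_eq_zero_iff]
      exact ⟨hs, h⟩
    obtain ⟨γ, h1, h2⟩ := exists_path_lift ⟨fun t => (t, p.2), by fun_prop⟩ (by
      intro t h
      rw [FF_eq_zero_iff] at h
      exact hs2 h.2) q p.1 hp.symm
    have h3 : γ (p.1 + 1 / 4) ∈ connectedComponent (H0.lift 0 0) :=
      mem_component_of_sn _ (p.1 + 1 / 4, p.2) (h2 _) (sn_ne_of _ hs)
    have h4 := mem_component_of_path (t := p.1) h3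
    rwa [h1] at h4
  · exact mem_component_of_sn q p hp.symm hs

theorem connectedSpace_surf : ConnectedSpace Surf := by
  have h : IsPreconnected (Set.univ : Set Surf) := by
    have : (Set.univ : Set Surf) = connectedComponent (H0.lift 0 0) :=
      (Set.eq_univ_of_forall mem_component).symm
    rw [this]
    exact isPreconnected_connectedComponent
  exact { isPreconnected_univ := h, toNonempty := ⟨H0.lift 0 0⟩ }

end Pool.Agent.Hhelper31.Penner
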