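import Pool.Agent.Hhelper31.Penner.Algebra
import Pool.Agent.Hhelper94.PennerAntisymm

/-!
# The homological obstruction to arising from Penner's construction
-/

namespace Pool.Agent.Hhelper31.Penner

open Set Filter Topology Complex

variable {S : Type} [TopologicalSpace S] [T2Space S] {𝒜 : OrientedAtlas S}

/-- a homeomorphism as a continuous map -/
def toC {S : Type} [TopologicalSpace S] (g : S ≃ₜ S) : C(S, S) := ⟨g, g.continuous⟩

theorem push_mul (g h : S ≃ₜ S) (ξ : Fn S) : push (toC (g * h)) ξ = push (toC g) (push (toC h) ξ) :=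
  rfl

theorem push_one (ξ : Fn S) : push (toC (1 : S ≃ₜ S)) ξ = ξ := rfl

theorem push_inv_cancel (g : S ≃ₜ S) (ξ : Fn S) : push (toC g) (push (toC g⁻¹) ξ) = ξ := by
  rw [← push_mul, mul_inv_cancel, push_one]

/-- evaluation of a functional at a function -/
def evalAt (w : C(S, 𝕋)) : Fn S →ₗ[ℂ] ℂ where
  toFun ξ := ξ.1 w
  map_add' _ _ := rfl
  map_smul' _ _ := rfl

theorem push_twist (α : Annulus 𝒜) (T : S ≃ₜ S) (hT : IsDehnTwist α T) (w : C(S, 𝕋))
    (hw : IsDual α w) (ξ : Fn S) : push (toC T) ξ = ξ + evalAt w ξ • degFn α :=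
  picard_lefschetz α T hT w hw ξ

theorem push_twist_inv (α : Annulus 𝒜) (T : S ≃ₜ S) (hT : IsDehnTwist α T⁻¹) (w : C(S, 𝕋))
    (hw : IsDual α w) (ξ : Fn S) : push (toC T) ξ = ξ - evalAt w ξ • degFn α := by
  have h1 : push (toC T⁻¹) (ξ - evalAt w ξ • degFn α) = ξ := by
    rw [push_twist α T⁻¹ hT w hw, map_sub, map_smul]
    have : evalAt w (degFn α) = 0 := degFn_dual_self α w hw
    rw [this, smul_zero, sub_zero, sub_add_cancel]
  calc push (toC T) ξ = push (toC T) (push (toC T⁻¹) (ξ - evalAt w ξ • degFn α)) := by rw [h1]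
    _ = _ := push_inv_cancel T _

/-- A product of positive twists about disjoint curves `a i` and negative twists about disjoint
curves `b j` has no eigenvalue of modulus one other than `1` in its action on
`Hom (H¹(S), ℂ)`. -/
theorem penner_obstruction (g : S ≃ₜ S) (hg : IsPennerProduct 𝒜 g) (ξ : Fn S) (hξ : ξ ≠ 0)
    (ν : ℂ) (hν : ‖ν‖ = 1) (h : push (toC g) ξ = ν • ξ) : ν = 1 := by
  obtain ⟨m, n, a, b, hadis, hbdis, w, hw, rfl⟩ := hg
  choose wa hwa using fun i => exists_dual (a i)
  choose wb hwb using fun j => exists_dual (b j)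
  set eA : Fin m → Fn S := fun i => degFn (a i) with heA
  set eB : Fin n → Fn S := fun j => degFn (b j) with heB
  set lA : Fin m → Fn S →ₗ[ℂ] ℂ := fun i => evalAt (wa i) with hlA
  set lB : Fin n → Fn S →ₗ[ℂ] ℂ := fun j => evalAt (wb j) with hlB
  set X : Fin m → Fin n → ℝ := fun i j => inc ((wa i).comp (b j).loop) 0 1 with hX
  have hletters : ∀ w : List (S ≃ₜ S),
      (∀ T ∈ w, (∃ i, IsDehnTwist (a i) T) ∨ ∃ j, IsDehnTwist (b j) T⁻¹) →
      ∃ l : List (Fin m ⊕ Fin n), ∀ x : Fn S,
        push (toC w.prod) x = (l.map (opL eA eB lA lB)).prod x := by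
    intro w
    induction w with
    | nil => intro _; exact ⟨[], fun x => rfl⟩
    | cons T w ih =>
      intro hw
      obtain ⟨l, hl⟩ := ih fun T' hT' => hw T' (List.mem_cons_of_mem _ hT')
      rcases hw T List.mem_cons_self with ⟨i, hi⟩ | ⟨j, hj⟩
      · refine ⟨Sum.inl i :: l, fun x => ?_⟩
        rw [List.prod_cons, push_mul, hl, List.map_cons, List.prod_cons]
        exact push_twist (a i) T hi (wa i) (hwa i) _
      · refine ⟨Sum.inr j :: l, fun x => ?_⟩
        rw [List.prod_cons, push_mul, hl, List.map_cons, List.prod_cons]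
        exact push_twist_inv (b j) T hj (wb j) (hwb j) _
  obtain ⟨l, hl⟩ := hletters w hw
  refine eigenvalue_eq_one (eA := eA) (eB := eB) (lA := lA) (lB := lB) (X := X) ?_ ?_ ?_ ?_ l ξ hξ
    ν hν (by rw [← hl]; exact h)
  · intro i i'
    by_cases hii : i = i'
    · subst hii; exact degFn_dual_self (a i) (wa i) (hwa i)
    · exact degFn_dual_disjoint (a i') (a i) (wa i) (hwa i) (hadis i' i (Ne.symm hii))
  · intro j j'
    by_cases hjj : j = j'
    · subst hjj; exact degFn_dual_self (b j) (wb j) (hwb j)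
    · exact degFn_dual_disjoint (b j') (b j) (wb j) (hwb j) (hbdis j' j (Ne.symm hjj))
  · intro i j
    rfl
  · intro i j
    change (degFn (a i)).1 (wb j) = _
    rw [degFn_dual_antisymm (a i) (b j) (wa i) (wb j) (hwa i) (hwb j)]
    rfl

/-- products of words are words -/
theorem isPennerProduct_mul_self {g : S ≃ₜ S} (hg : IsPennerProduct 𝒜 g) :
    IsPennerProduct 𝒜 (g * g) := by
  obtain ⟨m, n, a, b, hadis, hbdis, w, hw, rfl⟩ := hg
  refine ⟨m, n, a, b, hadis, hbdis, w ++ w, ?_, by rw [List.prod_append]⟩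
  intro T hT
  rcases List.mem_append.1 hT with h | h <;> exact hw T h

/-- The obstruction for powers: if `f²` has an eigenvalue `ν` of modulus one, not a root of
unity, on functionals, then no positive power of `f` is homotopic to a Penner product. -/
theorem no_power (f : S ≃ₜ S) (ξ : Fn S) (hξ : ξ ≠ 0) (ν : ℂ) (hν : ‖ν‖ = 1)
    (hroot : ∀ k : ℕ, 1 ≤ k → ν ^ k ≠ 1) (h : push (toC f) (push (toC f) ξ) = ν • ξ) (k : ℕ)
    (hk : 1 ≤ k) (g : S ≃ₜ S) (hg : IsPennerProduct 𝒜 g) :
    ¬ (toC (f ^ k)).Homotopic (toC g) := by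
  intro hhom
  have h1 : ∀ x : Fn S, push (toC (f ^ k)) x = push (toC g) x := push_homotopic _ _ hhom
  have h2 : ∀ j : ℕ, push (toC (f ^ (2 * j))) ξ = ν ^ j • ξ := by
    intro j
    induction j with
    | zero => rw [mul_zero, pow_zero, pow_zero, one_smul, push_one]
    | succ j ih =>
      have : f ^ (2 * (j + 1)) = f ^ (2 * j) * (f * f) := by
        rw [mul_add, mul_one, pow_add, pow_two]
      rw [this, push_mul, push_mul, h, map_smul, ih, smul_smul, pow_succ, mul_comm]
  have h3 : push (toC (g * g)) ξ = ν ^ k • ξ := by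
    rw [push_mul, ← h1, ← h1, ← push_mul, ← pow_add, ← two_mul, h2]
  exact hroot k hk (penner_obstruction (g * g) (isPennerProduct_mul_self hg) ξ hξ (ν ^ k)
    (by rw [norm_pow, hν, one_pow]) h3)

end Pool.Agent.Hhelper31.Penner
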