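import Pool.Agent.Hhelper94.PennerEdges
import Pool.Agent.Hhelper31.Penner.Obstruction

/-!
# Cycles in the graph of centres, and the action of `f` on them
-/

namespace Pool.Agent.Hhelper31.Penner

open Set Filter Topology Complex

/-! ### abstract chains -/

/-- coboundary of a function on the vertices -/
def dd (g : Fin 4 → ZMod 4 → ℝ) : Fin 8 → ZMod 4 → ℝ := ![
  fun k => g 1 k - g 0 k,
  fun k => g 0 (k - 1) - g 1 k,
  fun k => g 3 k - g 2 k,
  fun k => g 2 (k + 1) - g 3 k,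
  fun k => g 2 k - g 0 (k + 1),
  fun k => g 0 (k + 2) - g 2 k,
  fun k => g 3 (k - 2) - g 1 k,
  fun k => g 1 (k - 1) - g 3 (k - 2)]

/-- action of `f` on cochains, up to coboundaries -/
def st (e : Fin 8 → ZMod 4 → ℝ) : Fin 8 → ZMod 4 → ℝ := ![
  fun k => e 0 (1 - k) + e 6 (1 - k),
  fun k => e 3 (-1 - k) + e 5 (0 - k),
  fun k => e 1 (0 - k) + e 4 (-2 - k),
  fun k => e 2 (-2 - k) + e 7 (0 - k),
  fun k => e 0 (0 - k),
  fun k => e 1 (0 - k),
  fun k => e 3 (-1 - k),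
  fun k => e 2 (0 - k)]

/-- pairing of integral chains with cochains -/
def pair (c : Fin 8 → ZMod 4 → ℤ) (e : Fin 8 → ZMod 4 → ℝ) : ℝ :=
  ∑ t, ∑ k, (c t k : ℝ) * e t k

/-- action of `f` on chains -/
def Fc (c : Fin 8 → ZMod 4 → ℤ) : Fin 8 → ZMod 4 → ℤ := ![
  fun k => c 4 (0 - k) + c 0 (1 - k),
  fun k => c 5 (0 - k) + c 2 (0 - k),
  fun k => c 7 (0 - k) + c 3 (-2 - k),
  fun k => c 6 (-1 - k) + c 1 (-1 - k),
  fun k => c 2 (-2 - k),
  fun k => c 1 (0 - k),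
  fun k => c 0 (1 - k),
  fun k => c 3 (0 - k)]

/-- boundary of chains -/
def bd (c : Fin 8 → ZMod 4 → ℤ) : Fin 4 → ZMod 4 → ℤ := ![
  fun k => -c 0 k + c 1 (k + 1) - c 4 (k - 1) + c 5 (k - 2),
  fun k => c 0 k - c 1 k - c 6 k + c 7 (k + 1),
  fun k => -c 2 k + c 3 (k - 1) + c 4 k - c 5 k,
  fun k => c 2 k - c 3 k + c 6 (k + 2) - c 7 (k + 2)]

theorem reidx_sub (m : ZMod 4) (a b : ZMod 4 → ℝ) :
    ∑ k, a k * b (m - k) = ∑ k, a (m - k) * b k := by
  rw [← Equiv.sum_comp (Equiv.subLeft m)]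
  simp

theorem reidx_add (m : ZMod 4) (a b : ZMod 4 → ℝ) :
    ∑ k, a k * b (k + m) = ∑ k, a (k - m) * b k := by
  rw [← Equiv.sum_comp (Equiv.subRight m)]
  simp

theorem reidx_sub' (m : ZMod 4) (a b : ZMod 4 → ℝ) :
    ∑ k, a k * b (k - m) = ∑ k, a (k + m) * b k := by
  rw [← Equiv.sum_comp (Equiv.addRight m)]
  simp

theorem pair_st (c : Fin 8 → ZMod 4 → ℤ) (e : Fin 8 → ZMod 4 → ℝ) :
    pair c (st e) = pair (Fc c) e := by
  unfold pair
  rw [Fin.sum_univ_eight, Fin.sum_univ_eight]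
  simp only [st, Fc, Matrix.cons_val]
  push_cast
  simp only [mul_add, add_mul, Finset.sum_add_distrib]
  rw [reidx_sub 1 (fun k => (c 0 k : ℝ)) (e 0), reidx_sub 1 (fun k => (c 0 k : ℝ)) (e 6),
    reidx_sub (-1) (fun k => (c 1 k : ℝ)) (e 3), reidx_sub 0 (fun k => (c 1 k : ℝ)) (e 5),
    reidx_sub 0 (fun k => (c 2 k : ℝ)) (e 1), reidx_sub (-2) (fun k => (c 2 k : ℝ)) (e 4),
    reidx_sub (-2) (fun k => (c 3 k : ℝ)) (e 2), reidx_sub 0 (fun k => (c 3 k : ℝ)) (e 7),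
    reidx_sub 0 (fun k => (c 4 k : ℝ)) (e 0), reidx_sub 0 (fun k => (c 5 k : ℝ)) (e 1),
    reidx_sub (-1) (fun k => (c 6 k : ℝ)) (e 3), reidx_sub 0 (fun k => (c 7 k : ℝ)) (e 2)]
  ring

theorem pair_dd (c : Fin 8 → ZMod 4 → ℤ) (hc : ∀ v k, bd c v k = 0) (g : Fin 4 → ZMod 4 → ℝ) :
    pair c (dd g) = 0 := by
  have h : pair c (dd g) = ∑ v, ∑ k, (bd c v k : ℝ) * g v k := by
    unfold pair
    rw [Fin.sum_univ_eight, Fin.sum_univ_four]
    simp only [dd, bd, Matrix.cons_val]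
    push_cast
    simp only [mul_add, mul_sub, add_mul, sub_mul, neg_mul, Finset.sum_add_distrib,
      Finset.sum_sub_distrib, Finset.sum_neg_distrib]
    rw [reidx_sub' 1 (fun k => (c 1 k : ℝ)) (g 0), reidx_add 1 (fun k => (c 3 k : ℝ)) (g 2),
      reidx_add 1 (fun k => (c 4 k : ℝ)) (g 0), reidx_add 2 (fun k => (c 5 k : ℝ)) (g 0),
      reidx_sub' 2 (fun k => (c 6 k : ℝ)) (g 3), reidx_sub' 1 (fun k => (c 7 k : ℝ)) (g 1),
      reidx_sub' 2 (fun k => (c 7 k : ℝ)) (g 3)]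
    ring
  rw [h]
  simp [hc]

theorem pair_add (c : Fin 8 → ZMod 4 → ℤ) (e e' : Fin 8 → ZMod 4 → ℝ) :
    pair c (e + e') = pair c e + pair c e' := by
  unfold pair
  simp only [Pi.add_apply, mul_add, Finset.sum_add_distrib]

/-! ### periodic families -/

/-- a 4-periodic function as a function on `ZMod 4` -/
def lft (F : ℤ → ℝ) : ZMod 4 → ℝ := fun k => F k.val

theorem lft_coe (F : ℤ → ℝ) (hF : ∀ k, F (k + 4) = F k) (n : ℤ) : lft F (n : ZMod 4) = F n := by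
  unfold lft
  rw [show (((n : ZMod 4).val : ℕ) : ℤ) = n % 4 from ZMod.val_intCast n]
  have hper : Function.Periodic F 4 := hF
  have := hper.int_mul (n / 4) (n % 4)
  rw [← this]
  congr 1
  have := Int.emod_add_mul_ediv n 4
  rw [mul_comm] at this
  simpa using this

theorem edge_add_four (ℓ : Line) (a b : ℝ) (u : C(Surf, 𝕋)) (k : ℤ) :
    edge ℓ (k + 4) a b u = edge ℓ k a b u := by
  unfold edge
  rw [Line.lift_add_four]

theorem edge_trans (ℓ : Line) (k : ℤ) (x y z : ℝ) (u : C(Surf, 𝕋)) :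
    edge ℓ k x y u + edge ℓ k y z u = edge ℓ k x z u :=
  inc_trans _ _ _ _

theorem edge_add_fun (ℓ : Line) (k : ℤ) (x y : ℝ) (u v : C(Surf, 𝕋)) :
    edge ℓ k x y (u + v) = edge ℓ k x y u + edge ℓ k x y v := by
  unfold edge
  have : (u + v).comp (ℓ.lift k) = u.comp (ℓ.lift k) + v.comp (ℓ.lift k) := rfl
  rw [this, inc_add_fun]

theorem edge_expo (ℓ : Line) (k : ℤ) (x y : ℝ) (h : C(Surf, ℝ)) :
    edge ℓ k x y (expo h) = h (ℓ.lift k y) - h (ℓ.lift k x) := by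
  unfold edge
  have : (expo h).comp (ℓ.lift k) = expo (h.comp (ℓ.lift k)) := rfl
  rw [this, inc_expo]
  rfl

theorem edge_shift {ℓ : Line} {k k' : ℤ} (h : ∀ t, ℓ.lift k (t + 1) = ℓ.lift k' t) (a b : ℝ)
    (u : C(Surf, 𝕋)) : edge ℓ k (a + 1) (b + 1) u = edge ℓ k' a b u := by
  unfold edge
  have h1 : u.comp (ℓ.lift k') = (u.comp (ℓ.lift k)).comp ⟨fun t => t + 1, by fun_prop⟩ := by
    ext1 t
    simp only [ContinuousMap.comp_apply, ContinuousMap.coe_mk]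
    rw [h]
  rw [h1, inc_comp]
  rfl

/-- the edge values of a circle-valued function -/
noncomputable def EE (u : C(Surf, 𝕋)) : Fin 8 → ZMod 4 → ℝ := ![
  lft fun k => edge H0 k (1 / 4) (3 / 4) u,
  lft fun k => edge H0 k (3 / 4) (5 / 4) u,
  lft fun k => edge H1 k (1 / 4) (3 / 4) u,
  lft fun k => edge H1 k (3 / 4) (5 / 4) u,
  lft fun k => edge V0 k (1 / 4) (3 / 4) u,
  lft fun k => edge V0 k (3 / 4) (5 / 4) u,
  lft fun k => edge V1 k (1 / 4) (3 / 4) u,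
  lft fun k => edge V1 k (3 / 4) (5 / 4) u]

/-- the correction terms at the vertices -/
noncomputable def conn (u : C(Surf, 𝕋)) : Fin 4 → ZMod 4 → ℝ := ![
  lft fun k => edge H0 (1 - k) (1 / 4) (1 / 2) u,
  lft fun k => edge H1 (-1 - k) (3 / 4) 1 u,
  lft fun k => edge H0 (-k) (3 / 4) 1 u,
  lft fun k => edge H1 (-k - 2) (1 / 4) (1 / 2) u]

theorem per_sub (ℓ : Line) (a b : ℝ) (u : C(Surf, 𝕋)) (m : ℤ) (k : ℤ) :
    edge ℓ (m - (k + 4)) a b u = edge ℓ (m - k) a b u := by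
  rw [← edge_add_four ℓ a b u (m - (k + 4))]
  congr 1; ring

theorem per_sub' (ℓ : Line) (a b : ℝ) (u : C(Surf, 𝕋)) (m : ℤ) (k : ℤ) :
    edge ℓ (-(k + 4) - m) a b u = edge ℓ (-k - m) a b u := by
  rw [← edge_add_four ℓ a b u (-(k + 4) - m)]
  congr 1; ring

theorem per_neg (ℓ : Line) (a b : ℝ) (u : C(Surf, 𝕋)) (k : ℤ) :
    edge ℓ (-(k + 4)) a b u = edge ℓ (-k) a b u := by
  rw [← edge_add_four ℓ a b u (-(k + 4))]
  congr 1; ring

theorem EE_f (u : C(Surf, 𝕋)) : EE (u.comp ffc) = st (EE u) + dd (conn u) := by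
  have hH0 : ∀ (k : ℤ) (a b : ℝ), edge H0 k (a + 1) (b + 1) u = edge H0 (k - 1) a b u :=
    fun k a b => edge_shift (fun t => H0_shift k t) a b u
  have hH1 : ∀ (k : ℤ) (a b : ℝ), edge H1 k (a + 1) (b + 1) u = edge H1 (k + 1) a b u :=
    fun k a b => edge_shift (fun t => H1_shift k t) a b u
  funext t k
  obtain ⟨n, rfl⟩ : ∃ n : ℤ, ((n : ℤ) : ZMod 4) = k := ZMod.intCast_surjective k
  rw [Pi.add_apply, Pi.add_apply]
  fin_cases t
  · -- h0
    simp only [EE, st, dd, conn, Fin.zero_eta, Fin.isValue, Matrix.cons_val]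
    rw [show (1 : ZMod 4) - (n : ZMod 4) = ((1 - n : ℤ) : ZMod 4) by push_cast; ring]
    rw [lft_coe _ (fun k => edge_add_four _ _ _ _ k), lft_coe _ (fun k => edge_add_four _ _ _ _ k),
      lft_coe _ (fun k => edge_add_four _ _ _ _ k), lft_coe _ (fun k => per_sub _ _ _ _ _ k),
      lft_coe _ (fun k => per_sub _ _ _ _ _ k), edge_H0_f]
    linarith [edge_trans H0 (1 - n) (1 / 4) (1 / 2) (3 / 4) u]
  · -- h0'
    simp only [EE, st, dd, conn, Fin.mk_one, Fin.isValue, Matrix.cons_val]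
    rw [show (-1 : ZMod 4) - (n : ZMod 4) = ((-1 - n : ℤ) : ZMod 4) by push_cast; ring,
      show (0 : ZMod 4) - (n : ZMod 4) = ((-n : ℤ) : ZMod 4) by push_cast; ring,
      show (n : ZMod 4) - 1 = ((n - 1 : ℤ) : ZMod 4) by push_cast; ring]
    rw [lft_coe _ (fun k => edge_add_four _ _ _ _ k), lft_coe _ (fun k => edge_add_four _ _ _ _ k),
      lft_coe _ (fun k => edge_add_four _ _ _ _ k), lft_coe _ (fun k => per_sub _ _ _ _ _ k),
      lft_coe _ (fun k => per_sub _ _ _ _ _ k), edge_H0_f']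
    rw [show (1 : ℤ) - (n - 1) = 2 - n by ring]
    linarith [edge_trans H1 (-1 - n) (3 / 4) 1 (5 / 4) u]
  · -- h1
    simp only [EE, st, dd, conn, Fin.reduceFinMk, Fin.isValue, Matrix.cons_val]
    rw [show (-2 : ZMod 4) - (n : ZMod 4) = ((-n - 2 : ℤ) : ZMod 4) by push_cast; ring,
      show (0 : ZMod 4) - (n : ZMod 4) = ((-n : ℤ) : ZMod 4) by push_cast; ring]
    rw [lft_coe _ (fun k => edge_add_four _ _ _ _ k), lft_coe _ (fun k => edge_add_four _ _ _ _ k),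
      lft_coe _ (fun k => edge_add_four _ _ _ _ k), lft_coe _ (fun k => per_sub' _ _ _ _ _ k),
      lft_coe _ (fun k => per_neg _ _ _ _ k), edge_H1_f]
    linarith [edge_trans H0 (-n) (3 / 4) 1 (5 / 4) u]
  · -- h1'
    simp only [EE, st, dd, conn, Fin.reduceFinMk, Fin.isValue, Matrix.cons_val]
    rw [show (-2 : ZMod 4) - (n : ZMod 4) = ((-n - 2 : ℤ) : ZMod 4) by push_cast; ring,
      show (0 : ZMod 4) - (n : ZMod 4) = ((-n : ℤ) : ZMod 4) by push_cast; ring,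
      show (n : ZMod 4) + 1 = ((n + 1 : ℤ) : ZMod 4) by push_cast; ring]
    rw [lft_coe _ (fun k => edge_add_four _ _ _ _ k), lft_coe _ (fun k => edge_add_four _ _ _ _ k),
      lft_coe _ (fun k => edge_add_four _ _ _ _ k), lft_coe _ (fun k => per_neg _ _ _ _ k),
      lft_coe _ (fun k => per_sub' _ _ _ _ _ k), edge_H1_f']
    rw [show -(n + 1) = -n - 1 by ring]
    linarith [edge_trans H1 (-n - 2) (1 / 4) (1 / 2) (3 / 4) u]
  · -- v0
    simp only [EE, st, dd, conn, Fin.reduceFinMk, Fin.isValue, Matrix.cons_val]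
    rw [show (0 : ZMod 4) - (n : ZMod 4) = ((-n : ℤ) : ZMod 4) by push_cast; ring,
      show (n : ZMod 4) + 1 = ((n + 1 : ℤ) : ZMod 4) by push_cast; ring]
    rw [lft_coe _ (fun k => edge_add_four _ _ _ _ k), lft_coe _ (fun k => edge_add_four _ _ _ _ k),
      lft_coe _ (fun k => per_neg _ _ _ _ k), lft_coe _ (fun k => per_sub _ _ _ _ _ k), edge_V0_f]
    rw [show (1 : ℤ) - (n + 1) = -n by ring, show (1 / 4 : ℝ) + 1 / 4 = 1 / 2 by norm_num,
      show (3 / 4 : ℝ) + 1 / 4 = 1 by norm_num]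
    linarith [edge_trans H0 (-n) (1 / 4) (1 / 2) (3 / 4) u, edge_trans H0 (-n) (1 / 2) (3 / 4) 1 u]
  · -- v0'
    simp only [EE, st, dd, conn, Fin.reduceFinMk, Fin.isValue, Matrix.cons_val]
    rw [show (0 : ZMod 4) - (n : ZMod 4) = ((-n : ℤ) : ZMod 4) by push_cast; ring,
      show (n : ZMod 4) + 2 = ((n + 2 : ℤ) : ZMod 4) by push_cast; ring]
    rw [lft_coe _ (fun k => edge_add_four _ _ _ _ k), lft_coe _ (fun k => edge_add_four _ _ _ _ k),
      lft_coe _ (fun k => per_sub _ _ _ _ _ k), lft_coe _ (fun k => per_neg _ _ _ _ k), edge_V0_f]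
    rw [show (1 : ℤ) - (n + 2) = -n - 1 by ring, show (3 / 4 : ℝ) + 1 / 4 = 1 by norm_num,
      show (5 / 4 : ℝ) + 1 / 4 = 1 / 2 + 1 by norm_num]
    have h1 := hH0 (-n) (1 / 4) (1 / 2)
    rw [show (1 / 4 : ℝ) + 1 = 5 / 4 by norm_num] at h1
    linarith [edge_trans H0 (-n) (3 / 4) 1 (5 / 4) u, edge_trans H0 (-n) 1 (5 / 4) (1 / 2 + 1) u]
  · -- v1
    simp only [EE, st, dd, conn, Fin.reduceFinMk, Fin.isValue, Matrix.cons_val]
    rw [show (-1 : ZMod 4) - (n : ZMod 4) = ((-1 - n : ℤ) : ZMod 4) by push_cast; ring,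
      show (n : ZMod 4) - 2 = ((n - 2 : ℤ) : ZMod 4) by push_cast; ring]
    rw [lft_coe _ (fun k => edge_add_four _ _ _ _ k), lft_coe _ (fun k => edge_add_four _ _ _ _ k),
      lft_coe _ (fun k => per_sub' _ _ _ _ _ k), lft_coe _ (fun k => per_sub _ _ _ _ _ k), edge_V1_f]
    rw [show -(n - 2) - 2 = -n by ring, show (1 / 4 : ℝ) + 3 / 4 = 1 by norm_num,
      show (3 / 4 : ℝ) + 3 / 4 = 1 / 2 + 1 by norm_num]
    have h1 := hH1 (-1 - n) (1 / 4) (1 / 2)
    rw [show (1 / 4 : ℝ) + 1 = 5 / 4 by norm_num, show (-1 - n + 1 : ℤ) = -n by ring] at h1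
    linarith [edge_trans H1 (-1 - n) (3 / 4) 1 (5 / 4) u,
      edge_trans H1 (-1 - n) 1 (5 / 4) (1 / 2 + 1) u]
  · -- v1'
    simp only [EE, st, dd, conn, Fin.reduceFinMk, Fin.isValue, Matrix.cons_val]
    rw [show (0 : ZMod 4) - (n : ZMod 4) = ((-n : ℤ) : ZMod 4) by push_cast; ring,
      show (n : ZMod 4) - 2 = ((n - 2 : ℤ) : ZMod 4) by push_cast; ring,
      show (n : ZMod 4) - 1 = ((n - 1 : ℤ) : ZMod 4) by push_cast; ring]
    rw [lft_coe _ (fun k => edge_add_four _ _ _ _ k), lft_coe _ (fun k => edge_add_four _ _ _ _ k),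
      lft_coe _ (fun k => per_sub _ _ _ _ _ k), lft_coe _ (fun k => per_sub' _ _ _ _ _ k), edge_V1_f]
    rw [show -(n - 2) - 2 = -n by ring, show (-1 : ℤ) - (n - 1) = -n by ring,
      show (3 / 4 : ℝ) + 3 / 4 = 1 / 2 + 1 by norm_num, show (5 / 4 : ℝ) + 3 / 4 = 1 + 1 by norm_num,
      hH1, show (-1 - n + 1 : ℤ) = -n by ring]
    linarith [edge_trans H1 (-n) (1 / 4) (1 / 2) (3 / 4) u, edge_trans H1 (-n) (1 / 2) (3 / 4) 1 u]

/-- the values of a real function at the vertices -/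
noncomputable def vert (h : C(Surf, ℝ)) : Fin 4 → ZMod 4 → ℝ := ![
  lft fun k => h (H0.lift k (1 / 4)),
  lft fun k => h (H0.lift k (3 / 4)),
  lft fun k => h (H1.lift k (1 / 4)),
  lft fun k => h (H1.lift k (3 / 4))]

theorem EE_expo (h : C(Surf, ℝ)) : EE (expo h) = dd (vert h) := by
  have hp : ∀ (ℓ : Line) (x : ℝ) (k : ℤ), h (ℓ.lift (k + 4) x) = h (ℓ.lift k x) := by
    intro ℓ x k; rw [Line.lift_add_four]
  have hH0 : ∀ k : ℤ, H0.lift k (5 / 4) = H0.lift (k - 1) (1 / 4) := fun k => by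
    rw [← H0_shift]; congr 1; norm_num
  have hH1 : ∀ k : ℤ, H1.lift k (5 / 4) = H1.lift (k + 1) (1 / 4) := fun k => by
    rw [← H1_shift]; congr 1; norm_num
  have hV0 : ∀ k : ℤ, V0.lift k (5 / 4) = V0.lift (k + 1) (1 / 4) := fun k => by
    rw [← V0_shift]; congr 1; norm_num
  have hV1 : ∀ k : ℤ, V1.lift k (5 / 4) = V1.lift (k - 1) (1 / 4) := fun k => by
    rw [← V1_shift]; congr 1; norm_num
  funext t k
  obtain ⟨n, rfl⟩ : ∃ n : ℤ, ((n : ℤ) : ZMod 4) = k := ZMod.intCast_surjective k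
  fin_cases t
  · simp only [EE, dd, vert, Fin.zero_eta, Fin.isValue, Matrix.cons_val]
    rw [lft_coe _ (fun k => edge_add_four _ _ _ _ k), lft_coe _ (fun k => hp _ _ k),
      lft_coe _ (fun k => hp _ _ k), edge_expo]
  · simp only [EE, dd, vert, Fin.mk_one, Fin.isValue, Matrix.cons_val]
    rw [show (n : ZMod 4) - 1 = ((n - 1 : ℤ) : ZMod 4) by push_cast; ring,
      lft_coe _ (fun k => edge_add_four _ _ _ _ k), lft_coe _ (fun k => hp _ _ k),
      lft_coe _ (fun k => hp _ _ k), edge_expo, hH0]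
  · simp only [EE, dd, vert, Fin.reduceFinMk, Fin.isValue, Matrix.cons_val]
    rw [lft_coe _ (fun k => edge_add_four _ _ _ _ k), lft_coe _ (fun k => hp _ _ k),
      lft_coe _ (fun k => hp _ _ k), edge_expo]
  · simp only [EE, dd, vert, Fin.reduceFinMk, Fin.isValue, Matrix.cons_val]
    rw [show (n : ZMod 4) + 1 = ((n + 1 : ℤ) : ZMod 4) by push_cast; ring,
      lft_coe _ (fun k => edge_add_four _ _ _ _ k), lft_coe _ (fun k => hp _ _ k),
      lft_coe _ (fun k => hp _ _ k), edge_expo, hH1]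
  · simp only [EE, dd, vert, Fin.reduceFinMk, Fin.isValue, Matrix.cons_val]
    rw [show (n : ZMod 4) + 1 = ((n + 1 : ℤ) : ZMod 4) by push_cast; ring,
      lft_coe _ (fun k => edge_add_four _ _ _ _ k), lft_coe _ (fun k => hp _ _ k),
      lft_coe _ (fun k => hp _ _ k), edge_expo, inc_V0_H1, inc_V0_H0]
  · simp only [EE, dd, vert, Fin.reduceFinMk, Fin.isValue, Matrix.cons_val]
    rw [show (n : ZMod 4) + 2 = ((n + 2 : ℤ) : ZMod 4) by push_cast; ring,
      lft_coe _ (fun k => edge_add_four _ _ _ _ k), lft_coe _ (fun k => hp _ _ k),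
      lft_coe _ (fun k => hp _ _ k), edge_expo, hV0, inc_V0_H1, inc_V0_H0,
      show n + 1 + 1 = n + 2 by ring]
  · simp only [EE, dd, vert, Fin.reduceFinMk, Fin.isValue, Matrix.cons_val]
    rw [show (n : ZMod 4) - 2 = ((n - 2 : ℤ) : ZMod 4) by push_cast; ring,
      lft_coe _ (fun k => edge_add_four _ _ _ _ k), lft_coe _ (fun k => hp _ _ k),
      lft_coe _ (fun k => hp _ _ k), edge_expo, inc_V1_H1, inc_V1_H0]
  · simp only [EE, dd, vert, Fin.reduceFinMk, Fin.isValue, Matrix.cons_val]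
    rw [show (n : ZMod 4) - 2 = ((n - 2 : ℤ) : ZMod 4) by push_cast; ring,
      show (n : ZMod 4) - 1 = ((n - 1 : ℤ) : ZMod 4) by push_cast; ring,
      lft_coe _ (fun k => edge_add_four _ _ _ _ k), lft_coe _ (fun k => hp _ _ k),
      lft_coe _ (fun k => hp _ _ k), edge_expo, hV1, inc_V1_H0, inc_V1_H1]

theorem EE_add (u v : C(Surf, 𝕋)) : EE (u + v) = EE u + EE v := by
  funext t k
  rw [Pi.add_apply, Pi.add_apply]
  fin_cases t <;>
  · simp only [EE, Fin.zero_eta, Fin.mk_one, Fin.reduceFinMk, Fin.isValue, Matrix.cons_val, lft]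
    rw [edge_add_fun]

/-- the functional defined by a cycle -/
noncomputable def cyc (c : Fin 8 → ZMod 4 → ℤ) (hc : ∀ v k, bd c v k = 0) : Fn Surf :=
  ⟨{ toFun := fun u => (pair c (EE u) : ℂ)
     map_zero' := by
       have h : EE (0 : C(Surf, 𝕋)) + EE 0 = EE 0 := by rw [← EE_add, add_zero]
       have h0 : EE (0 : C(Surf, 𝕋)) = 0 := by simpa using h
       rw [h0]
       simp [pair]
     map_add' := fun u v => by rw [EE_add, pair_add]; push_cast; rfl },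
   fun h => by
     change ((pair c (EE (expo h)) : ℝ) : ℂ) = 0
     rw [EE_expo, pair_dd c hc]; simp⟩

theorem cyc_apply (c hc) (u : C(Surf, 𝕋)) : (cyc c hc).1 u = (pair c (EE u) : ℂ) := rfl

theorem push_cyc (c hc) (hc' : ∀ v k, bd (Fc c) v k = 0) :
    push ffc (cyc c hc) = cyc (Fc c) hc' := by
  apply Subtype.ext
  ext u
  rw [push_apply, cyc_apply, cyc_apply, EE_f, pair_add, pair_st, pair_dd c hc, add_zero]

/-- the starting cycle -/
def c₀ : Fin 8 → ZMod 4 → ℤ := ![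
  ![0, 1, 0, -1],
  ![0, 0, 0, 0],
  ![0, 0, 0, 0],
  ![1, 0, -1, 0],
  ![-1, -1, 1, 1],
  ![-1, 0, 1, 0],
  ![0, 0, 0, 0],
  ![1, 0, -1, 0]]

theorem c₀_closed : ∀ v k, bd c₀ v k = 0 := by decide +kernel

end Pool.Agent.Hhelper31.Penner
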