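import Mathlib

/-!
# Surfaces, pseudo-Anosov maps, Dehn twists and products as in Penner's construction

Definitions for the disproof of the question whether every orientation-reversing
pseudo-Anosov map has a power arising from Penner's construction.
-/

namespace Pool.Agent.Hhelper31.Penner

open Set Filter Topology

/-- An oriented smooth surface structure on `S`: a family of charts with values in the plane
`ℝ × ℝ` which cover `S`, and whose transition maps are `C^∞` with positive Jacobian
determinant. -/
structure OrientedAtlas (S : Type) [TopologicalSpace S] where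
  /-- the charts -/
  charts : Set (OpenPartialHomeomorph S (ℝ × ℝ))
  covers : ∀ x : S, ∃ e ∈ charts, x ∈ e.source
  smooth : ∀ e ∈ charts, ∀ e' ∈ charts, ∀ z ∈ (e.symm.trans e').source,
    ContDiffAt ℝ (⊤ : ℕ∞) (e.symm.trans e') z
  oriented : ∀ e ∈ charts, ∀ e' ∈ charts, ∀ z ∈ (e.symm.trans e').source,
    0 < (fderiv ℝ (e.symm.trans e') z).det

/-- Puncture charts, exhibiting `S` as a closed surface minus `n` points: pairwise disjoint open
subsets of `S`, each homeomorphic to the punctured open unit disc of `ℂ`, such that what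
remains of `S` after removing, for a fixed `r ∈ (0,1)`, the points of these sets
with coordinate of modulus `< r` is compact. -/
structure PunctureCharts (S : Type) [TopologicalSpace S] where
  /-- the number of punctures -/
  n : ℕ
  /-- the chart at the `j`-th puncture; the puncture itself corresponds to `0 ∈ ℂ` -/
  chart : Fin n → OpenPartialHomeomorph S ℂ
  target_eq : ∀ j, (chart j).target = {z : ℂ | z ≠ 0 ∧ ‖z‖ < 1}
  disjoint : ∀ i j, i ≠ j → Disjoint (chart i).source (chart j).source
  compact : ∀ r : ℝ, 0 < r → r < 1 →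
    IsCompact {x : S | ∀ j, x ∈ (chart j).source → r ≤ ‖chart j x‖}

/-- The local model of a `k`-pronged singularity. Here `charts` is a family of plane charts
`(X, Y)` and `φ` a complex coordinate centred at the singularity or puncture. Near the point `y`
some chart of the family satisfies `(X + iY - c)^2 = A φ^k` with constants `c ∈ ℂ`, `A > 0`:
the foliations `|dX|`, `|dY|` are, up to scaling, the vertical and horizontal foliations of the
quadratic differential `φ^(k-2) dφ^2`, which has a `k`-pronged singularity at `0`. -/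
def ProngAt {S : Type} [TopologicalSpace S] (charts : Set (OpenPartialHomeomorph S (ℝ × ℝ)))
    (k : ℕ) (φ : S → ℂ) (y : S) : Prop :=
  ∃ e ∈ charts, y ∈ e.source ∧ ∃ (c : ℂ) (A : ℝ), 0 < A ∧
    ∀ᶠ z in 𝓝 y, (((e z).1 : ℂ) + (e z).2 * Complex.I - c) ^ 2 = A * φ z ^ k

/-- A pair of transverse singular measured foliations on the surface of finite type `S`.
Away from a finite set of interior singularities they are given by charts `(X, Y)` to the plane
with transition maps of the form `(X, Y) ↦ (± X + c, ± Y + d)`: the leaves of the two foliations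
are locally given by `X = const` and `Y = const`, and the transverse measures are `|dX|` and `|dY|`.
Interior singularities are `k`-pronged with `k ≥ 3`, and at each puncture the foliations have
a `k`-pronged singularity with `k ≥ 1`. -/
structure TransverseFoliations (S : Type) [TopologicalSpace S] where
  /-- the punctures -/
  punctures : PunctureCharts S
  /-- the interior singularities -/
  sing : Set S
  sing_finite : sing.Finite
  /-- the foliation charts -/
  charts : Set (OpenPartialHomeomorph S (ℝ × ℝ))
  avoid : ∀ e ∈ charts, Disjoint e.source sing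
  covers : ∀ x : S, x ∉ sing → ∃ e ∈ charts, x ∈ e.source
  compat : ∀ e ∈ charts, ∀ e' ∈ charts, ∀ x ∈ e.source ∩ e'.source,
    ∃ ε δ c d : ℝ, ε ^ 2 = 1 ∧ δ ^ 2 = 1 ∧
      ∀ᶠ y in 𝓝 x, e' y = (ε * (e y).1 + c, δ * (e y).2 + d)
  interior_prong : ∀ x ∈ sing, ∃ k : ℕ, 3 ≤ k ∧ ∃ φ : OpenPartialHomeomorph S ℂ,
    x ∈ φ.source ∧ φ x = 0 ∧ ∀ y ∈ φ.source, y ≠ x → ProngAt charts k φ y
  puncture_prong : ∀ j, ∃ k : ℕ, 1 ≤ k ∧
    ∀ y ∈ (punctures.chart j).source, ProngAt charts k (punctures.chart j) y

/-- The homeomorphism `f` of `S` is pseudo-Anosov with respect to the pair of transverse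
measured foliations `F`, with stretch factor `l > 1`: it preserves the two foliations (and their
singularities) and multiplies their transverse measures by `l` and `l⁻¹`. -/
def IsPseudoAnosovWith {S : Type} [TopologicalSpace S] (F : TransverseFoliations S) (l : ℝ)
    (f : S ≃ₜ S) : Prop :=
  1 < l ∧ f '' F.sing = F.sing ∧
    ∀ e ∈ F.charts, ∀ e' ∈ F.charts, ∀ x ∈ e.source, f x ∈ e'.source →
      ∃ ε δ c d : ℝ, ε ^ 2 = 1 ∧ δ ^ 2 = 1 ∧
        ∀ᶠ y in 𝓝 x, e' (f y) = (ε * (l * (e y).1) + c, δ * (l⁻¹ * (e y).2) + d)

/-- `f` is pseudo-Anosov. -/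
def IsPseudoAnosov {S : Type} [TopologicalSpace S] (f : S ≃ₜ S) : Prop :=
  ∃ (F : TransverseFoliations S) (l : ℝ), IsPseudoAnosovWith F l f

/-- `f` is a diffeomorphism of the oriented surface which reverses the orientation: in the charts
of the oriented atlas it is `C^∞` with negative Jacobian determinant. -/
def OrientationReversing {S : Type} [TopologicalSpace S] (𝒜 : OrientedAtlas S) (f : S ≃ₜ S) :
    Prop :=
  ∀ e ∈ 𝒜.charts, ∀ e' ∈ 𝒜.charts, ∀ z ∈ e.target, f (e.symm z) ∈ e'.source →
    ContDiffAt ℝ (⊤ : ℕ∞) (fun z => e' (f (e.symm z))) z ∧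
      (fderiv ℝ (fun z => e' (f (e.symm z))) z).det < 0

/-- A parametrised annulus in the oriented surface: a smooth orientation-preserving embedding of
`(ℝ/ℤ) × ℝ` onto an open subset of `S`, written as a map `(θ, t) ↦ α (θ, t)` of the plane which
identifies exactly the points `(θ + n, t)`, `n ∈ ℤ`. It is a tubular neighbourhood of the simple
closed curve `θ ↦ α (θ, 1/2)`. -/
structure Annulus {S : Type} [TopologicalSpace S] (𝒜 : OrientedAtlas S) where
  /-- the parametrisation -/
  toFun : ℝ × ℝ → S
  continuous_toFun : Continuous toFun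
  eq_iff : ∀ p q : ℝ × ℝ, toFun p = toFun q ↔ (∃ n : ℤ, p.1 - q.1 = n) ∧ p.2 = q.2
  smooth : ∀ e ∈ 𝒜.charts, ∀ p, toFun p ∈ e.source →
    ContDiffAt ℝ (⊤ : ℕ∞) (fun p => e (toFun p)) p
  oriented : ∀ e ∈ 𝒜.charts, ∀ p, toFun p ∈ e.source →
    0 < (fderiv ℝ (fun p => e (toFun p)) p).det

/-- The core curve of an annulus, a simple closed curve in `S`. -/
def Annulus.core {S : Type} [TopologicalSpace S] {𝒜 : OrientedAtlas S} (α : Annulus 𝒜) :
    Set S :=
  range fun θ : ℝ => α.toFun (θ, 1 / 2)

/-- `T` is the (positive) Dehn twist about the core curve of the annulus `α`: it maps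
`α (θ, t)` to `α (θ + t, t)` for `0 ≤ t ≤ 1` and is the identity elsewhere. -/
def IsDehnTwist {S : Type} [TopologicalSpace S] {𝒜 : OrientedAtlas S} (α : Annulus 𝒜)
    (T : S ≃ₜ S) : Prop :=
  (∀ θ t : ℝ, T (α.toFun (θ, t)) = α.toFun (θ + max 0 (min 1 t), t)) ∧
    ∀ x, x ∉ range α.toFun → T x = x

/-- `g` is a product of positive Dehn twists about curves `a i` and negative Dehn twists about
curves `b j`, where the curves `a i` are pairwise disjoint and the curves `b j` are pairwise
disjoint. All mapping classes arising from Penner's construction are represented by such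
products; here it is not even required that the curves are essential and pairwise non-isotopic,
that they fill the surface, or that each of them is used. -/
def IsPennerProduct {S : Type} [TopologicalSpace S] (𝒜 : OrientedAtlas S) (g : S ≃ₜ S) : Prop :=
  ∃ (m n : ℕ) (a : Fin m → Annulus 𝒜) (b : Fin n → Annulus 𝒜),
    (∀ i j, i ≠ j → Disjoint (a i).core (a j).core) ∧
    (∀ i j, i ≠ j → Disjoint (b i).core (b j).core) ∧
    ∃ w : List (S ≃ₜ S),
      (∀ T ∈ w, (∃ i, IsDehnTwist (a i) T) ∨ ∃ j, IsDehnTwist (b j) T⁻¹) ∧ g = w.prod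

end Pool.Agent.Hhelper31.Penner
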