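import Pool.Agent.Hhelper31.Penner.Cycle

/-!
# An eigenvalue of modulus one which is not a root of unity
-/

namespace Pool.Agent.Hhelper31.Penner

open Set Filter Topology Complex

/-! ### the number `ν` -/

/-- `2 cos` of the argument of `ν` -/
noncomputable def sν : ℝ := 1 - √2

/-- a root of `X^4 - 2 X^3 + X^2 - 2 X + 1` on the unit circle -/
noncomputable def ν : ℂ := ((sν / 2 : ℝ) : ℂ) + ((√(1 - (sν / 2) ^ 2) : ℝ) : ℂ) * I

theorem sqrt2_sq : (√2 : ℝ) ^ 2 = 2 := Real.sq_sqrt (by norm_num)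

theorem sqrt2_lt : √2 < 2 := by
  nlinarith [sqrt2_sq, Real.sqrt_nonneg 2]

theorem one_lt_sqrt2 : 1 < √2 := by
  nlinarith [sqrt2_sq, Real.sqrt_nonneg 2]

theorem aux_pos : 0 ≤ 1 - (sν / 2) ^ 2 := by
  unfold sν
  nlinarith [sqrt2_sq, Real.sqrt_nonneg 2, sqrt2_lt, one_lt_sqrt2]

theorem norm_ν : ‖ν‖ = 1 := by
  have h : ‖ν‖ ^ 2 = 1 := by
    rw [Complex.sq_norm, Complex.normSq_apply]
    have h1 : ν.re = sν / 2 := by simp [ν]
    have h2 : ν.im = √(1 - (sν / 2) ^ 2) := by simp [ν]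
    rw [h1, h2]
    have := Real.sq_sqrt aux_pos
    nlinarith
  have h0 := norm_nonneg ν
  nlinarith

theorem ν_quad : ν ^ 2 - (sν : ℂ) * ν + 1 = 0 := by
  have h2 : (((√(1 - (sν / 2) ^ 2) : ℝ) : ℂ)) ^ 2 = 1 - ((sν / 2 : ℝ) : ℂ) ^ 2 := by
    rw [← Complex.ofReal_pow, Real.sq_sqrt aux_pos]; push_cast; ring
  unfold ν
  set r : ℂ := ((√(1 - (sν / 2) ^ 2) : ℝ) : ℂ)
  push_cast at h2 ⊢
  linear_combination r ^ 2 * I_sq - h2

theorem ν_ne : ν ≠ 0 := by
  intro h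
  have := norm_ν
  rw [h] at this
  simp at this

theorem ν_quartic : ν ^ 4 - 2 * ν ^ 3 + ν ^ 2 - 2 * ν + 1 = 0 := by
  have hs : (sν : ℂ) ^ 2 = 2 * sν + 1 := by
    have : sν ^ 2 = 2 * sν + 1 := by unfold sν; nlinarith [sqrt2_sq]
    exact_mod_cast this
  -- (ν² - s ν + 1)(ν² - (2 - s) ν + 1)
  have := ν_quad
  linear_combination (ν ^ 2 - (2 - (sν : ℂ)) * ν + 1) * this + ν ^ 2 * hs

/-- integer sequences with `ν^k + ν^(-k) = a k + b k √2` -/
def ab : ℕ → ℤ × ℤ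
  | 0 => (2, 0)
  | 1 => (1, -1)
  | (n + 2) => ((ab (n + 1)).1 - 2 * (ab (n + 1)).2 - (ab n).1,
      (ab (n + 1)).2 - (ab (n + 1)).1 - (ab n).2)

theorem ab_ν (n : ℕ) : ν ^ n + ν⁻¹ ^ n = ((ab n).1 : ℂ) + ((ab n).2 : ℂ) * ((√2 : ℝ) : ℂ) := by
  have h0 := ν_ne
  have hsum : ν + ν⁻¹ = (sν : ℂ) := by
    have := ν_quad
    field_simp
    linear_combination this
  have hs : (sν : ℂ) = 1 - ((√2 : ℝ) : ℂ) := by unfold sν; push_cast; ring
  have h2 : (((√2 : ℝ) : ℂ)) ^ 2 = 2 := by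
    rw [← Complex.ofReal_pow, sqrt2_sq]; norm_num
  induction n using Nat.strong_induction_on with
  | _ n ih =>
    match n with
    | 0 => simp [ab]; norm_num
    | 1 =>
      simp only [pow_one, ab]
      rw [hsum, hs]; push_cast; ring
    | (n + 2) =>
      have e1 := ih n (by omega)
      have e2 := ih (n + 1) (by omega)
      have key : ν ^ (n + 2) + ν⁻¹ ^ (n + 2)
          = (ν + ν⁻¹) * (ν ^ (n + 1) + ν⁻¹ ^ (n + 1)) - (ν ^ n + ν⁻¹ ^ n) := by
        have h3 : ν * ν⁻¹ = 1 := mul_inv_cancel₀ h0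
        linear_combination (-(ν ^ n) - ν⁻¹ ^ n) * h3
      rw [key, e1, e2, hsum, hs]
      simp only [ab]
      push_cast
      linear_combination (-((ab (n + 1)).2 : ℂ)) * h2

/-- the conjugate sequence is strictly increasing from `2` -/
theorem ab_conj (n : ℕ) : 2 ≤ ((ab n).1 : ℝ) - (ab n).2 * √2 ∧
    ((ab n).1 : ℝ) - (ab n).2 * √2 < ((ab (n + 1)).1 : ℝ) - (ab (n + 1)).2 * √2 := by
  induction n with
  | zero =>
    simp only [ab]
    push_cast
    constructor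
    · norm_num
    · nlinarith [one_lt_sqrt2]
  | succ n ih =>
    obtain ⟨h1, h2⟩ := ih
    refine ⟨by linarith, ?_⟩
    have key : ((ab (n + 2)).1 : ℝ) - (ab (n + 2)).2 * √2
        = (1 + √2) * (((ab (n + 1)).1 : ℝ) - (ab (n + 1)).2 * √2)
          - (((ab n).1 : ℝ) - (ab n).2 * √2) := by
      simp only [ab]
      push_cast
      linear_combination ((ab (n + 1)).2 : ℝ) * sqrt2_sq
    rw [show n + 1 + 1 = n + 2 by ring, key]
    nlinarith [one_lt_sqrt2]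

theorem ab_conj_lt (n : ℕ) (hn : 1 ≤ n) : 2 < ((ab n).1 : ℝ) - (ab n).2 * √2 := by
  obtain ⟨m, rfl⟩ : ∃ m, n = m + 1 := ⟨n - 1, by omega⟩
  have := ab_conj m
  linarith [this.1, this.2]

theorem ν_pow_ne (k : ℕ) (hk : 1 ≤ k) : ν ^ k ≠ 1 := by
  intro h
  have h1 : ν⁻¹ ^ k = 1 := by rw [inv_pow, h, inv_one]
  have h2 := ab_ν k
  rw [h, h1] at h2
  have h3 : ((ab k).1 : ℝ) + (ab k).2 * √2 = 2 := by
    have : (((((ab k).1 : ℝ) + (ab k).2 * √2 : ℝ)) : ℂ) = ((2 : ℝ) : ℂ) := by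
      push_cast
      rw [← h2]; norm_num
    exact_mod_cast this
  have h4 : (ab k).2 = 0 := by
    by_contra hb
    have hb' : ((ab k).2 : ℝ) ≠ 0 := by exact_mod_cast hb
    have : √2 = (((2 - (ab k).1 : ℤ) : ℚ) / ((ab k).2 : ℚ) : ℚ) := by
      push_cast
      field_simp
      linarith
    exact irrational_sqrt_two ⟨_, this.symm⟩
  have h5 := ab_conj_lt k hk
  rw [h4] at h3 h5
  simp at h3 h5
  linarith

/-! ### the cycles -/

theorem closed_iter : ∀ j : Fin 9, ∀ v k, bd (Fc^[j] c₀) v k = 0 := by decide +kernel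

theorem relation_iter : ∀ t k, (Fc^[8] c₀) t k
    = 2 * (Fc^[6] c₀) t k - (Fc^[4] c₀) t k + 2 * (Fc^[2] c₀) t k - (Fc^[0] c₀) t k := by
  decide +kernel

theorem coeff_iter : (Fc^[6] c₀) 5 3 = 1 ∧ (Fc^[4] c₀) 5 3 = 0 ∧ (Fc^[2] c₀) 5 3 = 0 ∧
    (Fc^[0] c₀) 5 3 = 0 := by
  decide +kernel

/-- the cycles `f^j c₀`, for `j ≤ 8` -/
noncomputable def VV (j : Fin 9) : Fn Surf := cyc (Fc^[j] c₀) (closed_iter j)

theorem push_VV (j : Fin 8) : push ffc (VV j.castSucc) = VV j.succ := by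
  unfold VV
  have hc' : ∀ v k, bd (Fc (Fc^[(j.castSucc : Fin 9)] c₀)) v k = 0 := by
    have := closed_iter j.succ
    rw [Fin.val_succ, Function.iterate_succ_apply'] at this
    exact this
  rw [push_cyc _ _ hc']
  apply Subtype.ext
  ext u
  rw [cyc_apply, cyc_apply, Fin.val_succ, Function.iterate_succ_apply']
  rfl

theorem relation_VV : VV 8 = (2 : ℂ) • VV 6 - VV 4 + (2 : ℂ) • VV 2 - VV 0 := by
  apply Subtype.ext
  ext u
  change ((pair (Fc^[8] c₀) (EE u) : ℝ) : ℂ) = 2 * ((pair (Fc^[6] c₀) (EE u) : ℝ) : ℂ)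
    - ((pair (Fc^[4] c₀) (EE u) : ℝ) : ℂ) + 2 * ((pair (Fc^[2] c₀) (EE u) : ℝ) : ℂ)
    - ((pair (Fc^[0] c₀) (EE u) : ℝ) : ℂ)
  have : pair (Fc^[8] c₀) (EE u) = 2 * pair (Fc^[6] c₀) (EE u) - pair (Fc^[4] c₀) (EE u)
      + 2 * pair (Fc^[2] c₀) (EE u) - pair (Fc^[0] c₀) (EE u) := by
    unfold pair
    rw [Finset.mul_sum, Finset.mul_sum, ← Finset.sum_sub_distrib, ← Finset.sum_add_distrib,
      ← Finset.sum_sub_distrib]
    refine Finset.sum_congr rfl fun t _ => ?_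
    rw [Finset.mul_sum, Finset.mul_sum, ← Finset.sum_sub_distrib, ← Finset.sum_add_distrib,
      ← Finset.sum_sub_distrib]
    refine Finset.sum_congr rfl fun k _ => ?_
    rw [relation_iter t k]
    push_cast; ring
  rw [this]
  push_cast; ring

/-- the eigenfunctional -/
noncomputable def ξν : Fn Surf :=
  VV 6 + (ν - 2) • VV 4 + ((ν - 1) ^ 2) • VV 2 - ν⁻¹ • VV 0

theorem push2 (j : Fin 9) (j' : Fin 9) (h : (j' : ℕ) = j + 2) :
    push ffc (push ffc (VV j)) = VV j' := by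
  have hj : (j : ℕ) < 7 := by omega
  have e1 : j = (⟨j, by omega⟩ : Fin 8).castSucc := rfl
  have e2 : (⟨j, by omega⟩ : Fin 8).succ = (⟨j + 1, by omega⟩ : Fin 8).castSucc := rfl
  have e3 : (⟨j + 1, by omega⟩ : Fin 8).succ = j' := by
    apply Fin.ext; simp [h]
  rw [e1, push_VV, e2, push_VV]
  congr 1

theorem push_ξν : push ffc (push ffc ξν) = ν • ξν := by
  have h0 := push2 0 2 rfl
  have h2 := push2 2 4 rfl
  have h4 := push2 4 6 rfl
  have h6 := push2 6 8 rfl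
  have hν := ν_ne
  have hinv : ν * ν⁻¹ = 1 := mul_inv_cancel₀ hν
  have hq := ν_quartic
  have key : 2 - ν⁻¹ = ν * (ν - 1) ^ 2 := by
    have : (2 - ν⁻¹ - ν * (ν - 1) ^ 2) * ν = 0 := by
      linear_combination (-1 : ℂ) * hinv - hq
    rcases mul_eq_zero.1 this with h | h
    · linear_combination h
    · exact absurd h hν
  unfold ξν
  simp only [map_add, map_sub, map_smul, h0, h2, h4, h6]
  rw [relation_VV]
  simp only [smul_add, smul_sub, smul_smul]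
  rw [hinv, ← key]
  module

theorem ξν_ne (u : C(Surf, 𝕋)) (h3 : edge V0 3 (3 / 4) (5 / 4) u = 1)
    (h0 : edge V0 0 (3 / 4) (5 / 4) u = 0) (h1 : edge V0 1 (3 / 4) (5 / 4) u = 0)
    (h2 : edge V0 2 (3 / 4) (5 / 4) u = 0) (hv : ∀ k : ℤ, edge V0 k (1 / 4) (3 / 4) u = 0)
    (ho : ∀ (k : ℤ) (a b : ℝ), edge H0 k a b u = 0 ∧ edge H1 k a b u = 0 ∧ edge V1 k a b u = 0) :
    ξν ≠ 0 := by
  have hE : ∀ c : Fin 8 → ZMod 4 → ℤ, pair c (EE u) = c 5 3 := by
    intro c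
    unfold pair
    rw [Finset.sum_eq_single 5]
    · have e : ∀ k : ZMod 4, EE u 5 k = if k = 3 then 1 else 0 := by
        intro k
        change edge V0 (k.val : ℤ) (3 / 4) (5 / 4) u = _
        fin_cases k
        · change edge V0 0 (3 / 4) (5 / 4) u = if (0 : ZMod 4) = 3 then 1 else 0
          rw [h0, if_neg (by decide)]
        · change edge V0 1 (3 / 4) (5 / 4) u = if (1 : ZMod 4) = 3 then 1 else 0
          rw [h1, if_neg (by decide)]
        · change edge V0 2 (3 / 4) (5 / 4) u = if (2 : ZMod 4) = 3 then 1 else 0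
          rw [h2, if_neg (by decide)]
        · change edge V0 3 (3 / 4) (5 / 4) u = if (3 : ZMod 4) = 3 then 1 else 0
          rw [h3, if_pos rfl]
      simp_rw [e]
      simp
    · intro t _ ht
      apply Finset.sum_eq_zero
      intro k _
      have : EE u t k = 0 := by
        fin_cases t
        · exact (ho _ _ _).1
        · exact (ho _ _ _).1
        · exact (ho _ _ _).2.1
        · exact (ho _ _ _).2.1
        · exact hv _
        · exact absurd rfl ht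
        · exact (ho _ _ _).2.2
        · exact (ho _ _ _).2.2
      rw [this, mul_zero]
    · intro h; exact absurd (Finset.mem_univ _) h
  intro hξ
  have h : ξν.1 u = 0 := by rw [hξ]; rfl
  have h' : ξν.1 u = ((pair (Fc^[6] c₀) (EE u) : ℝ) : ℂ)
      + (ν - 2) * ((pair (Fc^[4] c₀) (EE u) : ℝ) : ℂ)
      + (ν - 1) ^ 2 * ((pair (Fc^[2] c₀) (EE u) : ℝ) : ℂ)
      - ν⁻¹ * ((pair (Fc^[0] c₀) (EE u) : ℝ) : ℂ) := rfl
  rw [h', hE, hE, hE, hE, coeff_iter.1, coeff_iter.2.1, coeff_iter.2.2.1, coeff_iter.2.2.2] at h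
  norm_num at h

end Pool.Agent.Hhelper31.Penner
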