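import Pool.Agent.Hhelper31.Penner.Defs

/-!
# Circle-valued functions: lifts, winding increments, functionals
-/

namespace Pool.Agent.Hhelper31.Penner

open Set Filter Topology

/-- the circle `ℝ/ℤ` -/
abbrev 𝕋 : Type := UnitAddCircle

theorem exists_lift {Y : Type} [TopologicalSpace Y] [SimplyConnectedSpace Y]
    [LocallyPathConnectedSpace Y] (c : C(Y, 𝕋)) : ∃ X : C(Y, ℝ), ∀ y, ((X y : ℝ) : 𝕋) = c y := by
  have hne : Nonempty Y := inferInstance
  obtain ⟨y₀⟩ := hne
  obtain ⟨r, hr⟩ := QuotientAddGroup.mk_surjective (c y₀)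
  obtain ⟨F, ⟨-, hF⟩, -⟩ :=
    (AddCircle.isCoveringMap_coe (1 : ℝ)).existsUnique_continuousMap_lifts c (a₀ := y₀) (e₀ := r) hr
  exact ⟨F, fun y => congrFun hF y⟩

theorem coe_eq_zero_iff (r : ℝ) : ((r : ℝ) : 𝕋) = 0 ↔ ∃ n : ℤ, r = n := by
  rw [AddCircle.coe_eq_zero_iff]
  constructor
  · rintro ⟨n, hn⟩; exact ⟨n, by simpa using hn.symm⟩
  · rintro ⟨n, hn⟩; exact ⟨n, by simpa using hn.symm⟩

theorem coe_eq_coe_iff (r s : ℝ) : ((r : ℝ) : 𝕋) = s ↔ ∃ n : ℤ, r = s + n := by
  have : ((r : ℝ) : 𝕋) = s ↔ (((r - s : ℝ)) : 𝕋) = 0 := by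
    rw [AddCircle.coe_sub, sub_eq_zero]
  rw [this, coe_eq_zero_iff]
  constructor
  · rintro ⟨n, hn⟩; exact ⟨n, by linarith⟩
  · rintro ⟨n, hn⟩; exact ⟨n, by linarith⟩

theorem int_valued_const {Y : Type} [TopologicalSpace Y] [PreconnectedSpace Y] (g : C(Y, ℝ))
    (h : ∀ y, ∃ n : ℤ, g y = n) (a b : Y) : g a = g b := by
  choose n hn using h
  have hc : Continuous n := by
    have hg : Continuous fun y => ((n y : ℤ) : ℝ) := by
      have : (fun y => ((n y : ℤ) : ℝ)) = g := by ext y; exact (hn y).symm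
      rw [this]; exact g.continuous
    exact Int.isClosedEmbedding_coe_real.isEmbedding.continuous_iff.mpr hg
  have := (PreconnectedSpace.constant ‹_› hc (x := a) (y := b))
  rw [hn a, hn b, this]

theorem lift_unique {Y : Type} [TopologicalSpace Y] [PreconnectedSpace Y] (X X' : C(Y, ℝ))
    (h : ∀ y, ((X y : ℝ) : 𝕋) = ((X' y : ℝ) : 𝕋)) (a b : Y) : X a - X' a = X b - X' b := by
  have := int_valued_const (X - X') (fun y => by
    obtain ⟨n, hn⟩ := (coe_eq_coe_iff _ _).1 (h y)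
    exact ⟨n, by simp [hn]⟩) a b
  simpa using this

/-- The increment from `a` to `b` of a continuous real lift of `c : ℝ → 𝕋`. -/
noncomputable def inc (c : C(ℝ, 𝕋)) (a b : ℝ) : ℝ :=
  (exists_lift c).choose b - (exists_lift c).choose a

theorem inc_eq (c : C(ℝ, 𝕋)) (X : C(ℝ, ℝ)) (hX : ∀ y, ((X y : ℝ) : 𝕋) = c y) (a b : ℝ) :
    inc c a b = X b - X a := by
  have h := lift_unique (exists_lift c).choose X
    (fun y => by rw [(exists_lift c).choose_spec y, hX]) a b
  unfold inc; linarith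

theorem inc_add_fun (c d : C(ℝ, 𝕋)) (a b : ℝ) : inc (c + d) a b = inc c a b + inc d a b := by
  obtain ⟨X, hX⟩ := exists_lift c
  obtain ⟨Z, hZ⟩ := exists_lift d
  rw [inc_eq c X hX, inc_eq d Z hZ, inc_eq (c + d) (X + Z) (fun y => by simp [hX, hZ])]
  simp; ring

theorem inc_zero_fun (a b : ℝ) : inc (0 : C(ℝ, 𝕋)) a b = 0 := by
  rw [inc_eq 0 0 (fun y => by simp)]; simp

theorem inc_trans (c : C(ℝ, 𝕋)) (x y z : ℝ) : inc c x y + inc c y z = inc c x z := by
  unfold inc; ring

theorem inc_self (c : C(ℝ, 𝕋)) (x : ℝ) : inc c x x = 0 := by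
  unfold inc; ring

/-- reparametrisation -/
theorem inc_comp (c : C(ℝ, 𝕋)) (r : C(ℝ, ℝ)) (a b : ℝ) : inc (c.comp r) a b = inc c (r a) (r b) := by
  obtain ⟨X, hX⟩ := exists_lift c
  rw [inc_eq c X hX, inc_eq (c.comp r) (X.comp r) (fun y => by simp [hX])]
  simp

/-- reduction modulo `1` of a real function -/
noncomputable def expo {S : Type} [TopologicalSpace S] (h : C(S, ℝ)) : C(S, 𝕋) :=
  ⟨fun x => ((h x : ℝ) : 𝕋), by
    exact (AddCircle.continuous_mk' (1 : ℝ)).comp h.continuous⟩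

@[simp] theorem expo_apply {S : Type} [TopologicalSpace S] (h : C(S, ℝ)) (x : S) :
    expo h x = ((h x : ℝ) : 𝕋) := rfl

theorem inc_expo (h : C(ℝ, ℝ)) (a b : ℝ) : inc (expo h) a b = h b - h a :=
  inc_eq _ h (fun _ => rfl) a b

/-- The complex vector space of additive functionals on circle-valued functions which vanish on
the functions having a real lift: this is `Hom (H¹(S; ℤ), ℂ)`. -/
def Fn (S : Type) [TopologicalSpace S] : Submodule ℂ (C(S, 𝕋) →+ ℂ) where
  carrier := {ξ | ∀ h : C(S, ℝ), ξ (expo h) = 0}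
  add_mem' := by
    intro a b ha hb h
    simp [ha h, hb h]
  zero_mem' := by intro h; simp
  smul_mem' := by
    intro c a ha h
    simp [ha h]

/-- precomposition -/
def pull {S S' : Type} [TopologicalSpace S] [TopologicalSpace S'] (φ : C(S, S')) :
    C(S', 𝕋) →+ C(S, 𝕋) where
  toFun u := u.comp φ
  map_zero' := rfl
  map_add' _ _ := rfl

@[simp] theorem pull_apply {S S' : Type} [TopologicalSpace S] [TopologicalSpace S'] (φ : C(S, S'))
    (u : C(S', 𝕋)) : pull φ u = u.comp φ := rfl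

/-- the push forward of functionals -/
def push {S S' : Type} [TopologicalSpace S] [TopologicalSpace S'] (φ : C(S, S')) :
    Fn S →ₗ[ℂ] Fn S' where
  toFun ξ := ⟨ξ.1.comp (pull φ), by
    intro h
    have := ξ.2 (h.comp φ)
    exact this⟩
  map_add' _ _ := rfl
  map_smul' _ _ := rfl

@[simp] theorem push_apply {S S' : Type} [TopologicalSpace S] [TopologicalSpace S'] (φ : C(S, S'))
    (ξ : Fn S) (u : C(S', 𝕋)) : (push φ ξ).1 u = ξ.1 (u.comp φ) := rfl

theorem push_comp {S S' S'' : Type} [TopologicalSpace S] [TopologicalSpace S'] [TopologicalSpace S'']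
    (φ : C(S', S'')) (ψ : C(S, S')) (ξ : Fn S) : push (φ.comp ψ) ξ = push φ (push ψ ξ) := rfl

theorem push_id {S : Type} [TopologicalSpace S] (ξ : Fn S) : push (ContinuousMap.id S) ξ = ξ := rfl

/-- homotopic maps induce the same map on functionals -/
theorem push_homotopic {S S' : Type} [TopologicalSpace S] [TopologicalSpace S'] (φ ψ : C(S, S'))
    (h : φ.Homotopic ψ) (ξ : Fn S) : push φ ξ = push ψ ξ := by
  obtain ⟨H⟩ := h
  apply Subtype.ext
  ext u
  rw [push_apply, push_apply]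
  -- the homotopy `u (H (t, x)) - u (φ x)` lifts
  let K : C(unitInterval × S, 𝕋) := u.comp H.toContinuousMap - (u.comp φ).comp ContinuousMap.snd
  have hK0 : ∀ x : S, K (0, x) = (((0 : C(S, ℝ)) x : ℝ) : 𝕋) := by
    intro x
    simp [K]
  let L := (AddCircle.isCoveringMap_coe (1 : ℝ)).liftHomotopy K (0 : C(S, ℝ)) hK0
  have hL : ∀ t x, ((L (t, x) : ℝ) : 𝕋) = K (t, x) := fun t x =>
    congrFun ((AddCircle.isCoveringMap_coe (1 : ℝ)).liftHomotopy_lifts K 0 hK0) (t, x)
  let h1 : C(S, ℝ) := L.comp ⟨fun x => ((1 : unitInterval), x), by fun_prop⟩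
  have h1e : expo h1 = u.comp ψ - u.comp φ := by
    ext x
    have := hL 1 x
    simp only [K, ContinuousMap.sub_apply, ContinuousMap.comp_apply] at this
    simp only [expo_apply, ContinuousMap.sub_apply, ContinuousMap.comp_apply]
    rw [show h1 x = L (1, x) from rfl, this]
    simp
  have := ξ.2 h1
  rw [h1e, map_sub] at this
  exact (sub_eq_zero.1 this).symm

variable {S : Type} [TopologicalSpace S] {𝒜 : OrientedAtlas S}

/-- the core curve as a continuous map -/
noncomputable def Annulus.loop (α : Annulus 𝒜) : C(ℝ, S) :=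
  ⟨fun θ => α.toFun (θ, 1 / 2), α.continuous_toFun.comp (by fun_prop)⟩

/-- The degree of a circle-valued function on the core curve of an annulus, as a functional. -/
noncomputable def degFn (α : Annulus 𝒜) : Fn S := by
  refine ⟨{ toFun := fun u => (inc (u.comp α.loop) 0 1 : ℂ), map_zero' := ?_, map_add' := ?_ }, ?_⟩
  · have : (0 : C(S, 𝕋)).comp α.loop = 0 := rfl
    rw [this, inc_zero_fun]; simp
  · intro u v
    have : (u + v).comp α.loop = u.comp α.loop + v.comp α.loop := rfl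
    rw [this, inc_add_fun]; push_cast; ring
  · intro h
    change ((inc ((expo h).comp α.loop) 0 1 : ℝ) : ℂ) = 0
    have : (expo h).comp α.loop = expo (h.comp α.loop) := rfl
    rw [this, inc_expo]
    have h01 : α.loop 1 = α.loop 0 := by
      change α.toFun (1, 1 / 2) = α.toFun (0, 1 / 2)
      rw [α.eq_iff]
      exact ⟨⟨1, by norm_num⟩, rfl⟩
    simp [h01]

theorem degFn_apply (α : Annulus 𝒜) (u : C(S, 𝕋)) :
    (degFn α).1 u = (inc (u.comp α.loop) 0 1 : ℂ) := rfl

/-- `w` is the circle-valued function dual to the core curve of `α`: it equals `t` modulo `1`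
at `α (θ, t)` for `0 ≤ t ≤ 1` and `0` elsewhere. -/
def IsDual (α : Annulus 𝒜) (w : C(S, 𝕋)) : Prop :=
  (∀ θ t : ℝ, w (α.toFun (θ, t)) = ((max 0 (min 1 t) : ℝ) : 𝕋)) ∧ ∀ x, x ∉ range α.toFun → w x = 0

end Pool.Agent.Hhelper31.Penner
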