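import Pool.Agent.Hhelper31.Penner.Map

/-!
# Four families of lines on the surface
-/

namespace Pool.Agent.Hhelper31.Penner

open Set Filter Topology Complex

/-- A point of the surface in polar form: `w = |F|^(1/4) exp (i θ / 4)`, where `θ` is an
argument of `F`. -/
noncomputable def pt (x : 𝕋 × 𝕋) (θ : ℝ) (hne : FF x ≠ 0)
    (h : FF x = (‖FF x‖ : ℂ) * exp (θ * I)) : Surf :=
  Surf.mk x (((‖FF x‖ ^ ((4 : ℕ) : ℝ)⁻¹ : ℝ) : ℂ) * exp ((θ / 4 : ℝ) * I))
    (mul_ne_zero (by
      have : 0 < ‖FF x‖ := norm_pos_iff.2 hne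
      exact_mod_cast (Real.rpow_pos_of_pos this _).ne') (exp_ne_zero _)) (by
    conv_rhs => rw [h]
    rw [mul_pow, ← exp_nat_mul, ← Complex.ofReal_pow, Real.rpow_inv_natCast_pow (norm_nonneg _)
      (by norm_num)]
    congr 2
    push_cast; ring)

@[simp] theorem pt_base (x θ hne h) : (pt x θ hne h).base = x := rfl

theorem pt_root (x θ hne h) : (pt x θ hne h).root
    = ((‖FF x‖ ^ ((4 : ℕ) : ℝ)⁻¹ : ℝ) : ℂ) * exp ((θ / 4 : ℝ) * I) := rfl

theorem pt_eq {x x' : 𝕋 × 𝕋} {θ θ' : ℝ} {hne : FF x ≠ 0} {h : FF x = (‖FF x‖ : ℂ) * exp (θ * I)}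
    {hne' : FF x' ≠ 0} {h' : FF x' = (‖FF x'‖ : ℂ) * exp (θ' * I)} (hx : x = x') (n : ℤ)
    (hθ : θ = θ' + 8 * Real.pi * n) : pt x θ hne h = pt x' θ' hne' h' := by
  subst hx
  refine Surf.ext (by rw [pt_base, pt_base]) ?_
  rw [pt_root, pt_root, hθ]
  congr 1
  rw [exp_eq_exp_iff_exists_int]
  refine ⟨n, ?_⟩
  push_cast; ring

/-- data for a line on the surface: a path in the plane along which `F` has the continuous
argument `arg` -/
structure Line where
  /-- the path in the plane -/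
  path : C(ℝ, ℝ × ℝ)
  /-- the continuous argument of `F` -/
  arg : C(ℝ, ℝ)
  ne : ∀ t, FF (tor (path t)) ≠ 0
  eq : ∀ t, FF (tor (path t)) = (‖FF (tor (path t))‖ : ℂ) * exp (arg t * I)

theorem Line.eq_add (ℓ : Line) (k : ℤ) (t : ℝ) : FF (tor (ℓ.path t))
    = (‖FF (tor (ℓ.path t))‖ : ℂ) * exp (((ℓ.arg t + 2 * Real.pi * k : ℝ) : ℂ) * I) := by
  conv_lhs => rw [ℓ.eq t]
  congr 1
  rw [exp_eq_exp_iff_exists_int]
  exact ⟨-k, by push_cast; ring⟩

/-- the `k`-th lift of the line to the surface -/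
noncomputable def Line.lift (ℓ : Line) (k : ℤ) : C(ℝ, Surf) where
  toFun t := pt (tor (ℓ.path t)) (ℓ.arg t + 2 * Real.pi * k) (ℓ.ne t) (ℓ.eq_add k t)
  continuous_toFun := by
    have hc : Continuous fun t => FF (tor (ℓ.path t)) :=
      continuous_FF.comp (continuous_tor.comp ℓ.path.continuous)
    refine Surf.continuous_mk (continuous_tor.comp ℓ.path.continuous) ?_ _ _
    refine Continuous.mul ?_ ?_
    · refine Complex.continuous_ofReal.comp ?_
      refine hc.norm.rpow_const fun t => Or.inr (by positivity)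
    · have := ℓ.arg.continuous
      fun_prop

theorem Line.lift_apply (ℓ : Line) (k : ℤ) (t : ℝ) :
    ℓ.lift k t = pt (tor (ℓ.path t)) (ℓ.arg t + 2 * Real.pi * k) (ℓ.ne t) (ℓ.eq_add k t) := rfl

@[simp] theorem Line.base_lift (ℓ : Line) (k : ℤ) (t : ℝ) :
    (ℓ.lift k t).base = tor (ℓ.path t) := rfl

theorem Line.lift_eq_lift {ℓ ℓ' : Line} {k k' : ℤ} {t t' : ℝ}
    (hp : tor (ℓ.path t) = tor (ℓ'.path t')) (n : ℤ)
    (ha : ℓ.arg t + 2 * Real.pi * k = ℓ'.arg t' + 2 * Real.pi * k' + 8 * Real.pi * n) :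
    ℓ.lift k t = ℓ'.lift k' t' := by
  rw [Line.lift_apply, Line.lift_apply]
  exact pt_eq hp n ha

theorem Line.lift_add_four (ℓ : Line) (k : ℤ) : ℓ.lift (k + 4) = ℓ.lift k := by
  ext1 t
  refine Line.lift_eq_lift rfl 1 ?_
  push_cast; ring

/-- polar form of `1 + i a` -/
theorem pr_one_polar (a : ℝ) : ∃ r : ℝ, 0 < r ∧ pr 1 a = (r : ℂ) * exp (Real.arctan a * I) := by
  have h0 : (0 : ℝ) < 1 + a ^ 2 := by positivity
  refine ⟨√(1 + a ^ 2), Real.sqrt_pos.2 h0, ?_⟩
  apply Complex.ext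
  · rw [pr_re, Complex.re_ofReal_mul, Complex.exp_ofReal_mul_I_re, Real.cos_arctan]
    rw [mul_one_div, div_self (Real.sqrt_pos.2 h0).ne']
  · rw [pr_im, Complex.im_ofReal_mul, Complex.exp_ofReal_mul_I_im, Real.sin_arctan,
      mul_div_cancel₀ _ (Real.sqrt_pos.2 h0).ne']

/-- A convenient form of the polar representation. -/
theorem polar_of {z : ℂ} {r θ : ℝ} (hr : 0 < r) (h : z = (r : ℂ) * exp (θ * I)) :
    z ≠ 0 ∧ z = (‖z‖ : ℂ) * exp (θ * I) := by
  have hz : z ≠ 0 := by
    rw [h]; exact mul_ne_zero (by exact_mod_cast hr.ne') (exp_ne_zero _)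
  refine ⟨hz, ?_⟩
  have hn : ‖z‖ = r := by
    rw [h, norm_mul, Complex.norm_exp_ofReal_mul_I, mul_one, Complex.norm_real, Real.norm_eq_abs,
      abs_of_pos hr]
  rw [hn, h]

theorem sin_add_quarter (t : ℝ) : Real.sin (2 * Real.pi * (t + 1 / 4)) = Real.cos (2 * Real.pi * t) := by
  rw [← Real.sin_add_pi_div_two]; congr 1; ring

theorem sin_quarter : Real.sin (2 * Real.pi * (1 / 4)) = 1 := by
  rw [show 2 * Real.pi * (1 / 4) = Real.pi / 2 by ring, Real.sin_pi_div_two]

theorem cos_quarter : Real.cos (2 * Real.pi * (1 / 4)) = 0 := by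
  rw [show 2 * Real.pi * (1 / 4) = Real.pi / 2 by ring, Real.cos_pi_div_two]

theorem sin_three_quarters : Real.sin (2 * Real.pi * (3 / 4)) = -1 := by
  rw [show 2 * Real.pi * (3 / 4) = Real.pi + Real.pi / 2 by ring, Real.sin_add]
  simp

theorem cos_three_quarters : Real.cos (2 * Real.pi * (3 / 4)) = 0 := by
  rw [show 2 * Real.pi * (3 / 4) = Real.pi + Real.pi / 2 by ring, Real.cos_add]
  simp

theorem FF_tor (x y : ℝ) : FF (tor (x, y)) =
    I * pr (Real.sin (2 * Real.pi * x)) (Real.sin (2 * Real.pi * y))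
      * pr (Real.sin (2 * Real.pi * x)) (Real.sin (2 * Real.pi * (x + y)))
      * pr (Real.sin (2 * Real.pi * (x + y))) (Real.sin (2 * Real.pi * y)) := by
  unfold FF tor
  simp only
  rw [← AddCircle.coe_add, sn_coe, sn_coe, sn_coe]

theorem exp_two_pi (t : ℝ) : exp ((2 * Real.pi * t : ℝ) * I)
    = pr (Real.cos (2 * Real.pi * t)) (Real.sin (2 * Real.pi * t)) := by
  apply Complex.ext
  · rw [pr_re, Complex.exp_ofReal_mul_I_re]
  · rw [pr_im, Complex.exp_ofReal_mul_I_im]

theorem exp_I_half : exp ((Real.pi / 2 : ℝ) * I) = I := by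
  apply Complex.ext
  · rw [Complex.exp_ofReal_mul_I_re]; simp
  · rw [Complex.exp_ofReal_mul_I_im]; simp

/-- the line `y = 1/4` -/
noncomputable def H0 : Line := by
  refine ⟨⟨fun t => (t, 1 / 4), by fun_prop⟩, ⟨fun t => -2 * Real.pi * t
    - Real.arctan (Real.sin (2 * Real.pi * t)) - Real.arctan (Real.cos (2 * Real.pi * t)),
    by fun_prop⟩, ?_, ?_⟩
  all_goals
    intro t
    have key : ∃ r : ℝ, 0 < r ∧ FF (tor (t, 1 / 4)) = (r : ℂ) * exp (((-2 * Real.pi * t
        - Real.arctan (Real.sin (2 * Real.pi * t)) - Real.arctan (Real.cos (2 * Real.pi * t)) : ℝ) : ℂ)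
          * I) := by
      obtain ⟨r₁, hr₁, h₁⟩ := pr_one_polar (-Real.sin (2 * Real.pi * t))
      obtain ⟨r₂, hr₂, h₂⟩ := pr_one_polar (-Real.cos (2 * Real.pi * t))
      refine ⟨r₁ * r₂, by positivity, ?_⟩
      have e : exp (((-2 * Real.pi * t
        - Real.arctan (Real.sin (2 * Real.pi * t)) - Real.arctan (Real.cos (2 * Real.pi * t)) : ℝ) : ℂ)
          * I) = exp ((2 * Real.pi * (-t) : ℝ) * I) * exp ((Real.arctan (-Real.sin (2 * Real.pi * t)) : ℝ) * I)
            * exp ((Real.arctan (-Real.cos (2 * Real.pi * t)) : ℝ) * I) := by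
        rw [← Complex.exp_add, ← Complex.exp_add, Real.arctan_neg, Real.arctan_neg]
        congr 1; push_cast; ring
      rw [e, FF_tor, sin_quarter, sin_add_quarter]
      have h3 := exp_two_pi (-t)
      calc _ = exp ((2 * Real.pi * (-t) : ℝ) * I) * pr 1 (-Real.sin (2 * Real.pi * t))
            * pr 1 (-Real.cos (2 * Real.pi * t)) := by
            rw [h3, mul_neg, Real.cos_neg, Real.sin_neg]
            unfold pr
            push_cast
            generalize (Complex.sin (2 * (Real.pi : ℂ) * t)) = s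
            generalize (Complex.cos (2 * (Real.pi : ℂ) * t)) = c
            ring_nf
            have hI2 : (I : ℂ) ^ 2 = -1 := I_sq
            have hI3 : (I : ℂ) ^ 3 = -I := by rw [pow_succ, hI2]; ring
            have hI4 : (I : ℂ) ^ 4 = 1 := by rw [show (4:ℕ) = 2 + 2 by rfl, pow_add, hI2]; ring
            rw [hI4, hI3, hI2]
            ring
        _ = _ := by
            rw [h₁, h₂]; push_cast; ring
    obtain ⟨r, hr, h⟩ := key
    first | exact (polar_of hr h).1 | exact (polar_of hr h).2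

/-- the line `y = 3/4` -/
noncomputable def H1 : Line := by
  refine ⟨⟨fun t => (t, 3 / 4), by fun_prop⟩, ⟨fun t => Real.pi + 2 * Real.pi * t
    + Real.arctan (Real.sin (2 * Real.pi * t)) - Real.arctan (Real.cos (2 * Real.pi * t)),
    by fun_prop⟩, ?_, ?_⟩
  all_goals
    intro t
    have key : ∃ r : ℝ, 0 < r ∧ FF (tor (t, 3 / 4)) = (r : ℂ) * exp (((Real.pi + 2 * Real.pi * t
        + Real.arctan (Real.sin (2 * Real.pi * t)) - Real.arctan (Real.cos (2 * Real.pi * t)) : ℝ) : ℂ)
          * I) := by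
      obtain ⟨r₁, hr₁, h₁⟩ := pr_one_polar (Real.sin (2 * Real.pi * t))
      obtain ⟨r₂, hr₂, h₂⟩ := pr_one_polar (-Real.cos (2 * Real.pi * t))
      refine ⟨r₁ * r₂, by positivity, ?_⟩
      have e : exp (((Real.pi + 2 * Real.pi * t
        + Real.arctan (Real.sin (2 * Real.pi * t)) - Real.arctan (Real.cos (2 * Real.pi * t)) : ℝ) : ℂ)
          * I) = exp (Real.pi * I) * exp ((2 * Real.pi * t : ℝ) * I)
            * exp ((Real.arctan (Real.sin (2 * Real.pi * t)) : ℝ) * I)
            * exp ((Real.arctan (-Real.cos (2 * Real.pi * t)) : ℝ) * I) := by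
        rw [← Complex.exp_add, ← Complex.exp_add, ← Complex.exp_add, Real.arctan_neg]
        congr 1; push_cast; ring
      have hs : Real.sin (2 * Real.pi * (t + 3 / 4)) = -Real.cos (2 * Real.pi * t) := by
        rw [show 2 * Real.pi * (t + 3 / 4) = 2 * Real.pi * (t + 1 / 4) + Real.pi by ring,
          Real.sin_add_pi, sin_add_quarter]
      rw [e, FF_tor, sin_three_quarters, hs]
      have h3 := exp_two_pi t
      calc _ = exp (Real.pi * I) * exp ((2 * Real.pi * t : ℝ) * I) * pr 1 (Real.sin (2 * Real.pi * t))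
            * pr 1 (-Real.cos (2 * Real.pi * t)) := by
            rw [h3, Complex.exp_pi_mul_I]
            unfold pr
            push_cast
            generalize (Complex.sin (2 * (Real.pi : ℂ) * t)) = s
            generalize (Complex.cos (2 * (Real.pi : ℂ) * t)) = c
            ring_nf
            have hI2 : (I : ℂ) ^ 2 = -1 := I_sq
            have hI3 : (I : ℂ) ^ 3 = -I := by rw [pow_succ, hI2]; ring
            have hI4 : (I : ℂ) ^ 4 = 1 := by rw [show (4:ℕ) = 2 + 2 by rfl, pow_add, hI2]; ring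
            rw [hI4, hI3, hI2]
            ring
        _ = _ := by
            rw [h₁, h₂]; push_cast; ring
    obtain ⟨r, hr, h⟩ := key
    first | exact (polar_of hr h).1 | exact (polar_of hr h).2

/-- the line `x = 1/4` -/
noncomputable def V0 : Line := by
  refine ⟨⟨fun t => (1 / 4, t), by fun_prop⟩, ⟨fun t => Real.pi / 2 + 2 * Real.pi * t
    + Real.arctan (Real.sin (2 * Real.pi * t)) + Real.arctan (Real.cos (2 * Real.pi * t)),
    by fun_prop⟩, ?_, ?_⟩
  all_goals
    intro t
    have key : ∃ r : ℝ, 0 < r ∧ FF (tor (1 / 4, t)) = (r : ℂ) * exp (((Real.pi / 2 + 2 * Real.pi * t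
        + Real.arctan (Real.sin (2 * Real.pi * t)) + Real.arctan (Real.cos (2 * Real.pi * t)) : ℝ) : ℂ)
          * I) := by
      obtain ⟨r₁, hr₁, h₁⟩ := pr_one_polar (Real.sin (2 * Real.pi * t))
      obtain ⟨r₂, hr₂, h₂⟩ := pr_one_polar (Real.cos (2 * Real.pi * t))
      refine ⟨r₁ * r₂, by positivity, ?_⟩
      have e : exp (((Real.pi / 2 + 2 * Real.pi * t
        + Real.arctan (Real.sin (2 * Real.pi * t)) + Real.arctan (Real.cos (2 * Real.pi * t)) : ℝ) : ℂ)
          * I) = exp ((Real.pi / 2 : ℝ) * I) * exp ((2 * Real.pi * t : ℝ) * I)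
            * exp ((Real.arctan (Real.sin (2 * Real.pi * t)) : ℝ) * I)
            * exp ((Real.arctan (Real.cos (2 * Real.pi * t)) : ℝ) * I) := by
        rw [← Complex.exp_add, ← Complex.exp_add, ← Complex.exp_add]
        congr 1; push_cast; ring
      rw [e, FF_tor, sin_quarter, add_comm (1 / 4 : ℝ) t, sin_add_quarter]
      have h3 := exp_two_pi t
      calc _ = exp ((Real.pi / 2 : ℝ) * I) * exp ((2 * Real.pi * t : ℝ) * I)
            * pr 1 (Real.sin (2 * Real.pi * t)) * pr 1 (Real.cos (2 * Real.pi * t)) := by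
            rw [h3, exp_I_half]
            unfold pr
            push_cast
            generalize (Complex.sin (2 * (Real.pi : ℂ) * t)) = s
            generalize (Complex.cos (2 * (Real.pi : ℂ) * t)) = c
            ring_nf
        _ = _ := by
            rw [h₁, h₂]; push_cast; ring
    obtain ⟨r, hr, h⟩ := key
    first | exact (polar_of hr h).1 | exact (polar_of hr h).2

/-- the line `x = 3/4` -/
noncomputable def V1 : Line := by
  refine ⟨⟨fun t => (3 / 4, t), by fun_prop⟩, ⟨fun t => -(Real.pi / 2) - 2 * Real.pi * t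
    - Real.arctan (Real.sin (2 * Real.pi * t)) + Real.arctan (Real.cos (2 * Real.pi * t)),
    by fun_prop⟩, ?_, ?_⟩
  all_goals
    intro t
    have key : ∃ r : ℝ, 0 < r ∧ FF (tor (3 / 4, t)) = (r : ℂ) * exp (((-(Real.pi / 2) - 2 * Real.pi * t
        - Real.arctan (Real.sin (2 * Real.pi * t)) + Real.arctan (Real.cos (2 * Real.pi * t)) : ℝ) : ℂ)
          * I) := by
      obtain ⟨r₁, hr₁, h₁⟩ := pr_one_polar (-Real.sin (2 * Real.pi * t))
      obtain ⟨r₂, hr₂, h₂⟩ := pr_one_polar (Real.cos (2 * Real.pi * t))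
      refine ⟨r₁ * r₂, by positivity, ?_⟩
      have e : exp (((-(Real.pi / 2) - 2 * Real.pi * t
        - Real.arctan (Real.sin (2 * Real.pi * t)) + Real.arctan (Real.cos (2 * Real.pi * t)) : ℝ) : ℂ)
          * I) = exp (-((Real.pi / 2 : ℝ) * I)) * exp ((2 * Real.pi * (-t) : ℝ) * I)
            * exp ((Real.arctan (-Real.sin (2 * Real.pi * t)) : ℝ) * I)
            * exp ((Real.arctan (Real.cos (2 * Real.pi * t)) : ℝ) * I) := by
        rw [← Complex.exp_add, ← Complex.exp_add, ← Complex.exp_add, Real.arctan_neg]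
        congr 1; push_cast; ring
      have hs : Real.sin (2 * Real.pi * (3 / 4 + t)) = -Real.cos (2 * Real.pi * t) := by
        rw [show 2 * Real.pi * (3 / 4 + t) = 2 * Real.pi * (t + 1 / 4) + Real.pi by ring,
          Real.sin_add_pi, sin_add_quarter]
      rw [e, FF_tor, sin_three_quarters, hs]
      have h3 := exp_two_pi (-t)
      calc _ = exp (-((Real.pi / 2 : ℝ) * I)) * exp ((2 * Real.pi * (-t) : ℝ) * I)
            * pr 1 (-Real.sin (2 * Real.pi * t)) * pr 1 (Real.cos (2 * Real.pi * t)) := by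
            rw [h3, Complex.exp_neg, exp_I_half, mul_neg, Real.cos_neg, Real.sin_neg, inv_I]
            unfold pr
            push_cast
            generalize (Complex.sin (2 * (Real.pi : ℂ) * t)) = s
            generalize (Complex.cos (2 * (Real.pi : ℂ) * t)) = c
            ring_nf
        _ = _ := by
            rw [h₁, h₂]; push_cast; ring
    obtain ⟨r, hr, h⟩ := key
    first | exact (polar_of hr h).1 | exact (polar_of hr h).2

/-- the increment of a circle-valued function along a piece of a lifted line -/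
noncomputable def edge (ℓ : Line) (k : ℤ) (a b : ℝ) (u : C(Surf, 𝕋)) : ℝ :=
  inc (u.comp (ℓ.lift k)) a b

/-- the map `f` as a continuous map -/
noncomputable def ffc : C(Surf, Surf) := ⟨ff, ff.continuous⟩

end Pool.Agent.Hhelper31.Penner
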