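import Pool.Agent.Hhelper31.Penner.Chart

/-!
# The homeomorphism `f (x, y, w) = (x + y, x, G (x, y) / w)` of the surface
-/

namespace Pool.Agent.Hhelper31.Penner

open Set Filter Topology Complex

theorem not_both_zero {p : 𝕋 × 𝕋} (h : FF p ≠ 0) : ¬ (sn p.1 = 0 ∧ sn (p.1 + p.2) = 0) := by
  rintro ⟨h1, h2⟩
  apply h
  unfold FF
  rw [h1, h2]
  simp [pr]

theorem Q0_pos {p : 𝕋 × 𝕋} (h : FF p ≠ 0) : 0 < Q0 p := by
  have := not_both_zero h
  unfold Q0
  by_contra hc
  apply this
  constructor
  · nlinarith [sq_nonneg (sn p.1), sq_nonneg (sn (p.1 + p.2))]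
  · nlinarith [sq_nonneg (sn p.1), sq_nonneg (sn (p.1 + p.2))]

theorem cn_ne_zero_of_sn {x : 𝕋} (h : sn x = 0) : cn x ≠ 0 := by
  intro hc
  have := cn_sq_add_sn_sq x
  rw [h, hc] at this
  norm_num at this

theorem Q1_mem {p : 𝕋 × 𝕋} (h : FF p ≠ 0) : Q1 p ∈ slitPlane := by
  have hn := not_both_zero h
  rw [mem_slitPlane_iff]
  unfold Q1
  rw [pr_re, pr_im]
  by_cases h1 : sn p.1 = 0
  · right
    have h2 : sn (p.1 + p.2) ≠ 0 := fun h2 => hn ⟨h1, h2⟩
    exact mul_ne_zero (mul_ne_zero two_ne_zero (pow_ne_zero 2 h2)) (cn_ne_zero_of_sn h1)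
  · left; positivity

theorem Q2_mem {p : 𝕋 × 𝕋} (h : FF p ≠ 0) : Q2 p ∈ slitPlane := by
  have hn := not_both_zero h
  rw [mem_slitPlane_iff]
  unfold Q2
  rw [pr_re, pr_im]
  by_cases h1 : sn (p.1 + p.2) = 0
  · right
    have h2 : sn p.1 ≠ 0 := fun h2 => hn ⟨h2, h1⟩
    exact neg_ne_zero.2 (mul_ne_zero (mul_ne_zero two_ne_zero (pow_ne_zero 2 h2))
      (cn_ne_zero_of_sn h1))
  · left; positivity

/-- The fourth root `G` of `F(x,y) F(x+y,x)`. -/
noncomputable def GG (p : 𝕋 × 𝕋) : ℂ :=
  (Q0 p : ℂ) ^ ((4 : ℕ) : ℂ)⁻¹ * Q1 p ^ ((4 : ℕ) : ℂ)⁻¹ * Q2 p ^ ((4 : ℕ) : ℂ)⁻¹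

theorem GG_pow (p : 𝕋 × 𝕋) : GG p ^ 4 = FF p * FF (p.1 + p.2, p.1) := by
  rw [FF_mul_FF, GG, mul_pow, mul_pow, cpow_nat_inv_pow _ (by norm_num),
    cpow_nat_inv_pow _ (by norm_num), cpow_nat_inv_pow _ (by norm_num)]

theorem continuous_Q0 : Continuous Q0 := by
  have h1 := continuous_sn
  unfold Q0; fun_prop

theorem continuous_Q1 : Continuous Q1 := by
  have h1 := continuous_sn
  have h2 := continuous_cn
  unfold Q1 pr; fun_prop

theorem continuous_Q2 : Continuous Q2 := by
  have h1 := continuous_sn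
  have h2 := continuous_cn
  unfold Q2 pr; fun_prop

theorem continuousAt_GG {p : 𝕋 × 𝕋} (h : FF p ≠ 0) : ContinuousAt GG p := by
  unfold GG
  refine ContinuousAt.mul (ContinuousAt.mul ?_ ?_) ?_
  · refine ContinuousAt.cpow (Complex.continuous_ofReal.comp continuous_Q0).continuousAt
      continuousAt_const ?_
    exact Complex.ofReal_mem_slitPlane.2 (Q0_pos h)
  · exact ContinuousAt.cpow continuous_Q1.continuousAt continuousAt_const (Q1_mem h)
  · exact ContinuousAt.cpow continuous_Q2.continuousAt continuousAt_const (Q2_mem h)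

theorem FF_next_ne {p : 𝕋 × 𝕋} (h : FF p ≠ 0) : FF (p.1 + p.2, p.1) ≠ 0 := by
  intro h0
  rw [FF_eq_zero_iff] at h0
  exact not_both_zero h ⟨h0.2, h0.1⟩

theorem FF_prev_ne {p : 𝕋 × 𝕋} (h : FF p ≠ 0) : FF (p.2, p.1 - p.2) ≠ 0 := by
  intro h0
  rw [FF_eq_zero_iff] at h0
  obtain ⟨h1, h2⟩ := h0
  apply h
  rw [FF_eq_zero_iff]
  refine ⟨?_, h1⟩
  have : p.1 = p.2 + (p.1 - p.2) := by abel
  rw [this, sn_add]
  simp only at h1 h2
  rw [h1, h2]; ring

theorem GG_ne {p : 𝕋 × 𝕋} (h : FF p ≠ 0) : GG p ≠ 0 := by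
  intro h0
  have := GG_pow p
  rw [h0] at this
  have h1 : FF p * FF (p.1 + p.2, p.1) = 0 := by rw [← this]; norm_num
  rcases mul_eq_zero.1 h1 with h2 | h2
  · exact h h2
  · exact FF_next_ne h h2

/-- the map underlying `f` -/
noncomputable def fFun (q : Surf) : Surf :=
  Surf.mk (q.base.1 + q.base.2, q.base.1) (GG q.base / q.root)
    (div_ne_zero (GG_ne q.FF_ne) q.root_ne) (by
      rw [div_pow, GG_pow, q.root_pow, mul_div_cancel_left₀ _ q.FF_ne])

/-- the map underlying the inverse of `f` -/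
noncomputable def fInv (q : Surf) : Surf :=
  Surf.mk (q.base.2, q.base.1 - q.base.2) (GG (q.base.2, q.base.1 - q.base.2) / q.root)
    (div_ne_zero (GG_ne (FF_prev_ne q.FF_ne)) q.root_ne) (by
      have e : ((q.base.2, q.base.1 - q.base.2) : 𝕋 × 𝕋).1
          + ((q.base.2, q.base.1 - q.base.2) : 𝕋 × 𝕋).2 = q.base.1 := by simp
      rw [div_pow, GG_pow, q.root_pow, e]
      change FF (q.base.2, q.base.1 - q.base.2) * FF (q.base.1, q.base.2) / FF q.base = _
      rw [Prod.mk.eta, mul_div_cancel_right₀ _ q.FF_ne])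

@[simp] theorem fFun_base (q : Surf) : (fFun q).base = (q.base.1 + q.base.2, q.base.1) := rfl

@[simp] theorem fFun_root (q : Surf) : (fFun q).root = GG q.base / q.root := rfl

@[simp] theorem fInv_base (q : Surf) : (fInv q).base = (q.base.2, q.base.1 - q.base.2) := rfl

@[simp] theorem fInv_root (q : Surf) :
    (fInv q).root = GG (q.base.2, q.base.1 - q.base.2) / q.root := rfl

/-- The homeomorphism `f` of the surface. -/
noncomputable def ff : Surf ≃ₜ Surf where
  toFun := fFun
  invFun := fInv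
  left_inv q := by
    apply Surf.ext
    · rw [fInv_base, fFun_base]; simp
    · rw [fInv_root, fFun_root, fFun_base]
      have e : (((q.base.1 + q.base.2, q.base.1) : 𝕋 × 𝕋).2,
          ((q.base.1 + q.base.2, q.base.1) : 𝕋 × 𝕋).1 -
          ((q.base.1 + q.base.2, q.base.1) : 𝕋 × 𝕋).2) = q.base := by simp
      rw [e]
      have h1 := GG_ne q.FF_ne
      have h2 := q.root_ne
      field_simp
  right_inv q := by
    apply Surf.ext
    · rw [fFun_base, fInv_base]; simp
    · rw [fFun_root, fInv_root, fInv_base]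
      have h1 := GG_ne (FF_prev_ne q.FF_ne)
      have h2 := q.root_ne
      field_simp
  continuous_toFun := by
    refine Surf.continuous_mk ?_ ?_ _ _
    · have := Surf.continuous_base; fun_prop
    · refine Continuous.div ?_ Surf.continuous_root (fun q => q.root_ne)
      rw [continuous_iff_continuousAt]
      intro q
      exact ContinuousAt.comp (f := Surf.base) (g := GG) (continuousAt_GG q.FF_ne)
        Surf.continuous_base.continuousAt
  continuous_invFun := by
    have hb : Continuous fun q : Surf => ((q.base.2, q.base.1 - q.base.2) : 𝕋 × 𝕋) := by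
      have := Surf.continuous_base; fun_prop
    refine Surf.continuous_mk hb ?_ _ _
    refine Continuous.div ?_ Surf.continuous_root (fun q => q.root_ne)
    rw [continuous_iff_continuousAt]
    intro q
    exact ContinuousAt.comp (f := fun q : Surf => ((q.base.2, q.base.1 - q.base.2) : 𝕋 × 𝕋))
      (g := GG) (continuousAt_GG (FF_prev_ne q.FF_ne)) hb.continuousAt

@[simp] theorem ff_base (q : Surf) : (ff q).base = (q.base.1 + q.base.2, q.base.1) := rfl

@[simp] theorem ff_root (q : Surf) : (ff q).root = GG q.base / q.root := rfl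

/-- the matrix of `f` -/
noncomputable def AA : ℝ × ℝ →L[ℝ] ℝ × ℝ :=
  LinearMap.toContinuousLinearMap
    (Matrix.toLin (Module.Basis.finTwoProd ℝ) (Module.Basis.finTwoProd ℝ) !![1, 1; 1, 0])

theorem AA_apply (z : ℝ × ℝ) : AA z = (z.1 + z.2, z.1) := by
  unfold AA
  rw [LinearMap.coe_toContinuousLinearMap', Matrix.toLin_finTwoProd_apply]
  simp

theorem AA_det : AA.det = -1 := by
  unfold AA
  rw [LinearMap.det_toContinuousLinearMap, LinearMap.det_toLin, Matrix.det_fin_two_of]
  norm_num

theorem tor_AA (z : ℝ × ℝ) : tor (AA z) = ((tor z).1 + (tor z).2, (tor z).1) := by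
  rw [AA_apply]
  unfold tor
  simp

theorem ff_eventually {e e' : OpenPartialHomeomorph Surf (ℝ × ℝ)} (he : IsFlat e)
    (he' : IsFlat e') {x : Surf} (hx : x ∈ e.source) (hx' : ff x ∈ e'.source) :
    ∀ᶠ y in 𝓝 x, e' (ff y) = AA (e y) + (e' (ff x) - AA (e x)) := by
  apply eventually_const_of_tor
  · exact ContinuousAt.comp (f := ff) (g := e') (e'.continuousAt hx') ff.continuous.continuousAt
  · exact AA.continuous.continuousAt.comp (e.continuousAt hx)
  · filter_upwards [he.eventually hx, ff.continuous.continuousAt.eventually (he'.eventually hx')]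
      with y h1 h2
    rw [h2, tor_AA, h1, ff_base]

theorem ff_orientationReversing : OrientationReversing atlas ff := by
  intro e he e' he' z hz hz'
  have h3 : e.symm z ∈ e.source := e.map_target hz
  have h4 := ff_eventually he he' h3 hz'
  have h5 := (e.symm.continuousAt (x := z) hz).eventually h4
  set c := e' (ff (e.symm z)) - AA (e (e.symm z))
  have h6 : (fun z => e' (ff (e.symm z))) =ᶠ[𝓝 z] fun z => AA z + c := by
    filter_upwards [h5, e.open_target.mem_nhds hz] with y hy hy'
    rw [hy, e.right_inv hy']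
  have hd : HasFDerivAt (fun z => AA z + c) AA z := AA.hasFDerivAt.add_const c
  refine ⟨?_, ?_⟩
  · refine ContDiffAt.congr_of_eventuallyEq ?_ h6
    exact (AA.contDiff.contDiffAt).add contDiffAt_const
  · rw [h6.fderiv_eq, hd.fderiv, AA_det]
    norm_num

open Real in
/-- rotation to the eigendirections of the matrix of `f` -/
noncomputable def rot : (ℝ × ℝ) ≃ₜ (ℝ × ℝ) where
  toFun z := (goldenRatio * z.1 + z.2, goldenRatio * z.2 - z.1)
  invFun z := ((goldenRatio * z.1 - z.2) / (goldenRatio ^ 2 + 1),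
    (z.1 + goldenRatio * z.2) / (goldenRatio ^ 2 + 1))
  left_inv z := by
    have h : goldenRatio ^ 2 + 1 ≠ 0 := by positivity
    ext
    · simp only; field_simp; ring
    · simp only; field_simp; ring
  right_inv z := by
    have h : goldenRatio ^ 2 + 1 ≠ 0 := by positivity
    ext
    · simp only; field_simp; ring
    · simp only; field_simp; ring
  continuous_toFun := by fun_prop
  continuous_invFun := by fun_prop

theorem rot_apply (z : ℝ × ℝ) :
    rot z = (Real.goldenRatio * z.1 + z.2, Real.goldenRatio * z.2 - z.1) := rfl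

theorem rot_add (z c : ℝ × ℝ) : rot (z + c) = ((rot z).1 + (rot c).1, (rot z).2 + (rot c).2) := by
  simp only [rot_apply, Prod.fst_add, Prod.snd_add]
  ext
  · simp only; ring
  · simp only; ring

/-- the foliation charts -/
def folCharts : Set (OpenPartialHomeomorph Surf (ℝ × ℝ)) :=
  {e' | ∃ e, IsFlat e ∧ e' = e.trans rot.toOpenPartialHomeomorph}

theorem folChart_source (e : OpenPartialHomeomorph Surf (ℝ × ℝ)) :
    (e.trans rot.toOpenPartialHomeomorph).source = e.source := by
  simp

theorem folChart_apply (e : OpenPartialHomeomorph Surf (ℝ × ℝ)) (x : Surf) :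
    (e.trans rot.toOpenPartialHomeomorph) x = rot (e x) := rfl

/-- Existence of puncture charts adapted to the flat structure (proved in another file). -/
def GoodPunctures (P : PunctureCharts Surf) : Prop :=
  ∀ j, ∀ y ∈ (P.chart j).source, ∃ e : OpenPartialHomeomorph Surf (ℝ × ℝ), IsFlat e ∧
    y ∈ e.source ∧ ∃ (c : ℂ) (A : ℝ), 0 < A ∧
      ∀ᶠ z in 𝓝 y, ((Real.goldenRatio : ℂ) - I) * (((e z).1 : ℂ) + (e z).2 * I - c)
        = A * (P.chart j z) ^ 4

/-- The pair of transverse foliations preserved by `f`. -/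
noncomputable def foliations (P : PunctureCharts Surf) (hP : GoodPunctures P) :
    TransverseFoliations Surf where
  punctures := P
  sing := ∅
  sing_finite := Set.finite_empty
  charts := folCharts
  avoid e _ := Set.disjoint_empty _
  covers x _ := by
    obtain ⟨e, he, hx⟩ := exists_flat x
    exact ⟨_, ⟨e, he, rfl⟩, by rw [folChart_source]; exact hx⟩
  compat := by
    rintro _ ⟨e, he, rfl⟩ _ ⟨e', he', rfl⟩ x ⟨hx, hx'⟩
    rw [folChart_source] at hx hx'
    refine ⟨1, 1, (rot (e' x - e x)).1, (rot (e' x - e x)).2, by norm_num, by norm_num, ?_⟩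
    filter_upwards [flat_transition he he' hx hx'] with y hy
    rw [folChart_apply, folChart_apply, hy, rot_add]
    simp
  interior_prong x hx := absurd hx (Set.notMem_empty x)
  puncture_prong j := by
    refine ⟨8, by norm_num, fun y hy => ?_⟩
    obtain ⟨e, he, hye, c, A, hA, h⟩ := hP j y hy
    refine ⟨_, ⟨e, he, rfl⟩, by rw [folChart_source]; exact hye,
      ((Real.goldenRatio : ℂ) - I) * c, A ^ 2, by positivity, ?_⟩
    filter_upwards [h] with z hz
    rw [folChart_apply, rot_apply]
    have : (((Real.goldenRatio * (e z).1 + (e z).2 : ℝ)) : ℂ)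
        + ((Real.goldenRatio * (e z).2 - (e z).1 : ℝ)) * I
        - ((Real.goldenRatio : ℂ) - I) * c
        = ((Real.goldenRatio : ℂ) - I) * (((e z).1 : ℂ) + (e z).2 * I - c) := by
      push_cast
      linear_combination ((e z).2 : ℂ) * I_sq
    simp only at this ⊢
    rw [this, hz]
    push_cast
    ring

theorem ff_pseudoAnosov (P : PunctureCharts Surf) (hP : GoodPunctures P) :
    IsPseudoAnosovWith (foliations P hP) Real.goldenRatio ff := by
  refine ⟨Real.one_lt_goldenRatio, by simp [foliations], ?_⟩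
  rintro _ ⟨e, he, rfl⟩ _ ⟨e', he', rfl⟩ x hx hx'
  rw [folChart_source] at hx hx'
  set c := e' (ff x) - AA (e x) with hc
  refine ⟨1, -1, (rot c).1, (rot c).2, by norm_num, by norm_num, ?_⟩
  filter_upwards [ff_eventually he he' hx hx'] with y hy
  rw [folChart_apply, folChart_apply, hy, rot_add, AA_apply]
  have h1 : Real.goldenRatio ^ 2 = Real.goldenRatio + 1 := Real.goldenRatio_sq
  have h2 : Real.goldenRatio⁻¹ = Real.goldenRatio - 1 := by
    refine (eq_inv_of_mul_eq_one_left ?_).symm
    linear_combination h1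
  rw [h2]
  simp only [rot_apply]
  ext
  · simp only
    linear_combination (-(e y).1) * h1
  · simp only
    linear_combination (e y).2 * h1

end Pool.Agent.Hhelper31.Penner
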