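import Pool.Agent.Hhelper31.Penner.Map

/-!
# Puncture charts of the surface
-/

namespace Pool.Agent.Hhelper31.Penner

open Set Filter Topology Complex

/-- a complex number as a point of the plane -/
def VV2 (z : ℂ) : ℝ × ℝ := (z.re, z.im)

theorem continuous_VV2 : Continuous VV2 := Complex.continuous_re.prodMk Complex.continuous_im

theorem FF_neg (p : 𝕋 × 𝕋) : FF (-p) = -FF p := by
  have h : ∀ a b : ℝ, pr (-a) (-b) = -pr a b := by intro a b; unfold pr; push_cast; ring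
  unfold FF
  have e : (-p).1 + (-p).2 = -(p.1 + p.2) := by simp [add_comm]
  rw [e, Prod.fst_neg, Prod.snd_neg, sn_neg, sn_neg, sn_neg, h, h, h]
  ring

theorem tor_add (p q : ℝ × ℝ) : tor (p + q) = tor p + tor q := by
  unfold tor; ext <;> simp

theorem tor_sub (p q : ℝ × ℝ) : tor (p - q) = tor p - tor q := by
  unfold tor; ext <;> simp

/-- half-integral points of the plane -/
def Half (P : ℝ × ℝ) : Prop := ∃ m n : ℤ, P.1 = m / 2 ∧ P.2 = n / 2

theorem Half.two {P : ℝ × ℝ} (hP : Half P) : tor P + tor P = 0 := by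
  obtain ⟨m, n, h1, h2⟩ := hP
  rw [← tor_add]
  have : tor (P + P) = tor 0 := by
    rw [tor_eq_iff]
    refine ⟨⟨m, ?_⟩, ⟨n, ?_⟩⟩
    · simp [h1]
    · simp [h2]
  rw [this]
  unfold tor; simp

theorem FF_odd {P : ℝ × ℝ} (hP : Half P) (v : ℝ × ℝ) : FF (tor (P - v)) = -FF (tor (P + v)) := by
  have h2 : tor P = -tor P := eq_neg_of_add_eq_zero_left hP.two
  have : tor (P - v) = -tor (P + v) := by
    rw [tor_sub, tor_add, neg_add, ← h2, sub_eq_add_neg]
  rw [this, FF_neg]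

theorem sn_half (x : ℝ) : sn (x : 𝕋) = 0 ↔ ∃ n : ℤ, x = n / 2 := by
  rw [sn_coe, Real.sin_eq_zero_iff]
  have hpi := Real.pi_pos
  constructor
  · rintro ⟨n, hn⟩
    refine ⟨n, ?_⟩
    field_simp
    nlinarith [mul_left_cancel₀ hpi.ne' (show Real.pi * (n : ℝ) = Real.pi * (2 * x) by linarith)]
  · rintro ⟨n, hn⟩
    exact ⟨n, by rw [hn]; ring⟩

theorem abs_int_half_lt {m : ℤ} {x : ℝ} (h : x = m / 2) (hx : |x| < 1 / 2) : x = 0 := by
  have h1 : |(m : ℝ)| < 1 := by
    rw [h, abs_div] at hx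
    norm_num at hx
    linarith
  have h2 : |m| < 1 := by exact_mod_cast h1
  rw [Int.abs_lt_one_iff] at h2
  rw [h, h2]; simp

/-- near a half-integral point `F` vanishes only at the point -/
theorem FF_ne_near {P : ℝ × ℝ} (hP : Half P) {z : ℂ} (hz : z ≠ 0) (hz8 : ‖z‖ < 1 / 8) :
    FF (tor (P + VV2 z)) ≠ 0 := by
  intro h
  rw [FF_eq_zero_iff] at h
  obtain ⟨m, n, h1, h2⟩ := hP
  obtain ⟨m', hm'⟩ := (sn_half _).1 h.1
  obtain ⟨n', hn'⟩ := (sn_half _).1 h.2
  simp only [Prod.fst_add, Prod.snd_add, VV2] at hm' hn'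
  have hre : z.re = ((m' - m : ℤ) : ℝ) / 2 := by push_cast; linarith
  have him : z.im = ((n' - n : ℤ) : ℝ) / 2 := by push_cast; linarith
  have h3 := abs_int_half_lt hre (by linarith [Complex.abs_re_le_norm z])
  have h4 := abs_int_half_lt him (by linarith [Complex.abs_im_le_norm z])
  exact hz (Complex.ext h3 h4)

theorem VV2_eq_of_tor {P P' : ℝ × ℝ} (hP : Half P) (hP' : Half P') {z z' : ℂ} (hz : ‖z‖ < 1 / 8)
    (hz' : ‖z'‖ < 1 / 8) (h : tor (P + VV2 z) = tor (P' + VV2 z')) : z = z' ∧ tor P = tor P' := by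
  obtain ⟨⟨m, hm⟩, ⟨n, hn⟩⟩ := (tor_eq_iff _ _).1 h
  obtain ⟨a, b, ha, hb⟩ := hP
  obtain ⟨a', b', ha', hb'⟩ := hP'
  simp only [Prod.fst_add, Prod.snd_add, VV2] at hm hn
  have hre : z.re - z'.re = ((2 * m + a' - a : ℤ) : ℝ) / 2 := by push_cast; linarith
  have him : z.im - z'.im = ((2 * n + b' - b : ℤ) : ℝ) / 2 := by push_cast; linarith
  have b1 := abs_lt.1 (lt_of_le_of_lt (Complex.abs_re_le_norm z) hz)
  have b2 := abs_lt.1 (lt_of_le_of_lt (Complex.abs_im_le_norm z) hz)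
  have b3 := abs_lt.1 (lt_of_le_of_lt (Complex.abs_re_le_norm z') hz')
  have b4 := abs_lt.1 (lt_of_le_of_lt (Complex.abs_im_le_norm z') hz')
  have h3 := abs_int_half_lt hre (abs_lt.2 ⟨by linarith [b1.1, b3.2], by linarith [b1.2, b3.1]⟩)
  have h4 := abs_int_half_lt him (abs_lt.2 ⟨by linarith [b2.1, b4.2], by linarith [b2.2, b4.1]⟩)
  refine ⟨Complex.ext (by linarith) (by linarith), ?_⟩
  rw [tor_eq_iff]
  exact ⟨⟨m, by linarith⟩, ⟨n, by linarith⟩⟩

section chart

variable (P : ℝ × ℝ) (μ : ℂ)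

/-- the displacement `(|μ|/(8 μ)) ζ` -/
noncomputable def zz (ζ : ℂ) : ℂ := (‖μ‖ / 8 : ℝ) / μ * ζ

variable {μ}

theorem norm_zz (hμ : μ ≠ 0) (ζ : ℂ) : ‖zz μ ζ‖ = ‖ζ‖ / 8 := by
  have h : ‖μ‖ ≠ 0 := norm_ne_zero_iff.2 hμ
  unfold zz
  rw [norm_mul, norm_div, Complex.norm_real, Real.norm_eq_abs, abs_of_nonneg (by positivity)]
  field_simp

theorem zz_neg (ζ : ℂ) : zz μ (-ζ) = -zz μ ζ := by unfold zz; ring

theorem zz_ne (hμ : μ ≠ 0) {ζ : ℂ} (hζ : ζ ≠ 0) : zz μ ζ ≠ 0 := by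
  rw [← norm_ne_zero_iff, norm_zz hμ]
  have : ‖ζ‖ ≠ 0 := norm_ne_zero_iff.2 hζ
  positivity

theorem zz_inj (hμ : μ ≠ 0) {ζ ζ' : ℂ} (h : zz μ ζ = zz μ ζ') : ζ = ζ' := by
  by_contra hne
  have h1 : ζ - ζ' ≠ 0 := sub_ne_zero.2 hne
  apply zz_ne hμ h1
  unfold zz at *
  rw [mul_sub, h, sub_self]

theorem continuous_zz : Continuous (zz μ) := by unfold zz; fun_prop

theorem mul_zz (hμ : μ ≠ 0) (ζ : ℂ) : μ * zz μ ζ = ((‖μ‖ / 8 : ℝ) : ℂ) * ζ := by
  unfold zz; field_simp

/-- the left half plane -/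
def HP : Set ℂ := {s | s.re < 0}

theorem isOpen_HP : IsOpen HP := isOpen_lt Complex.continuous_re continuous_const

theorem convex_HP : Convex ℝ HP := convex_halfSpace_re_lt 0

theorem norm_exp_lt {s : ℂ} (hs : s ∈ HP) : ‖exp s‖ < 1 := by
  rw [Complex.norm_exp]; exact Real.exp_lt_one_iff.2 hs

/-- Existence of a continuous logarithm with odd period. -/
theorem exists_log {P : ℝ × ℝ} (hP : Half P) (hμ : μ ≠ 0) : ∃ (l : ℂ → ℂ) (N : ℤ),
    ContinuousOn l HP ∧ (∀ s ∈ HP, exp (l s) = FF (tor (P + VV2 (zz μ (exp s))))) ∧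
    Odd N ∧ ∀ s ∈ HP, l (s + 2 * Real.pi * I) = l s + 2 * Real.pi * I * N := by
  have hne : ∀ s ∈ HP, FF (tor (P + VV2 (zz μ (exp s)))) ≠ 0 := fun s hs =>
    FF_ne_near hP (zz_ne hμ (exp_ne_zero s)) (by
      rw [norm_zz hμ]; linarith [norm_exp_lt hs])
  have hc : Continuous fun s : ℂ => FF (tor (P + VV2 (zz μ (exp s)))) :=
    continuous_FF.comp (continuous_tor.comp (continuous_const.add
      (continuous_VV2.comp (continuous_zz.comp Complex.continuous_exp))))
  have hsc : IsSimplyConnected HP := by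
    have : ContractibleSpace HP := convex_HP.contractibleSpace ⟨-1, by simp [HP]⟩
    change SimplyConnectedSpace HP
    infer_instance
  obtain ⟨l, hl, hle⟩ := Complex.exists_continuousOn_eqOn_exp_comp hsc isOpen_HP
    (g := fun s => FF (tor (P + VV2 (zz μ (exp s))))) hc.continuousOn (by
      rintro ⟨s, hs, h0⟩; exact hne s hs h0)
  have hle' : ∀ s ∈ HP, exp (l s) = FF (tor (P + VV2 (zz μ (exp s)))) := fun s hs => hle hs
  have hshift : ∀ s ∈ HP, s + Real.pi * I ∈ HP := by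
    intro s hs
    change (s + Real.pi * I).re < 0
    simp only [Complex.add_re, Complex.mul_re, Complex.ofReal_re, Complex.I_re,
      Complex.ofReal_im, Complex.I_im]
    have : s.re < 0 := hs
    linarith
  have hodd : ∀ s ∈ HP, ∃ n : ℤ, l (s + Real.pi * I) = l s + Real.pi * I * (2 * n + 1) := by
    intro s hs
    have h1 := hle' _ (hshift s hs)
    have h2 : exp (s + Real.pi * I) = -exp s := by rw [Complex.exp_add, exp_pi_mul_I]; ring
    have h3 : VV2 (zz μ (-exp s)) = -VV2 (zz μ (exp s)) := by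
      rw [zz_neg]; unfold VV2; ext <;> simp
    rw [h2, h3, ← sub_eq_add_neg, FF_odd hP, ← hle' s hs] at h1
    have h4 : exp (l (s + Real.pi * I)) = exp (l s + Real.pi * I) := by
      rw [h1, Complex.exp_add, exp_pi_mul_I]; ring
    obtain ⟨n, hn⟩ := Complex.exp_eq_exp_iff_exists_int.1 h4
    exact ⟨n, by rw [hn]; ring⟩
  choose! n hn using hodd
  have hpi : (Real.pi : ℂ) * I ≠ 0 := mul_ne_zero (by exact_mod_cast Real.pi_ne_zero) I_ne_zero
  have hnconst : ∀ s ∈ HP, ∀ s' ∈ HP, n s = n s' := by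
    have hcn : ContinuousOn (fun s => ((n s : ℤ) : ℝ)) HP := by
      have h5 : ContinuousOn (fun s => (((l (s + Real.pi * I) - l s) / (Real.pi * I) - 1) / 2).re) HP := by
        have h6 : ContinuousOn (fun s => l (s + Real.pi * I)) HP :=
          hl.comp (by fun_prop) hshift
        exact Complex.continuous_re.comp_continuousOn (((h6.sub hl).div_const _).sub
          continuousOn_const |>.div_const _)
      refine h5.congr fun s hs => ?_
      have : ((l (s + Real.pi * I) - l s) / (Real.pi * I) - 1) / 2 = ((n s : ℤ) : ℂ) := by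
        rw [hn s hs]; field_simp; ring
      change ((n s : ℤ) : ℝ) = (((l (s + Real.pi * I) - l s) / (Real.pi * I) - 1) / 2).re
      rw [this]; simp
    have hpre : IsPreconnected HP := convex_HP.isPreconnected
    intro s hs s' hs'
    have hint : ContinuousOn n HP := by
      intro x hx
      have := (hcn x hx)
      exact Int.isClosedEmbedding_coe_real.isEmbedding.continuousWithinAt_iff.mpr this
    exact hpre.constant hint hs hs'
  have h1mem : (-1 : ℂ) ∈ HP := by simp [HP]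
  refine ⟨l, 2 * n (-1) + 1, hl, hle', ⟨n (-1), rfl⟩, ?_⟩
  intro s hs
  have e1 := hn s hs
  have e2 := hn _ (hshift s hs)
  rw [hnconst _ (hshift s hs) _ h1mem, e1] at e2
  rw [hnconst s hs _ h1mem] at e2
  have : s + 2 * Real.pi * I = s + Real.pi * I + Real.pi * I := by ring
  rw [this, e2]
  push_cast; ring

end chart

end Pool.Agent.Hhelper31.Penner
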