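import Pool.Agent.Hhelper31.Penner.Puncture
import Pool.Agent.Hhelper31.Penner.Connected

/-!
# Puncture charts of the surface, II
-/

namespace Pool.Agent.Hhelper31.Penner

open Set Filter Topology Complex

/-- the punctured unit disc -/
def DD : Set ℂ := {z | z ≠ 0 ∧ ‖z‖ < 1}

theorem isOpen_DD : IsOpen DD := isOpen_ne.inter (isOpen_lt continuous_norm continuous_const)

theorem mem_DD_of_norm {z w : ℂ} (h : ‖z‖ = ‖w‖) (hw : w ∈ DD) : z ∈ DD :=
  ⟨by rw [← norm_ne_zero_iff, h]; exact norm_ne_zero_iff.2 hw.1, by rw [h]; exact hw.2⟩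

variable {μ : ℂ}

theorem log_mem_HP {ζ : ℂ} (hζ : ζ ∈ DD) : 4 * log ζ ∈ HP := by
  change (4 * log ζ).re < 0
  have h1 : (4 * log ζ).re = 4 * Real.log ‖ζ‖ := by
    simp [Complex.mul_re, Complex.log_re]
  rw [h1]
  have := Real.log_neg (norm_pos_iff.2 hζ.1) hζ.2
  linarith

theorem exp_four_log {ζ : ℂ} (hζ : ζ ≠ 0) : exp (4 * log ζ) = ζ ^ 4 := by
  have := Complex.exp_nat_mul (log ζ) 4
  push_cast at this
  rw [this, Complex.exp_log hζ]

theorem exists_root {P : ℝ × ℝ} (hP : Half P) (hμ : μ ≠ 0) : ∃ (R : ℂ → ℂ) (u : ℂ),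
    (u = I ∨ u = -I) ∧ ContinuousOn R DD ∧
    (∀ ζ ∈ DD, R ζ ^ 4 = FF (tor (P + VV2 (zz μ (ζ ^ 4))))) ∧ ∀ ζ ∈ DD, R (I * ζ) = u * R ζ := by
  obtain ⟨l, N, hl, hle, hN, hper⟩ := exists_log hP hμ
  -- invariance of the half plane
  have hHP : ∀ (n : ℤ), ∀ s ∈ HP, s + 2 * Real.pi * I * n ∈ HP := by
    intro n s hs
    change (s + 2 * Real.pi * I * n).re < 0
    have : (s + 2 * Real.pi * I * n).re = s.re := by simp
    rw [this]; exact hs
  have hper' : ∀ (n : ℤ), ∀ s ∈ HP, l (s + 2 * Real.pi * I * n) = l s + 2 * Real.pi * I * N * n := by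
    intro n
    induction n using Int.induction_on with
    | zero => intro s _; simp
    | succ i ih =>
      intro s hs
      have h1 := hper _ (hHP i s hs)
      rw [ih s hs] at h1
      have e : s + 2 * Real.pi * I * ((i : ℤ) + 1 : ℤ) = s + 2 * Real.pi * I * (i : ℤ) + 2 * Real.pi * I := by
        push_cast; ring
      rw [e, h1]; push_cast; ring
    | pred i ih =>
      intro s hs
      have e : s + 2 * Real.pi * I * ((-(i : ℤ)) : ℤ)
          = (s + 2 * Real.pi * I * ((-(i : ℤ) - 1 : ℤ))) + 2 * Real.pi * I := by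
        push_cast; ring
      have h1 := hper _ (hHP (-(i : ℤ) - 1) s hs)
      rw [← e, ih s hs] at h1
      have h2 : l (s + 2 * Real.pi * I * ((-(i : ℤ) - 1 : ℤ)))
          = l s + 2 * Real.pi * I * N * ((-(i : ℤ)) : ℤ) - 2 * Real.pi * I * N := by
        rw [h1]; ring
      rw [h2]; push_cast; ring
  set W : ℂ → ℂ := fun s => exp (l s / 4) with hW
  have hW4 : ∀ s ∈ HP, W s ^ 4 = FF (tor (P + VV2 (zz μ (exp s)))) := by
    intro s hs
    rw [← hle s hs, hW]
    simp only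
    rw [← Complex.exp_nat_mul]
    congr 1
    push_cast; ring
  set u : ℂ := exp (2 * Real.pi * I * N / 4) with hu
  have hu4 : u ^ 4 = 1 := by
    rw [hu, ← Complex.exp_nat_mul, Complex.exp_eq_one_iff]
    exact ⟨N, by push_cast; ring⟩
  have hu2 : u ^ 2 = -1 := by
    rw [hu, ← Complex.exp_nat_mul]
    obtain ⟨k, hk⟩ := hN
    have : ((2 : ℕ) : ℂ) * (2 * Real.pi * I * N / 4) = k * (2 * Real.pi * I) + Real.pi * I := by
      rw [hk]; push_cast; ring
    rw [this, Complex.exp_add, Complex.exp_int_mul_two_pi_mul_I, exp_pi_mul_I]; ring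
  have huI : u = I ∨ u = -I := by
    have : (u - I) * (u + I) = 0 := by
      have : (u - I) * (u + I) = u ^ 2 - I ^ 2 := by ring
      rw [this, hu2, I_sq]; ring
    rcases mul_eq_zero.1 this with h | h
    · exact Or.inl (sub_eq_zero.1 h)
    · exact Or.inr (eq_neg_of_add_eq_zero_left h)
  have hWper : ∀ (n : ℤ), ∀ s ∈ HP, W (s + 2 * Real.pi * I * n) = W s * u ^ n := by
    intro n s hs
    rw [hW]
    simp only
    rw [hper' n s hs, hu, ← Complex.exp_int_mul, ← Complex.exp_add]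
    congr 1
    ring
  have hWc : ContinuousOn W HP := by
    exact Complex.continuous_exp.comp_continuousOn (hl.div_const _)
  refine ⟨fun ζ => W (4 * log ζ), u, huI, ?_, ?_, ?_⟩
  · -- continuity
    intro ζ₀ hζ₀
    have h1 : ContinuousAt (fun ζ : ℂ => log (ζ / ζ₀)) ζ₀ := by
      refine ContinuousAt.clog (by fun_prop) ?_
      rw [div_self hζ₀.1]; exact one_mem_slitPlane
    have h2 : ContinuousAt (fun ζ : ℂ => W (4 * log (ζ / ζ₀) + 4 * log ζ₀)) ζ₀ := by
      have h3 : ContinuousAt W (4 * log (ζ₀ / ζ₀) + 4 * log ζ₀) := by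
        rw [div_self hζ₀.1, Complex.log_one, mul_zero, zero_add]
        exact hWc.continuousAt (isOpen_HP.mem_nhds (log_mem_HP hζ₀))
      exact ContinuousAt.comp (f := fun ζ : ℂ => 4 * log (ζ / ζ₀) + 4 * log ζ₀) (g := W) h3
        ((continuousAt_const.mul h1).add continuousAt_const)
    refine (h2.congr ?_).continuousWithinAt
    filter_upwards [isOpen_DD.mem_nhds hζ₀] with ζ hζ
    have h4 : exp (log (ζ / ζ₀) + log ζ₀) = exp (log ζ) := by
      rw [Complex.exp_add, Complex.exp_log (div_ne_zero hζ.1 hζ₀.1), Complex.exp_log hζ₀.1,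
        Complex.exp_log hζ.1, div_mul_cancel₀ _ hζ₀.1]
    obtain ⟨n, hn⟩ := Complex.exp_eq_exp_iff_exists_int.1 h4
    have h5 : 4 * log (ζ / ζ₀) + 4 * log ζ₀ = 4 * log ζ + 2 * Real.pi * I * ((4 * n : ℤ)) := by
      push_cast
      linear_combination 4 * hn
    rw [h5, hWper _ _ (log_mem_HP hζ), zpow_mul]
    have : u ^ (4 : ℤ) = 1 := by exact_mod_cast hu4
    rw [this, one_zpow, mul_one]
  · intro ζ hζ
    change W (4 * log ζ) ^ 4 = _
    rw [hW4 _ (log_mem_HP hζ), exp_four_log hζ.1]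
  · intro ζ hζ
    change W (4 * log (I * ζ)) = u * W (4 * log ζ)
    have h4 : exp (log (I * ζ)) = exp (log ζ + Real.pi / 2 * I) := by
      rw [Complex.exp_add, Complex.exp_log (mul_ne_zero I_ne_zero hζ.1), Complex.exp_log hζ.1,
        Complex.exp_pi_div_two_mul_I, mul_comm]
    obtain ⟨n, hn⟩ := Complex.exp_eq_exp_iff_exists_int.1 h4
    have h5 : 4 * log (I * ζ) = 4 * log ζ + 2 * Real.pi * I * ((1 + 4 * n : ℤ)) := by
      push_cast
      linear_combination 4 * hn
    have hu0 : u ≠ 0 := Complex.exp_ne_zero _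
    rw [h5, hWper _ _ (log_mem_HP hζ), zpow_add₀ hu0, zpow_mul]
    have : u ^ (4 : ℤ) = 1 := by exact_mod_cast hu4
    rw [this, one_zpow, mul_one, zpow_one, mul_comm]

theorem add_I_mul (a b : ℂ) (h : a ^ 4 = b ^ 4) (hb : b ≠ 0) :
    a = b ∨ a = I * b ∨ a = I * (I * b) ∨ a = I * (I * (I * b)) := by
  have : (a / b) ^ 4 = 1 := by rw [div_pow, h, div_self (pow_ne_zero 4 hb)]
  rcases pow_four_eq_one this with h | h | h | h
  · left; rw [div_eq_iff hb] at h; rw [h]; ring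
  · right; right; left; rw [div_eq_iff hb] at h; rw [h]; linear_combination (-b) * I_sq
  · right; left; rw [div_eq_iff hb] at h; rw [h]
  · right; right; right; rw [div_eq_iff hb] at h; rw [h]; linear_combination (-I * b) * I_sq

/-- Existence of a chart at a puncture. -/
theorem exists_chart {P : ℝ × ℝ} (hP : Half P) (hμ : μ ≠ 0) :
    ∃ ψ : OpenPartialHomeomorph Surf ℂ, ψ.target = DD ∧
      (∀ x, x ∈ ψ.source → x.base = tor (P + VV2 (zz μ (ψ x ^ 4)))) ∧
      (∀ x : Surf, ∀ z : ℂ, ‖z‖ < 1 / 8 → x.base = tor (P + VV2 z) → x ∈ ψ.source) := by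
  classical
  obtain ⟨R, u, hu, hRc, hR4, hRI⟩ := exists_root hP hμ
  have hne : ∀ ζ ∈ DD, FF (tor (P + VV2 (zz μ (ζ ^ 4)))) ≠ 0 := by
    intro ζ hζ
    refine FF_ne_near hP (zz_ne hμ (pow_ne_zero 4 hζ.1)) ?_
    rw [norm_zz hμ, norm_pow]
    have := pow_lt_one₀ (norm_nonneg ζ) hζ.2 (by norm_num : 4 ≠ 0)
    linarith
  have hR0 : ∀ ζ ∈ DD, R ζ ≠ 0 := by
    intro ζ hζ h0
    apply hne ζ hζ
    rw [← hR4 ζ hζ, h0]; norm_num
  have hq : Nonempty Surf := by
    have := connectedSpace_surf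
    infer_instance
  obtain ⟨q₀⟩ := hq
  have hC : Nonempty ℂ := ⟨0⟩
  let sec : ℂ → Surf := fun ζ =>
    if h : R ζ ≠ 0 ∧ R ζ ^ 4 = FF (tor (P + VV2 (zz μ (ζ ^ 4)))) then
      Surf.mk (tor (P + VV2 (zz μ (ζ ^ 4)))) (R ζ) h.1 h.2 else q₀
  have hsec : ∀ ζ ∈ DD, (sec ζ).base = tor (P + VV2 (zz μ (ζ ^ 4))) ∧ (sec ζ).root = R ζ := by
    intro ζ hζ
    have h : R ζ ≠ 0 ∧ R ζ ^ 4 = FF (tor (P + VV2 (zz μ (ζ ^ 4)))) := ⟨hR0 ζ hζ, hR4 ζ hζ⟩
    simp only [sec, dif_pos h]
    exact ⟨rfl, rfl⟩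
  have hmI : ∀ ζ ∈ DD, I * ζ ∈ DD := fun ζ hζ => mem_DD_of_norm (by simp) hζ
  have hnz : ∀ ζ ∈ DD, ‖zz μ (ζ ^ 4)‖ < 1 / 8 := by
    intro ζ hζ
    rw [norm_zz hμ, norm_pow]
    have := pow_lt_one₀ (norm_nonneg ζ) hζ.2 (by norm_num : 4 ≠ 0)
    linarith
  have hinj : InjOn sec DD := by
    intro a ha b hb hab
    have h1 : tor (P + VV2 (zz μ (a ^ 4))) = tor (P + VV2 (zz μ (b ^ 4))) := by
      rw [← (hsec a ha).1, ← (hsec b hb).1, hab]
    have h2 : R a = R b := by rw [← (hsec a ha).2, ← (hsec b hb).2, hab]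
    have h3 := zz_inj hμ (VV2_eq_of_tor hP hP (hnz a ha) (hnz b hb) h1).1
    have hRb := hR0 b hb
    rcases add_I_mul a b h3 hb.1 with h | h | h | h
    · exact h
    · exfalso
      rw [h, hRI b hb] at h2
      have : u = 1 := by
        have : (u - 1) * R b = 0 := by linear_combination h2
        rcases mul_eq_zero.1 this with h | h
        · exact sub_eq_zero.1 h
        · exact absurd h hRb
      rcases hu with hu | hu
      · rw [hu] at this; simpa using congrArg Complex.im this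
      · rw [hu] at this; simpa using congrArg Complex.im this
    · exfalso
      rw [h, hRI _ (hmI b hb), hRI b hb] at h2
      have : u * u = 1 := by
        have : (u * u - 1) * R b = 0 := by linear_combination h2
        rcases mul_eq_zero.1 this with h | h
        · exact sub_eq_zero.1 h
        · exact absurd h hRb
      have h5 : u * u = -1 := by
        rcases hu with hu | hu
        · rw [hu, I_mul_I]
        · rw [hu]; linear_combination I_sq
      rw [h5] at this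
      norm_num at this
    · exfalso
      rw [h, hRI _ (hmI _ (hmI b hb)), hRI _ (hmI b hb), hRI b hb] at h2
      have : u * (u * u) = 1 := by
        have : (u * (u * u) - 1) * R b = 0 := by linear_combination h2
        rcases mul_eq_zero.1 this with h | h
        · exact sub_eq_zero.1 h
        · exact absurd h hRb
      have h5 : u * u = -1 := by
        rcases hu with hu | hu
        · rw [hu, I_mul_I]
        · rw [hu]; linear_combination I_sq
      rw [h5] at this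
      rcases hu with hu | hu
      · rw [hu] at this; simpa using congrArg Complex.im this
      · rw [hu] at this; simpa using congrArg Complex.im this
  have hcont : ContinuousOn sec DD := by
    have hval : ContinuousOn (fun ζ => ((sec ζ).1 : (𝕋 × 𝕋) × ℂ)) DD := by
      have h1 : ContinuousOn (fun ζ => ((tor (P + VV2 (zz μ (ζ ^ 4))), R ζ) : (𝕋 × 𝕋) × ℂ)) DD := by
        refine ContinuousOn.prodMk ?_ hRc
        exact (continuous_tor.comp (continuous_const.add (continuous_VV2.comp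
          (continuous_zz.comp (continuous_pow 4))))).continuousOn
      refine h1.congr fun p hp => ?_
      exact Prod.ext (hsec p hp).1 (hsec p hp).2
    exact Topology.IsEmbedding.subtypeVal.continuousOn_iff.2 hval
  have hsurj : ∀ x : Surf, ∀ z : ℂ, ‖z‖ < 1 / 8 → x.base = tor (P + VV2 z) → ∃ ζ ∈ DD, sec ζ = x := by
    intro x z hz hx
    -- `z = zz μ η`
    obtain ⟨η, hη⟩ : ∃ η, zz μ η = z := by
      have h : ‖μ‖ ≠ 0 := norm_ne_zero_iff.2 hμ
      refine ⟨z * μ * 8 / (‖μ‖ : ℝ), ?_⟩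
      have h' : ((‖μ‖ : ℝ) : ℂ) ≠ 0 := by exact_mod_cast h
      unfold zz
      push_cast
      field_simp
    have hz0 : z ≠ 0 := by
      rintro rfl
      apply x.FF_ne
      rw [hx]
      obtain ⟨m, n, h1, h2⟩ := hP
      rw [FF_eq_zero_iff]
      refine ⟨(sn_half _).2 ⟨m, ?_⟩, (sn_half _).2 ⟨n, ?_⟩⟩
      · simp [VV2, h1]
      · simp [VV2, h2]
    have hη0 : η ≠ 0 := by
      rintro rfl
      apply hz0
      rw [← hη]; unfold zz; simp
    have hη1 : ‖η‖ < 1 := by
      have := norm_zz hμ η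
      rw [hη] at this
      linarith
    obtain ⟨ζ, hζ⟩ : ∃ ζ : ℂ, ζ ^ 4 = η := ⟨η ^ ((4 : ℕ) : ℂ)⁻¹, Complex.cpow_nat_inv_pow _ (by norm_num)⟩
    have hζD : ζ ∈ DD := by
      refine ⟨?_, ?_⟩
      · rintro rfl; apply hη0; rw [← hζ]; norm_num
      · by_contra hc
        push Not at hc
        have := one_le_pow₀ (n := 4) hc
        rw [← norm_pow, hζ] at this
        linarith
    have hroot : x.root ^ 4 = R ζ ^ 4 := by
      rw [x.root_pow, hR4 ζ hζD, hζ, hη, hx]
    have hfin : ∀ ξ ∈ DD, ξ ^ 4 = η → x.root = R ξ → ∃ ζ ∈ DD, sec ζ = x := by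
      intro ξ hξ h4 hr
      refine ⟨ξ, hξ, Surf.ext ?_ ?_⟩
      · rw [(hsec ξ hξ).1, h4, hη, hx]
      · rw [(hsec ξ hξ).2, hr]
    have hI4 : ∀ ξ : ℂ, (I * ξ) ^ 4 = ξ ^ 4 := by
      intro ξ; rw [mul_pow, I_pow_four, one_mul]
    have hD1 := hmI ζ hζD
    have hD2 := hmI _ hD1
    have hD3 := hmI _ hD2
    have e1 : R (I * ζ) = u * R ζ := hRI ζ hζD
    have e2 : R (I * (I * ζ)) = u * (u * R ζ) := by rw [hRI _ hD1, e1]
    have e3 : R (I * (I * (I * ζ))) = u * (u * (u * R ζ)) := by rw [hRI _ hD2, e2]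
    have h41 : (I * ζ) ^ 4 = η := by rw [hI4, hζ]
    have h42 : (I * (I * ζ)) ^ 4 = η := by rw [hI4, h41]
    have h43 : (I * (I * (I * ζ))) ^ 4 = η := by rw [hI4, h42]
    have hRz := hR0 ζ hζD
    rcases add_I_mul _ _ hroot hRz with h | h | h | h
    · exact hfin ζ hζD hζ h
    · rcases hu with hu | hu
      · refine hfin _ hD1 h41 ?_
        rw [e1, h, hu]
      · refine hfin _ hD3 h43 ?_
        rw [e3, h, hu]
        linear_combination (I * R ζ) * I_sq
    · refine hfin _ hD2 h42 ?_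
      rw [e2, h]
      rcases hu with hu | hu
      · rw [hu]
      · rw [hu]; ring
    · rcases hu with hu | hu
      · refine hfin _ hD3 h43 ?_
        rw [e3, h, hu]
      · refine hfin _ hD1 h41 ?_
        rw [e1, h, hu]
        linear_combination (I * R ζ) * I_sq
  have hmap : ∀ ζ ∈ DD, map sec (𝓝 ζ) = 𝓝 (sec ζ) := by
    intro ζ hζ
    obtain ⟨e, he, hq⟩ := exists_flat (sec ζ)
    have hcz : ContinuousAt sec ζ := hcont.continuousAt (isOpen_DD.mem_nhds hζ)
    set g : ℂ → ℝ × ℝ := fun ξ => P + VV2 (zz μ (ξ ^ 4)) with hg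
    have hgc : Continuous g := continuous_const.add (continuous_VV2.comp
          (continuous_zz.comp (continuous_pow 4)))
    have h1 : ∀ᶠ ξ in 𝓝 ζ, e (sec ξ) = g ξ + (e (sec ζ) - g ζ) := by
      apply eventually_const_of_tor
      · exact ContinuousAt.comp (f := sec) (g := e) (e.continuousAt hq) hcz
      · exact hgc.continuousAt
      · filter_upwards [isOpen_DD.mem_nhds hζ, hcz.eventually (he.eventually hq)] with ξ hξ h2
        rw [h2, (hsec ξ hξ).1]
    have h2 : map g (𝓝 ζ) = 𝓝 (g ζ) := by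
      have h3 : HasStrictDerivAt (fun ξ : ℂ => zz μ (ξ ^ 4))
          ((‖μ‖ / 8 : ℝ) / μ * (((4 : ℕ) : ℂ) * ζ ^ (4 - 1))) ζ := by
        unfold zz
        exact (hasStrictDerivAt_pow 4 ζ).const_mul _
      have h4 : ((‖μ‖ / 8 : ℝ) : ℂ) / μ * (((4 : ℕ) : ℂ) * ζ ^ (4 - 1)) ≠ 0 := by
        have h : ‖μ‖ ≠ 0 := norm_ne_zero_iff.2 hμ
        have h' : ((‖μ‖ / 8 : ℝ) : ℂ) ≠ 0 := by
          rw [Complex.ofReal_ne_zero]; positivity
        exact mul_ne_zero (div_ne_zero h' hμ) (mul_ne_zero (by norm_num) (pow_ne_zero _ hζ.1))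
      have h5 : map (fun ξ : ℂ => zz μ (ξ ^ 4)) (𝓝 ζ) = 𝓝 (zz μ (ζ ^ 4)) := h3.map_nhds_eq h4
      have h6 : ∀ z : ℂ, map VV2 (𝓝 z) = 𝓝 (VV2 z) := by
        intro z
        exact Complex.equivRealProdCLM.toHomeomorph.map_nhds_eq z
      have h7 : g = (fun v => P + v) ∘ VV2 ∘ (fun ξ : ℂ => zz μ (ξ ^ 4)) := rfl
      rw [h7, ← Filter.map_map, ← Filter.map_map, h5, h6]
      exact (Homeomorph.addLeft P).map_nhds_eq _
    have h8 : map (fun ξ => e (sec ξ)) (𝓝 ζ) = 𝓝 (e (sec ζ)) := by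
      rw [Filter.map_congr h1]
      have h9 : (fun ξ => g ξ + (e (sec ζ) - g ζ)) = (fun v => v + (e (sec ζ) - g ζ)) ∘ g := rfl
      rw [h9, ← Filter.map_map, h2]
      have := (Homeomorph.addRight (e (sec ζ) - g ζ)).map_nhds_eq (g ζ)
      have h10 : (Homeomorph.addRight (e (sec ζ) - g ζ)) (g ζ) = e (sec ζ) := by simp
      rw [h10] at this
      exact this
    have h11 : map sec (𝓝 ζ) = map e.symm (map (fun ξ => e (sec ξ)) (𝓝 ζ)) := by
      rw [Filter.map_map]
      apply Filter.map_congr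
      filter_upwards [hcz.eventually (e.open_source.mem_nhds hq)] with ξ hξ
      exact (e.left_inv hξ).symm
    rw [h11, h8]
    have := e.symm_map_nhds_eq hq
    exact this
  have hopen : IsOpenMap (DD.domRestrict sec) := by
    rw [isOpenMap_iff_nhds_le]
    rintro ⟨ζ, hζ⟩
    have h1 : map (DD.domRestrict sec) (𝓝 (⟨ζ, hζ⟩ : DD)) = map sec (𝓝 ζ) := by
      have h2 : DD.domRestrict sec = sec ∘ Subtype.val := rfl
      rw [h2, ← Filter.map_map]
      congr 1
      exact isOpen_DD.isOpenEmbedding_subtypeVal.map_nhds_eq ⟨ζ, hζ⟩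
    rw [h1, hmap ζ hζ]
    exact le_rfl
  let E : PartialEquiv ℂ Surf := InjOn.toPartialEquiv sec DD hinj
  let E' : OpenPartialHomeomorph ℂ Surf :=
    OpenPartialHomeomorph.ofContinuousOpenRestrict E hcont hopen isOpen_DD
  have hE'c : ∀ ζ, E' ζ = sec ζ := fun ζ => rfl
  have hE's : E'.source = DD := rfl
  have hE't : E'.target = sec '' DD := rfl
  refine ⟨E'.symm, rfl, ?_, ?_⟩
  · intro x hx
    have hx' : x ∈ E'.target := hx
    have h1 : E'.symm x ∈ DD := E'.map_target hx'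
    have h2 : sec (E'.symm x) = x := E'.right_inv hx'
    have h3 := (hsec _ h1).1
    rw [h2] at h3
    exact h3
  · intro x z hz hx
    obtain ⟨ζ, hζ, h⟩ := hsurj x z hz hx
    change x ∈ sec '' DD
    exact ⟨ζ, hζ, h⟩

end Pool.Agent.Hhelper31.Penner
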