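import Pool.Agent.Hhelper31.Penner.Puncture2

/-!
# Puncture charts of the surface, III: the four punctures
-/

namespace Pool.Agent.Hhelper31.Penner

open Set Filter Topology Complex

variable {μ : ℂ}

/-- the four points of order at most two -/
noncomputable def PJ (j : Fin 4) : ℝ × ℝ :=
  (((finProdFinEquiv (m := 2) (n := 2)).symm j).1 / 2, ((finProdFinEquiv (m := 2) (n := 2)).symm j).2 / 2)

theorem half_PJ (j : Fin 4) : Half (PJ j) :=
  ⟨(((finProdFinEquiv (m := 2) (n := 2)).symm j).1 : ℕ),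
    (((finProdFinEquiv (m := 2) (n := 2)).symm j).2 : ℕ), by simp [PJ], by simp [PJ]⟩

theorem fin_two_eq (a b : Fin 2) (m : ℤ) (h : ((a : ℕ) : ℝ) / 2 = ((b : ℕ) : ℝ) / 2 + m) : a = b := by
  have h1 : ((a : ℕ) : ℤ) = ((b : ℕ) : ℤ) + 2 * m := by
    have : ((a : ℕ) : ℝ) = ((b : ℕ) : ℝ) + 2 * m := by linarith
    exact_mod_cast this
  have := a.isLt
  have := b.isLt
  ext
  omega

theorem PJ_inj {i j : Fin 4} (h : tor (PJ i) = tor (PJ j)) : i = j := by
  obtain ⟨⟨m, hm⟩, ⟨n, hn⟩⟩ := (tor_eq_iff _ _).1 h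
  have h1 := fin_two_eq _ _ m hm
  have h2 := fin_two_eq _ _ n hn
  exact (finProdFinEquiv (m := 2) (n := 2)).symm.injective (Prod.ext h1 h2)

theorem exists_fin_two (m : ℤ) : ∃ (a : Fin 2) (k : ℤ), (m : ℝ) / 2 = ((a : ℕ) : ℝ) / 2 + k := by
  refine ⟨⟨(m % 2).toNat, by omega⟩, m / 2, ?_⟩
  have h1 : (((m % 2).toNat : ℕ) : ℤ) = m % 2 := Int.toNat_of_nonneg (by omega)
  have h2 : m = m % 2 + 2 * (m / 2) := by omega
  have h3 : (((m % 2).toNat : ℕ) : ℝ) = ((m % 2 : ℤ) : ℝ) := by exact_mod_cast h1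
  have h4 : (m : ℝ) = ((m % 2 : ℤ) : ℝ) + 2 * ((m / 2 : ℤ) : ℝ) := by exact_mod_cast h2
  change (m : ℝ) / 2 = (((m % 2).toNat : ℕ) : ℝ) / 2 + _
  rw [h3]; linarith

theorem exists_PJ {p : 𝕋 × 𝕋} (h : FF p = 0) : ∃ j, p = tor (PJ j) := by
  obtain ⟨q, rfl⟩ := tor_surj p
  rw [FF_eq_zero_iff] at h
  obtain ⟨m, hm⟩ := (sn_half _).1 h.1
  obtain ⟨n, hn⟩ := (sn_half _).1 h.2
  obtain ⟨a, k, hk⟩ := exists_fin_two m
  obtain ⟨b, k', hk'⟩ := exists_fin_two n
  refine ⟨finProdFinEquiv (m := 2) (n := 2) (a, b), ?_⟩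
  rw [tor_eq_iff]
  unfold PJ
  rw [Equiv.symm_apply_apply]
  exact ⟨⟨k, by rw [hm, hk]⟩, ⟨k', by rw [hn, hk']⟩⟩

theorem isOpenMap_tor : IsOpenMap tor := by
  have h : IsOpenMap (fun r : ℝ => (r : 𝕋)) := QuotientAddGroup.isOpenMap_coe
  exact h.prodMap h

theorem exists_zz (hμ : μ ≠ 0) (z : ℂ) : ∃ η, zz μ η = z := by
  have h : ‖μ‖ ≠ 0 := norm_ne_zero_iff.2 hμ
  refine ⟨z * μ * 8 / (‖μ‖ : ℝ), ?_⟩
  have h' : ((‖μ‖ : ℝ) : ℂ) ≠ 0 := by exact_mod_cast h
  unfold zz
  push_cast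
  field_simp

/-- the puncture charts -/
theorem exists_punctures_aux (hμ : μ ≠ 0) : ∃ P : PunctureCharts Surf,
    ∀ j, ∃ q, ∀ x ∈ (P.chart j).source, x.base = tor (q + VV2 (zz μ (P.chart j x ^ 4))) := by
  choose ψ hψt hψb hψs using fun j => exists_chart (μ := μ) (half_PJ j) hμ
  have hsmall : ∀ j, ∀ x ∈ (ψ j).source, ‖zz μ (ψ j x ^ 4)‖ < 1 / 8 := by
    intro j x hx
    have h1 : ψ j x ∈ DD := by rw [← hψt j]; exact (ψ j).map_source hx
    rw [norm_zz hμ, norm_pow]
    have := pow_lt_one₀ (norm_nonneg (ψ j x)) h1.2 (by norm_num : 4 ≠ 0)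
    linarith
  have hcomp : ∀ r : ℝ, 0 < r → r < 1 →
      IsCompact {x : Surf | ∀ j, x ∈ (ψ j).source → r ≤ ‖ψ j x‖} := by
    intro r hr hr1
    set U : Set (𝕋 × 𝕋) := ⋃ j, tor '' ((fun z => PJ j + VV2 z) '' Metric.ball 0 (r ^ 4 / 8)) with hU
    have hUo : IsOpen U := by
      refine isOpen_iUnion fun j => isOpenMap_tor _ ?_
      have h1 : IsOpenMap (fun z => PJ j + VV2 z) := by
        have h2 : IsOpenMap VV2 := Complex.equivRealProdCLM.toHomeomorph.isOpenMap
        exact (Homeomorph.addLeft (PJ j)).isOpenMap.comp h2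
      exact h1 _ Metric.isOpen_ball
    have hr4 : r ^ 4 / 8 < 1 / 8 := by
      have := pow_lt_one₀ hr.le hr1 (by norm_num : 4 ≠ 0)
      linarith
    have hset : {x : Surf | ∀ j, x ∈ (ψ j).source → r ≤ ‖ψ j x‖} = {x | x.base ∉ U} := by
      ext x
      constructor
      · intro hx hxU
        rw [hU, mem_iUnion] at hxU
        obtain ⟨j, _, ⟨z, hz, rfl⟩, hzx⟩ := hxU
        rw [mem_ball_zero_iff] at hz
        have h1 : x ∈ (ψ j).source := hψs j x z (by linarith) hzx.symm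
        have h2 := hψb j x h1
        rw [← hzx] at h2
        have h3 := (VV2_eq_of_tor (half_PJ j) (half_PJ j) (by linarith) (hsmall j x h1) h2).1
        have h4 := hx j h1
        rw [h3, norm_zz hμ, norm_pow] at hz
        have h5 := pow_le_pow_left₀ hr.le h4 4
        linarith
      · intro hx j hj
        by_contra hc
        push Not at hc
        apply hx
        rw [hU, mem_iUnion]
        refine ⟨j, _, ⟨zz μ (ψ j x ^ 4), ?_, rfl⟩, (hψb j x hj).symm⟩
        rw [mem_ball_zero_iff, norm_zz hμ, norm_pow]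
        have := pow_lt_pow_left₀ hc (norm_nonneg _) (by norm_num : 4 ≠ 0)
        linarith
    rw [hset]
    -- compactness in the product
    have hcpt : IsCompact {q : (𝕋 × 𝕋) × ℂ | q.1 ∉ U ∧ q.2 ^ 4 = FF q.1} := by
      obtain ⟨M, hM⟩ := (isCompact_univ (X := 𝕋 × 𝕋)).exists_bound_of_continuousOn
        continuous_FF.continuousOn
      have hbox : IsCompact ((univ : Set (𝕋 × 𝕋)) ×ˢ Metric.closedBall (0 : ℂ) (1 + |M|)) :=
        isCompact_univ.prod (isCompact_closedBall _ _)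
      refine hbox.of_isClosed_subset ?_ ?_
      · refine IsClosed.inter ?_ ?_
        · exact hUo.isClosed_compl.preimage continuous_fst
        · exact isClosed_eq (by fun_prop) (continuous_FF.comp continuous_fst)
      · rintro ⟨p, w⟩ ⟨-, h2⟩
        refine ⟨mem_univ _, ?_⟩
        rw [mem_closedBall_zero_iff]
        have h3 := hM p (mem_univ _)
        simp only at h2
        rw [← h2, norm_pow] at h3
        change ‖w‖ ≤ 1 + |M|
        by_contra hc
        push Not at hc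
        have h4 : 1 ≤ ‖w‖ := by linarith [abs_nonneg M]
        have h5 : ‖w‖ ≤ ‖w‖ ^ 4 := le_self_pow₀ h4 (by norm_num)
        linarith [le_abs_self M]
    have himage : (Subtype.val '' ({x : Surf | x.base ∉ U} :
        Set {q : (𝕋 × 𝕋) × ℂ // q.2 ≠ 0 ∧ q.2 ^ 4 = FF q.1}))
        = {q : (𝕋 × 𝕋) × ℂ | q.1 ∉ U ∧ q.2 ^ 4 = FF q.1} := by
      ext q
      constructor
      · rintro ⟨x, hx, rfl⟩
        exact ⟨hx, x.2.2⟩
      · rintro ⟨h1, h2⟩
        have h3 : q.2 ≠ 0 := by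
          intro h0
          apply h1
          rw [h0] at h2
          obtain ⟨j, hj⟩ := exists_PJ (p := q.1) (by rw [← h2]; norm_num)
          rw [hU, mem_iUnion]
          refine ⟨j, PJ j, ⟨0, ?_, ?_⟩, hj.symm⟩
          · rw [mem_ball_zero_iff]; simp; positivity
          · ext <;> simp [VV2]
        exact ⟨⟨q, h3, h2⟩, h1, rfl⟩
    rw [← himage] at hcpt
    exact Subtype.isCompact_iff.2 hcpt
  let PC : PunctureCharts Surf :=
    { n := 4
      chart := ψ
      target_eq := hψt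
      disjoint := by
        intro i j hij
        rw [Set.disjoint_left]
        intro x hi hj
        apply hij
        have h1 := hψb i x hi
        rw [hψb j x hj] at h1
        exact (PJ_inj (VV2_eq_of_tor (half_PJ j) (half_PJ i) (hsmall j x hj) (hsmall i x hi) h1).2).symm
      compact := hcomp }
  exact ⟨PC, fun j => ⟨PJ j, fun x hx => hψb j x hx⟩⟩

theorem exists_punctures : ∃ P : PunctureCharts Surf, GoodPunctures P := by
  set μ : ℂ := (Real.goldenRatio : ℂ) - I with hμ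
  have hμ0 : μ ≠ 0 := by
    intro h
    have := congrArg Complex.im h
    rw [hμ] at this
    simp at this
  obtain ⟨P, hP⟩ := exists_punctures_aux hμ0
  refine ⟨P, fun j y hy => ?_⟩
  obtain ⟨q, hq⟩ := hP j
  obtain ⟨e, he, hye⟩ := exists_flat y
  have h1 : ∀ᶠ z in 𝓝 y, e z = (q + VV2 (zz μ (P.chart j z ^ 4)))
      + (e y - (q + VV2 (zz μ (P.chart j y ^ 4)))) := by
    apply eventually_const_of_tor (e.continuousAt hye)
    · have h2 : ContinuousAt (fun z : Surf => P.chart j z ^ 4) y :=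
        ((P.chart j).continuousAt hy).pow 4
      exact continuousAt_const.add ((continuous_VV2.comp continuous_zz).continuousAt.comp h2)
    · filter_upwards [he.eventually hye, (P.chart j).open_source.mem_nhds hy] with z h3 h4
      rw [h3, hq z h4]
  set v : ℝ × ℝ := q + (e y - (q + VV2 (zz μ (P.chart j y ^ 4)))) with hv
  refine ⟨e, he, hye, (v.1 : ℂ) + v.2 * I, ‖μ‖ / 8, by positivity, ?_⟩
  filter_upwards [h1] with z hz
  have h5 : e z = VV2 (zz μ (P.chart j z ^ 4)) + v := by rw [hz, hv]; abel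
  have h6 : ((e z).1 : ℂ) + (e z).2 * I - ((v.1 : ℂ) + v.2 * I) = zz μ (P.chart j z ^ 4) := by
    rw [h5]
    simp only [Prod.fst_add, Prod.snd_add, VV2]
    push_cast
    have := Complex.re_add_im (zz μ (P.chart j z ^ 4))
    linear_combination this
  rw [h6, mul_zz hμ0]

end Pool.Agent.Hhelper31.Penner
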