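import Pool.Agent.Hhelper31.Penner.Lift

/-!
# The surface `w ^ 4 = F (x, y)` over the torus minus its four points of order at most two
-/

namespace Pool.Agent.Hhelper31.Penner

open Set Filter Topology Complex

/-- `cos (2π x)` on the circle `ℝ/ℤ` -/
noncomputable def cn (x : 𝕋) : ℝ := ((AddCircle.toCircle x : Circle) : ℂ).re

/-- `sin (2π x)` on the circle `ℝ/ℤ` -/
noncomputable def sn (x : 𝕋) : ℝ := ((AddCircle.toCircle x : Circle) : ℂ).im

theorem continuous_cn : Continuous cn :=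
  Complex.continuous_re.comp (continuous_subtype_val.comp AddCircle.continuous_toCircle)

theorem continuous_sn : Continuous sn :=
  Complex.continuous_im.comp (continuous_subtype_val.comp AddCircle.continuous_toCircle)

theorem toCircle_coe (x : ℝ) :
    ((AddCircle.toCircle ((x : ℝ) : 𝕋) : Circle) : ℂ) = Complex.exp ((2 * Real.pi * x : ℝ) * I) := by
  rw [AddCircle.toCircle_apply_mk, Circle.coe_exp]
  congr 2
  push_cast
  ring

@[simp] theorem cn_coe (x : ℝ) : cn (x : 𝕋) = Real.cos (2 * Real.pi * x) := by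
  unfold cn
  rw [toCircle_coe, Complex.exp_ofReal_mul_I_re]

@[simp] theorem sn_coe (x : ℝ) : sn (x : 𝕋) = Real.sin (2 * Real.pi * x) := by
  unfold sn
  rw [toCircle_coe, Complex.exp_ofReal_mul_I_im]

theorem sn_add (x y : 𝕋) : sn (x + y) = sn x * cn y + cn x * sn y := by
  unfold sn cn
  rw [AddCircle.toCircle_add]
  simp [Complex.mul_im]; ring

theorem cn_add (x y : 𝕋) : cn (x + y) = cn x * cn y - sn x * sn y := by
  unfold sn cn
  rw [AddCircle.toCircle_add]
  simp [Complex.mul_re]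

theorem sn_neg (x : 𝕋) : sn (-x) = -sn x := by
  unfold sn
  rw [AddCircle.toCircle_neg]
  simp

theorem cn_neg (x : 𝕋) : cn (-x) = cn x := by
  unfold cn
  rw [AddCircle.toCircle_neg]
  simp

theorem cn_sq_add_sn_sq (x : 𝕋) : cn x ^ 2 + sn x ^ 2 = 1 := by
  have h : ‖((AddCircle.toCircle x : Circle) : ℂ)‖ = 1 := Circle.norm_coe _
  have h2 := Complex.sq_norm ((AddCircle.toCircle x : Circle) : ℂ)
  rw [h, Complex.normSq_apply] at h2
  unfold cn sn
  nlinarith [h2]

theorem sn_zero : sn 0 = 0 := by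
  have := sn_coe 0
  simpa using this

theorem cn_zero : cn 0 = 1 := by
  have := cn_coe 0
  simpa using this

/-- `s x + i s y` -/
noncomputable def pr (a b : ℝ) : ℂ := a + b * I

theorem pr_re (a b : ℝ) : (pr a b).re = a := by simp [pr]

theorem pr_im (a b : ℝ) : (pr a b).im = b := by simp [pr]

theorem pr_eq_zero {a b : ℝ} (h : pr a b = 0) : a = 0 ∧ b = 0 :=
  ⟨by rw [← pr_re a b, h]; rfl, by rw [← pr_im a b, h]; rfl⟩

/-- The function `F (x, y) = i (s x + i s y) (s x + i s (x+y)) (s (x+y) + i s y)` on the torus,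
where `s x = sin (2 π x)`. -/
noncomputable def FF (p : 𝕋 × 𝕋) : ℂ :=
  I * pr (sn p.1) (sn p.2) * pr (sn p.1) (sn (p.1 + p.2)) * pr (sn (p.1 + p.2)) (sn p.2)

theorem continuous_pr : Continuous fun q : ℝ × ℝ => pr q.1 q.2 := by
  unfold pr; fun_prop

theorem continuous_FF : Continuous FF := by
  unfold FF pr
  have h1 := continuous_sn
  fun_prop

/-- The surface: pairs of a point of the torus and a nonzero complex number `w` with
`w ^ 4 = F (x, y)`. -/
def Surf : Type := {q : (𝕋 × 𝕋) × ℂ // q.2 ≠ 0 ∧ q.2 ^ 4 = FF q.1}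

noncomputable instance : TopologicalSpace Surf := inferInstanceAs (TopologicalSpace (Subtype _))

instance : T2Space Surf := inferInstanceAs (T2Space (Subtype _))

instance : SecondCountableTopology Surf := inferInstanceAs (SecondCountableTopology (Subtype _))

/-- the point of the torus -/
def Surf.base (q : Surf) : 𝕋 × 𝕋 := q.1.1

/-- the root `w` -/
def Surf.root (q : Surf) : ℂ := q.1.2

theorem Surf.continuous_base : Continuous Surf.base := continuous_fst.comp continuous_subtype_val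

theorem Surf.continuous_root : Continuous Surf.root := continuous_snd.comp continuous_subtype_val

theorem Surf.root_ne (q : Surf) : q.root ≠ 0 := q.2.1

theorem Surf.root_pow (q : Surf) : q.root ^ 4 = FF q.base := q.2.2

theorem Surf.FF_ne (q : Surf) : FF q.base ≠ 0 := by
  rw [← q.root_pow]; exact pow_ne_zero 4 q.root_ne

/-- constructor -/
def Surf.mk (p : 𝕋 × 𝕋) (w : ℂ) (h0 : w ≠ 0) (h : w ^ 4 = FF p) : Surf := ⟨(p, w), h0, h⟩

@[simp] theorem Surf.base_mk (p w h0 h) : (Surf.mk p w h0 h).base = p := rfl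

@[simp] theorem Surf.root_mk (p w h0 h) : (Surf.mk p w h0 h).root = w := rfl

theorem Surf.ext {q q' : Surf} (h1 : q.base = q'.base) (h2 : q.root = q'.root) : q = q' :=
  Subtype.ext (Prod.ext h1 h2)

theorem Surf.continuous_mk {Y : Type} [TopologicalSpace Y] {p : Y → 𝕋 × 𝕋} {w : Y → ℂ}
    (hp : Continuous p) (hw : Continuous w) (h0 : ∀ y, w y ≠ 0) (h : ∀ y, w y ^ 4 = FF (p y)) :
    Continuous fun y => Surf.mk (p y) (w y) (h0 y) (h y) :=
  Continuous.subtype_mk (hp.prodMk hw) _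

/-- The zeros of `F`. -/
theorem FF_eq_zero_iff (p : 𝕋 × 𝕋) : FF p = 0 ↔ sn p.1 = 0 ∧ sn p.2 = 0 := by
  have hx := cn_sq_add_sn_sq p.1
  have hy := cn_sq_add_sn_sq p.2
  have hadd := sn_add p.1 p.2
  constructor
  · intro h
    unfold FF at h
    rcases mul_eq_zero.1 h with h | h
    · rcases mul_eq_zero.1 h with h | h
      · rcases mul_eq_zero.1 h with h | h
        · exact absurd h I_ne_zero
        · exact pr_eq_zero h
      · obtain ⟨h1, h2⟩ := pr_eq_zero h
        refine ⟨h1, ?_⟩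
        rw [h1] at hx
        rw [hadd, h1] at h2
        have hc : cn p.1 ≠ 0 := by
          intro hc; rw [hc] at hx; norm_num at hx
        have : cn p.1 * sn p.2 = 0 := by linarith
        rcases mul_eq_zero.1 this with h3 | h3
        · exact absurd h3 hc
        · exact h3
    · obtain ⟨h2, h1⟩ := pr_eq_zero h
      refine ⟨?_, h1⟩
      rw [h1] at hy
      rw [hadd, h1] at h2
      have hc : cn p.2 ≠ 0 := by
        intro hc; rw [hc] at hy; norm_num at hy
      have : sn p.1 * cn p.2 = 0 := by linarith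
      rcases mul_eq_zero.1 this with h3 | h3
      · exact h3
      · exact absurd h3 hc
  · rintro ⟨h1, h2⟩
    unfold FF
    rw [hadd, h1, h2]
    simp [pr]

/-- first factor of `F(x,y) F(x+y,x)` -/
noncomputable def Q1 (p : 𝕋 × 𝕋) : ℂ :=
  pr (sn p.1 ^ 2) (2 * sn (p.1 + p.2) ^ 2 * cn p.1)

/-- second factor of `F(x,y) F(x+y,x)` -/
noncomputable def Q2 (p : 𝕋 × 𝕋) : ℂ :=
  pr (sn (p.1 + p.2) ^ 2) (-(2 * sn p.1 ^ 2 * cn (p.1 + p.2)))

/-- third (positive real) factor of `F(x,y) F(x+y,x)` -/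
noncomputable def Q0 (p : 𝕋 × 𝕋) : ℝ := sn p.1 ^ 2 + sn (p.1 + p.2) ^ 2

/-- the basic identity: `F (x, y) F (x + y, x)` is a product of three explicit factors
with nonnegative real part -/
theorem FF_mul_FF (p : 𝕋 × 𝕋) : FF p * FF (p.1 + p.2, p.1) = (Q0 p : ℂ) * Q1 p * Q2 p := by
  obtain ⟨x, y⟩ := p
  set u : 𝕋 := x + y with hu
  have hy : y = u + -x := by rw [hu]; abel
  have h1 : sn y = sn u * cn x - cn u * sn x := by
    rw [hy, sn_add, sn_neg, cn_neg]; ring
  have h2 : sn (u + x) = sn u * cn x + cn u * sn x := sn_add u x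
  have hx := cn_sq_add_sn_sq x
  have hU := cn_sq_add_sn_sq u
  have hcx : ((cn x : ℝ) : ℂ) ^ 2 = 1 - (sn x : ℂ) ^ 2 := by
    have : cn x ^ 2 = 1 - sn x ^ 2 := by linarith
    exact_mod_cast this
  have hcu : ((cn u : ℝ) : ℂ) ^ 2 = 1 - (sn u : ℂ) ^ 2 := by
    have : cn u ^ 2 = 1 - sn u ^ 2 := by linarith
    exact_mod_cast this
  have hI : (I : ℂ) ^ 2 = -1 := I_sq
  -- three pair identities
  have e1 : pr (sn u) (sn (u + x)) * pr (sn u) (sn y) = Q1 (x, y) := by
    unfold Q1 pr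
    simp only [← hu]
    rw [h1, h2]
    push_cast
    linear_combination ((sn u : ℂ) * cn x + cn u * sn x) * ((sn u : ℂ) * cn x - cn u * sn x) * hI
      - (sn u : ℂ) ^ 2 * hcx + (sn x : ℂ) ^ 2 * hcu
  have e2 : pr (sn (u + x)) (sn x) * pr (sn x) (sn y) = I * Q2 (x, y) := by
    unfold Q2 pr
    simp only [← hu]
    rw [h1, h2]
    push_cast
    linear_combination (sn x : ℂ) * ((sn u : ℂ) * cn x - cn u * sn x) * hI
      + (I : ℂ) * (sn u : ℂ) ^ 2 * hcx - (I : ℂ) * (sn x : ℂ) ^ 2 * hcu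
      + 2 * (sn x : ℂ) ^ 2 * cn u * hI
  have e3 : pr (sn u) (sn x) * pr (sn x) (sn u) = I * (Q0 (x, y) : ℂ) := by
    unfold Q0 pr
    simp only [← hu]
    push_cast
    linear_combination (sn x : ℂ) * sn u * hI
  change (I * pr (sn x) (sn y) * pr (sn x) (sn (x + y)) * pr (sn (x + y)) (sn y)) *
    (I * pr (sn (x + y)) (sn x) * pr (sn (x + y)) (sn (x + y + x)) * pr (sn (x + y + x)) (sn x)) = _
  rw [← hu]
  calc _ = (I * I) * (pr (sn u) (sn (u + x)) * pr (sn u) (sn y)) *
      (pr (sn (u + x)) (sn x) * pr (sn x) (sn y)) * (pr (sn u) (sn x) * pr (sn x) (sn u)) := by ring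
    _ = (I * I) * Q1 (x, y) * (I * Q2 (x, y)) * (I * (Q0 (x, y) : ℂ)) := by rw [e1, e2, e3]
    _ = _ := by rw [I_mul_I]; ring_nf; rw [hI]; ring

/-- A flat chart: the coordinates `(x, y) ∈ ℝ × ℝ` of `q` reduce modulo `1` to the point of
the torus below `q`. -/
def IsFlat (e : OpenPartialHomeomorph Surf (ℝ × ℝ)) : Prop :=
  ∀ q ∈ e.source, (((e q).1 : 𝕋), ((e q).2 : 𝕋)) = q.base

end Pool.Agent.Hhelper31.Penner
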