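import Pool.Agent.Hhelper31.Penner.Puncture
import Pool.Agent.Hhelper94.PennerEdges

/-!
# A test function on the surface
-/

namespace Pool.Agent.Hhelper31.Penner

open Set Filter Topology Complex

/-- a neighbourhood of an open arc joining two punctures -/
def Dset : Set (𝕋 × 𝕋) := {p | |sn p.2| < sn p.1 ∧ 0 < cn p.2}

theorem isOpen_Dset : IsOpen Dset := by
  have h1 := continuous_sn
  have h2 := continuous_cn
  have e1 : IsOpen {p : 𝕋 × 𝕋 | |sn p.2| < sn p.1} := isOpen_lt (by fun_prop) (by fun_prop)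
  have e2 : IsOpen {p : 𝕋 × 𝕋 | 0 < cn p.2} := isOpen_lt (by fun_prop) (by fun_prop)
  exact e1.inter e2

theorem Dset_pos {p : 𝕋 × 𝕋} (h : p ∈ Dset) : 0 < sn p.1 := by
  have := abs_nonneg (sn p.2)
  have := h.1
  linarith

theorem sn_le_one (x : 𝕋) : sn x ≤ 1 := by nlinarith [cn_sq_add_sn_sq x, sq_nonneg (cn x), sq_nonneg (sn x - 1)]

theorem Dset_pos' {p : 𝕋 × 𝕋} (h : p ∈ Dset) : 0 < sn (p.1 + p.2) := by
  have h1 := Dset_pos h
  obtain ⟨h3, h4⟩ := h
  have h5 := cn_sq_add_sn_sq p.2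
  have h6 := cn_sq_add_sn_sq p.1
  rw [sn_add]
  have h8 : sn p.2 ^ 2 < sn p.1 ^ 2 := by
    rw [← sq_abs (sn p.2)]
    exact pow_lt_pow_left₀ h3 (abs_nonneg _) two_ne_zero
  have h9 : |cn p.1| < cn p.2 := by
    refine lt_of_pow_lt_pow_left₀ 2 h4.le ?_
    rw [sq_abs]; linarith
  have h11 : |cn p.1 * sn p.2| ≤ cn p.2 * |sn p.2| := by
    rw [abs_mul]
    exact mul_le_mul_of_nonneg_right h9.le (abs_nonneg _)
  have h12 := (abs_le.1 h11).1
  have h13 : cn p.2 * |sn p.2| < cn p.2 * sn p.1 := mul_lt_mul_of_pos_left h3 h4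
  linarith

/-- a fourth root of `F` on `Dset` -/
noncomputable def TT (p : 𝕋 × 𝕋) : ℂ :=
  I ^ ((4 : ℕ) : ℂ)⁻¹ * pr (sn p.1) (sn p.2) ^ ((4 : ℕ) : ℂ)⁻¹ *
    pr (sn p.1) (sn (p.1 + p.2)) ^ ((4 : ℕ) : ℂ)⁻¹ * pr (sn (p.1 + p.2)) (sn p.2) ^ ((4 : ℕ) : ℂ)⁻¹

theorem TT_pow (p : 𝕋 × 𝕋) : TT p ^ 4 = FF p := by
  unfold TT FF
  rw [mul_pow, mul_pow, mul_pow, cpow_nat_inv_pow _ (by norm_num), cpow_nat_inv_pow _ (by norm_num),
    cpow_nat_inv_pow _ (by norm_num), cpow_nat_inv_pow _ (by norm_num)]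

theorem pr_mem {a b : ℝ} (h : 0 < a) : pr a b ∈ slitPlane := by
  rw [mem_slitPlane_iff, pr_re]; exact Or.inl h

theorem continuousAt_TT {p : 𝕋 × 𝕋} (h : p ∈ Dset) : ContinuousAt TT p := by
  have h1 := continuous_sn
  unfold TT
  refine ContinuousAt.mul (ContinuousAt.mul (ContinuousAt.mul continuousAt_const ?_) ?_) ?_
  · refine ContinuousAt.cpow ?_ continuousAt_const (pr_mem (Dset_pos h))
    unfold pr; fun_prop
  · refine ContinuousAt.cpow ?_ continuousAt_const (pr_mem (Dset_pos h))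
    unfold pr; fun_prop
  · refine ContinuousAt.cpow ?_ continuousAt_const (pr_mem (Dset_pos' h))
    unfold pr; fun_prop

/-- the sheet number -/
noncomputable def sheet (q : Surf) : ℂ := q.root / TT q.base

theorem TT_ne (q : Surf) : TT q.base ≠ 0 := by
  intro h
  have := TT_pow q.base
  rw [h] at this
  exact q.FF_ne (by rw [← this]; norm_num)

theorem sheet_pow (q : Surf) : sheet q ^ 4 = 1 := by
  unfold sheet
  rw [div_pow, TT_pow, q.root_pow, div_self q.FF_ne]

theorem continuousAt_sheet {q : Surf} (h : q.base ∈ Dset) : ContinuousAt sheet q := by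
  unfold sheet
  exact (Surf.continuous_root.continuousAt).div
    (ContinuousAt.comp (f := Surf.base) (g := TT) (continuousAt_TT h) Surf.continuous_base.continuousAt)
    (TT_ne q)

theorem sheet_eventually {q : Surf} (h : q.base ∈ Dset) : ∀ᶠ q' in 𝓝 q, sheet q' = sheet q := by
  have h0 : sheet q ≠ 0 := by
    intro h0
    have := sheet_pow q
    rw [h0] at this
    norm_num at this
  have h1 : ContinuousAt (fun q' => sheet q' / sheet q - 1) q :=
    ((continuousAt_sheet h).div_const _).sub continuousAt_const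
  have h2 : ∀ᶠ q' in 𝓝 q, ‖sheet q' / sheet q - 1‖ < 1 := by
    have h3 : Tendsto (fun q' => ‖sheet q' / sheet q - 1‖) (𝓝 q) (𝓝 0) := by
      have := h1.norm.tendsto
      rw [div_self h0, sub_self, norm_zero] at this
      exact this
    exact h3.eventually (gt_mem_nhds one_pos)
  filter_upwards [h2] with q' h3
  exact root_eq_of_near h0 (by rw [sheet_pow, sheet_pow]) h3

/-- the profile of the test function: `0` below `-1/4`, `1` above `1/4` -/
noncomputable def prof (s : ℝ) : ℝ := max 0 (min 1 (2 * s + 1 / 2))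

theorem continuous_prof : Continuous prof := by unfold prof; fun_prop

theorem prof_of_le {s : ℝ} (h : s ≤ -(1 / 4)) : prof s = 0 := by
  unfold prof
  rw [max_eq_left]
  exact le_trans (min_le_right _ _) (by linarith)

theorem prof_of_ge {s : ℝ} (h : 1 / 4 ≤ s) : prof s = 1 := by
  unfold prof
  rw [min_eq_left (by linarith), max_eq_right zero_le_one]

theorem prof_mod {s : ℝ} (h : 1 / 4 ≤ |s|) : ((prof s : ℝ) : 𝕋) = 0 := by
  rcases le_abs.1 h with h | h
  · rw [prof_of_ge h]
    exact (coe_eq_zero_iff _).2 ⟨1, by simp⟩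
  · rw [prof_of_le (by linarith)]; simp

open Classical in
/-- the test function on the sheet `ζ` -/
noncomputable def testFun (ζ : ℂ) (q : Surf) : 𝕋 :=
  if q.base ∈ Dset ∧ sheet q = ζ then ((prof (sn q.base.2 / sn q.base.1) : ℝ) : 𝕋) else 0

theorem testFun_of {ζ : ℂ} {q : Surf} (h : q.base ∈ Dset ∧ sheet q = ζ) :
    testFun ζ q = ((prof (sn q.base.2 / sn q.base.1) : ℝ) : 𝕋) := if_pos h

theorem testFun_of_not {ζ : ℂ} {q : Surf} (h : ¬ (q.base ∈ Dset ∧ sheet q = ζ)) :
    testFun ζ q = 0 := if_neg h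

theorem continuous_testFun (ζ : ℂ) : Continuous (testFun ζ) := by
  rw [continuous_iff_continuousAt]
  intro q
  have hb := Surf.continuous_base
  have hs := continuous_sn
  by_cases hq : q.base ∈ Dset
  · have hD : ∀ᶠ q' in 𝓝 q, q'.base ∈ Dset := hb.continuousAt.eventually (isOpen_Dset.mem_nhds hq)
    by_cases hζ : sheet q = ζ
    · have h1 : ∀ᶠ q' in 𝓝 q, ((prof (sn q'.base.2 / sn q'.base.1) : ℝ) : 𝕋) = testFun ζ q' := by
        filter_upwards [hD, sheet_eventually hq] with q' h2 h3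
        rw [testFun_of ⟨h2, by rw [h3, hζ]⟩]
      refine ContinuousAt.congr ?_ h1
      have h4 : ContinuousAt (fun q' : Surf => sn q'.base.2 / sn q'.base.1) q := by
        refine ContinuousAt.div ?_ ?_ (Dset_pos hq).ne'
        · fun_prop
        · fun_prop
      exact (AddCircle.continuous_mk' (1 : ℝ)).continuousAt.comp (continuous_prof.continuousAt.comp h4)
    · have h1 : ∀ᶠ q' in 𝓝 q, (0 : 𝕋) = testFun ζ q' := by
        filter_upwards [sheet_eventually hq] with q' h3
        rw [testFun_of_not]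
        rintro ⟨-, h⟩
        exact hζ (by rw [← h3, h])
      exact continuousAt_const.congr h1
  · -- outside the smaller closed band
    have h1 : ¬ (|sn q.base.2| ≤ 1 / 4 * sn q.base.1 ∧ 0 ≤ cn q.base.2) := by
      rintro ⟨h2, h3⟩
      apply hq
      have h4 : 0 ≤ sn q.base.1 := by linarith [abs_nonneg (sn q.base.2)]
      have h5 : sn q.base.1 ≠ 0 := by
        intro h5
        apply q.FF_ne
        rw [FF_eq_zero_iff]
        refine ⟨h5, ?_⟩
        rw [h5, mul_zero] at h2
        exact abs_eq_zero.1 (le_antisymm h2 (abs_nonneg _))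
      have h6 : 0 < sn q.base.1 := lt_of_le_of_ne h4 (Ne.symm h5)
      refine ⟨by linarith, lt_of_le_of_ne h3 ?_⟩
      intro h7
      have h8 := cn_sq_add_sn_sq q.base.2
      rw [← h7] at h8
      have h9 : |sn q.base.2| ^ 2 = 1 := by rw [sq_abs]; linarith
      have h10 := sn_le_one q.base.1
      nlinarith [abs_nonneg (sn q.base.2)]
    have h2 : IsOpen {q' : Surf | ¬ (|sn q'.base.2| ≤ 1 / 4 * sn q'.base.1 ∧ 0 ≤ cn q'.base.2)} := by
      have hc := continuous_cn
      have e1 : IsClosed {q' : Surf | |sn q'.base.2| ≤ 1 / 4 * sn q'.base.1} :=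
        isClosed_le (by fun_prop) (by fun_prop)
      have e2 : IsClosed {q' : Surf | 0 ≤ cn q'.base.2} := isClosed_le (by fun_prop) (by fun_prop)
      exact (e1.inter e2).isOpen_compl
    have h3 : ∀ᶠ q' in 𝓝 q, (0 : 𝕋) = testFun ζ q' := by
      filter_upwards [h2.mem_nhds h1] with q' h4
      by_cases h5 : q'.base ∈ Dset ∧ sheet q' = ζ
      · rw [testFun_of h5, prof_mod]
        have h6 := Dset_pos h5.1
        rw [abs_div, abs_of_pos h6, le_div_iff₀ h6]
        by_contra h7
        push Not at h7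
        exact h4 ⟨h7.le, h5.1.2.le⟩
      · rw [testFun_of_not h5]
    exact continuousAt_const.congr h3

/-- an increment vanishes if the function vanishes on the interval -/
theorem inc_of_zero (c : C(ℝ, 𝕋)) {a b : ℝ} (hab : a ≤ b) (h : ∀ t ∈ Icc a b, c t = 0) :
    inc c a b = 0 := by
  obtain ⟨X, hX⟩ := exists_lift c
  rw [inc_eq c X hX]
  have h1 := int_valued_const (X.comp (clampAB a b)) (fun y => by
    have h2 := h _ (clampAB_mem hab y)
    rw [← hX, coe_eq_zero_iff] at h2
    exact h2) b a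
  change X (clampAB a b b) = X (clampAB a b a) at h1
  rw [clampAB_of_mem ⟨hab, le_rfl⟩, clampAB_of_mem ⟨le_rfl, hab⟩] at h1
  linarith

/-- an increment is computed by a real function which lifts the function on the interval -/
theorem inc_of_lift (c : C(ℝ, 𝕋)) {a b : ℝ} (hab : a ≤ b) (X : C(ℝ, ℝ))
    (h : ∀ t ∈ Icc a b, c t = ((X t : ℝ) : 𝕋)) : inc c a b = X b - X a := by
  have h1 := inc_of_zero (c - expo X) hab (fun t ht => by
    rw [ContinuousMap.sub_apply, expo_apply, h t ht, sub_self])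
  have h2 : c = (c - expo X) + expo X := by rw [sub_add_cancel]
  rw [h2, inc_add_fun, h1, inc_expo]; ring

theorem cos_pos_of {t : ℝ} (h : t ∈ Ioo (3 / 4 : ℝ) (5 / 4)) : 0 < Real.cos (2 * Real.pi * t) := by
  have hpi := Real.pi_pos
  rw [← Real.cos_sub_two_pi]
  apply Real.cos_pos_of_mem_Ioo
  constructor <;> nlinarith [h.1, h.2]

theorem cos_nonpos_of {t : ℝ} (h : t ∈ Icc (1 / 4 : ℝ) (3 / 4)) : Real.cos (2 * Real.pi * t) ≤ 0 := by
  have hpi := Real.pi_pos
  apply Real.cos_nonpos_of_pi_div_two_le_of_le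
  · nlinarith [h.1]
  · nlinarith [h.2]

theorem exists_test : ∃ u : C(Surf, 𝕋), edge V0 3 (3 / 4) (5 / 4) u = 1 ∧
    edge V0 0 (3 / 4) (5 / 4) u = 0 ∧ edge V0 1 (3 / 4) (5 / 4) u = 0 ∧
    edge V0 2 (3 / 4) (5 / 4) u = 0 ∧ (∀ k : ℤ, edge V0 k (1 / 4) (3 / 4) u = 0) ∧
    ∀ (k : ℤ) (a b : ℝ), edge H0 k a b u = 0 ∧ edge H1 k a b u = 0 ∧ edge V1 k a b u = 0 := by
  set ζ : ℂ := sheet (V0.lift 3 1) with hζ
  set u : C(Surf, 𝕋) := ⟨testFun ζ, continuous_testFun ζ⟩ with hu
  have hb1 : ∀ (k : ℤ) (t : ℝ), sn (V0.lift k t).base.1 = 1 := by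
    intro k t
    change sn ((1 / 4 : ℝ) : 𝕋) = 1
    rw [sn_coe, sin_quarter]
  have hb2 : ∀ (k : ℤ) (t : ℝ), sn (V0.lift k t).base.2 = Real.sin (2 * Real.pi * t) := by
    intro k t
    change sn ((t : ℝ) : 𝕋) = _
    rw [sn_coe]
  have hb3 : ∀ (k : ℤ) (t : ℝ), cn (V0.lift k t).base.2 = Real.cos (2 * Real.pi * t) := by
    intro k t
    change cn ((t : ℝ) : 𝕋) = _
    rw [cn_coe]
  have hin : ∀ (k : ℤ), ∀ t ∈ Ioo (3 / 4 : ℝ) (5 / 4), (V0.lift k t).base ∈ Dset := by
    intro k t ht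
    have h1 := cos_pos_of ht
    refine ⟨?_, by rw [hb3]; exact h1⟩
    rw [hb1, hb2]
    have h2 := Real.sin_sq_add_cos_sq (2 * Real.pi * t)
    refine lt_of_pow_lt_pow_left₀ 2 zero_le_one ?_
    rw [sq_abs]; nlinarith
  have hout : ∀ (k : ℤ) (t : ℝ), Real.cos (2 * Real.pi * t) ≤ 0 → u (V0.lift k t) = 0 := by
    intro k t ht
    change testFun ζ (V0.lift k t) = 0
    rw [testFun_of_not]
    rintro ⟨⟨-, h⟩, -⟩
    rw [hb3] at h
    linarith
  have hconst : ∀ (k : ℤ), ∀ t ∈ Ioo (3 / 4 : ℝ) (5 / 4), sheet (V0.lift k t) = sheet (V0.lift k 1) := by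
    intro k t ht
    have hpc : PreconnectedSpace (Ioo (3 / 4 : ℝ) (5 / 4)) :=
      isPreconnected_iff_preconnectedSpace.1 isPreconnected_Ioo
    have hc : Continuous fun y : Ioo (3 / 4 : ℝ) (5 / 4) => sheet (V0.lift k y) := by
      rw [continuous_iff_continuousAt]
      intro y
      exact ContinuousAt.comp (f := fun y : Ioo (3 / 4 : ℝ) (5 / 4) => V0.lift k y) (g := sheet)
        (continuousAt_sheet (hin k y y.2)) ((V0.lift k).continuous.comp continuous_subtype_val).continuousAt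
    exact const_of_pow_four hc (fun y => sheet_pow _) ⟨t, ht⟩ ⟨1, by norm_num⟩
  have hne : ∀ k : ℤ, (∀ n : ℤ, k ≠ 3 + 4 * n) → sheet (V0.lift k 1) ≠ ζ := by
    intro k hk h
    rw [hζ] at h
    unfold sheet at h
    have h1 : (V0.lift k 1).base = (V0.lift 3 1).base := rfl
    rw [h1, div_left_inj' (TT_ne _)] at h
    rw [Line.lift_apply, Line.lift_apply, pt_root, pt_root] at h
    have h2 : ((‖FF (tor (V0.path 1))‖ ^ ((4 : ℕ) : ℝ)⁻¹ : ℝ) : ℂ) ≠ 0 := by
      have : 0 < ‖FF (tor (V0.path 1))‖ := norm_pos_iff.2 (V0.ne 1)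
      exact_mod_cast (Real.rpow_pos_of_pos this _).ne'
    have h3 := mul_left_cancel₀ h2 h
    obtain ⟨n, hn⟩ := Complex.exp_eq_exp_iff_exists_int.1 h3
    apply hk n
    have hpi := Real.pi_pos
    have h4 := congrArg Complex.im hn
    simp only [Complex.add_im, Complex.mul_im, Complex.ofReal_re, Complex.ofReal_im, Complex.I_re,
      Complex.I_im, Complex.intCast_re, Complex.intCast_im, Complex.mul_re, Complex.re_ofNat,
      Complex.im_ofNat] at h4
    have h5 : (k : ℝ) = 3 + 4 * n := by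
      push_cast at h4
      have : Real.pi * ((k : ℝ) - (3 + 4 * n)) = 0 := by nlinarith
      rcases mul_eq_zero.1 this with h | h
      · exact absurd h hpi.ne'
      · linarith
    exact_mod_cast h5
  have hzero : ∀ k : ℤ, (∀ n : ℤ, k ≠ 3 + 4 * n) → edge V0 k (3 / 4) (5 / 4) u = 0 := by
    intro k hk
    refine inc_of_zero _ (by norm_num) fun t ht => ?_
    change u (V0.lift k t) = 0
    rcases le_or_gt (Real.cos (2 * Real.pi * t)) 0 with h | h
    · exact hout k t h
    · change testFun ζ (V0.lift k t) = 0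
      rw [testFun_of_not]
      rintro ⟨-, h2⟩
      have ht' : t ∈ Ioo (3 / 4 : ℝ) (5 / 4) := by
        refine ⟨lt_of_le_of_ne ht.1 ?_, lt_of_le_of_ne ht.2 ?_⟩
        · rintro rfl
          rw [cos_three_quarters] at h; exact lt_irrefl _ h
        · rintro rfl
          rw [show 2 * Real.pi * (5 / 4) = 2 * Real.pi * (1 / 4) + 2 * Real.pi by ring,
            Real.cos_add_two_pi, cos_quarter] at h
          exact lt_irrefl _ h
      rw [hconst k t ht'] at h2
      exact hne k hk h2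
  have hrest : ∀ (c : C(ℝ, 𝕋)) (a b : ℝ), (∀ t, c t = 0) → inc c a b = 0 := by
    intro c a b hc
    have : c = 0 := by ext1 t; exact hc t
    rw [this, inc_zero_fun]
  refine ⟨u, ?_, hzero 0 (fun n => by omega), hzero 1 (fun n => by omega),
    hzero 2 (fun n => by omega), ?_, ?_⟩
  · have h1 : edge V0 3 (3 / 4) (5 / 4) u = _ := inc_of_lift (u.comp (V0.lift 3)) (a := 3 / 4)
      (b := 5 / 4) (by norm_num)
      ⟨fun t => prof (Real.sin (2 * Real.pi * t)), continuous_prof.comp (by fun_prop)⟩ (by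
        intro t ht
        change u (V0.lift 3 t) = ((prof (Real.sin (2 * Real.pi * t)) : ℝ) : 𝕋)
        rcases le_or_gt (Real.cos (2 * Real.pi * t)) 0 with h | h
        · rw [hout 3 t h, prof_mod]
          have hpi := Real.pi_pos
          have ht' : t = 3 / 4 ∨ t = 5 / 4 := by
            by_contra hc
            push Not at hc
            have := cos_pos_of ⟨lt_of_le_of_ne ht.1 (Ne.symm hc.1), lt_of_le_of_ne ht.2 hc.2⟩
            linarith
          rcases ht' with rfl | rfl
          · rw [sin_three_quarters]; norm_num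
          · rw [show 2 * Real.pi * (5 / 4) = 2 * Real.pi * (1 / 4) + 2 * Real.pi by ring,
              Real.sin_add_two_pi, sin_quarter]
            norm_num
        · have ht' : t ∈ Ioo (3 / 4 : ℝ) (5 / 4) := by
            refine ⟨lt_of_le_of_ne ht.1 ?_, lt_of_le_of_ne ht.2 ?_⟩
            · rintro rfl
              rw [cos_three_quarters] at h; exact lt_irrefl _ h
            · rintro rfl
              rw [show 2 * Real.pi * (5 / 4) = 2 * Real.pi * (1 / 4) + 2 * Real.pi by ring,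
                Real.cos_add_two_pi, cos_quarter] at h
              exact lt_irrefl _ h
          change testFun ζ (V0.lift 3 t) = _
          rw [testFun_of ⟨hin 3 t ht', hconst 3 t ht'⟩, hb1, hb2, div_one])
    rw [h1]
    change prof (Real.sin (2 * Real.pi * (5 / 4))) - prof (Real.sin (2 * Real.pi * (3 / 4))) = 1
    rw [sin_three_quarters, show 2 * Real.pi * (5 / 4) = 2 * Real.pi * (1 / 4) + 2 * Real.pi by ring,
      Real.sin_add_two_pi, sin_quarter, prof_of_ge (by norm_num), prof_of_le (by norm_num)]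
    norm_num
  · intro k
    exact inc_of_zero _ (by norm_num) fun t ht => hout k t (cos_nonpos_of ht)
  · intro k a b
    refine ⟨hrest _ a b fun t => ?_, hrest _ a b fun t => ?_, hrest _ a b fun t => ?_⟩
    · change testFun ζ (H0.lift k t) = 0
      rw [testFun_of_not]
      rintro ⟨⟨-, h⟩, -⟩
      have : cn (H0.lift k t).base.2 = 0 := by
        change cn ((1 / 4 : ℝ) : 𝕋) = 0
        rw [cn_coe, cos_quarter]
      rw [this] at h; exact lt_irrefl _ h
    · change testFun ζ (H1.lift k t) = 0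
      rw [testFun_of_not]
      rintro ⟨⟨-, h⟩, -⟩
      have : cn (H1.lift k t).base.2 = 0 := by
        change cn ((3 / 4 : ℝ) : 𝕋) = 0
        rw [cn_coe, cos_three_quarters]
      rw [this] at h; exact lt_irrefl _ h
    · change testFun ζ (V1.lift k t) = 0
      rw [testFun_of_not]
      rintro ⟨h, -⟩
      have h2 := Dset_pos h
      have : sn (V1.lift k t).base.1 = -1 := by
        change sn ((3 / 4 : ℝ) : 𝕋) = -1
        rw [sn_coe, sin_three_quarters]
      rw [this] at h2; linarith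

end Pool.Agent.Hhelper31.Penner
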